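import Mathlib

/-!
# Frogs on the rooted `4`-ary tree with finite lifetimes, explored frog by frog
-/

set_option autoImplicit false

open Finset

namespace Pool.Agent.U874.FT

/-- The vertices of the tree: the children of `z` are `j :: z`. -/
abbrev V : Type := List (Fin 4)

/-- One step of the walk. -/
def stp (z : V) (c : Fin 4 × Fin 5) : V :=
  if z = [] then [c.1] else if c.2 = 0 then z.tail else c.1 :: z

/-- Average over the path of a frog with lifetime `L`, killed beyond depth `H`. -/
noncomputable def EP (H : ℕ) : ℕ → V → (List V → ℝ) → ℝ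
  | 0, z, φ => φ [z]
  | L + 1, z, φ => if H < z.length then φ [z] else
      (1 / 20) * ∑ c : Fin 4 × Fin 5, EP H L (stp z c) (fun p => φ (z :: p))

section EP

variable {H : ℕ}

theorem EP_mono : ∀ (L : ℕ) (z : V) {φ ψ : List V → ℝ}, (∀ p, φ p ≤ ψ p) →
    EP H L z φ ≤ EP H L z ψ := by
  intro L
  induction L with
  | zero => intro z φ ψ h; exact h _
  | succ L ih =>
    intro z φ ψ h
    simp only [EP]
    split_ifs
    · exact h _
    · exact mul_le_mul_of_nonneg_left (Finset.sum_le_sum fun c _ => ih _ fun p => h _) (by norm_num)

theorem EP_congr (L : ℕ) (z : V) {φ ψ : List V → ℝ} (h : ∀ p, φ p = ψ p) :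
    EP H L z φ = EP H L z ψ := by
  have : φ = ψ := funext h
  rw [this]

theorem EP_const : ∀ (L : ℕ) (z : V) (a : ℝ), EP H L z (fun _ => a) = a := by
  intro L
  induction L with
  | zero => intro z a; rfl
  | succ L ih =>
    intro z a
    simp only [EP, ih]
    split_ifs
    · rfl
    · simp

theorem EP_add : ∀ (L : ℕ) (z : V) (φ ψ : List V → ℝ),
    EP H L z (fun p => φ p + ψ p) = EP H L z φ + EP H L z ψ := by
  intro L
  induction L with
  | zero => intro z φ ψ; rfl
  | succ L ih =>
    intro z φ ψ
    simp only [EP]
    split_ifs
    · rfl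
    · rw [← mul_add, ← Finset.sum_add_distrib]
      congr 1
      exact Finset.sum_congr rfl fun c _ => ih _ _ _

theorem EP_comm_sum {ι : Type} (s : Finset ι) (w : ℝ) : ∀ (L : ℕ) (z : V) (φ : ι → List V → ℝ),
    EP H L z (fun p => w * ∑ i ∈ s, φ i p) = w * ∑ i ∈ s, EP H L z (φ i) := by
  intro L
  induction L with
  | zero => intro z φ; rfl
  | succ L ih =>
    intro z φ
    simp only [EP]
    split_ifs
    · rfl
    · simp only [ih]
      rw [← Finset.mul_sum, Finset.sum_comm, ← Finset.mul_sum]
      ring

theorem EP_comm : ∀ (L M : ℕ) (z y : V) (f : List V → List V → ℝ),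
    EP H L z (fun p => EP H M y (fun q => f p q)) =
      EP H M y (fun q => EP H L z (fun p => f p q)) := by
  intro L
  induction L with
  | zero => intro M z y f; rfl
  | succ L ih =>
    intro M z y f
    simp only [EP]
    split_ifs
    · rfl
    · rw [EP_comm_sum]
      congr 1
      exact Finset.sum_congr rfl fun c _ => ih _ _ _ _

theorem EP_ext : ∀ (L : ℕ) (z : V) (φ : List V → ℝ), (∀ p y, φ p ≤ φ (p ++ [y])) →
    EP H L z φ ≤ EP H (L + 1) z φ := by
  intro L
  induction L with
  | zero =>
    intro z φ h
    simp only [EP]
    split_ifs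
    · exact le_rfl
    · have : φ [z] = (1 / 20) * ∑ c : Fin 4 × Fin 5, φ [z] := by simp
      rw [this]
      refine mul_le_mul_of_nonneg_left (Finset.sum_le_sum fun c _ => ?_) (by norm_num)
      exact h [z] _
  | succ L ih =>
    intro z φ h
    rw [EP, EP]
    split_ifs
    · exact le_rfl
    · refine mul_le_mul_of_nonneg_left (Finset.sum_le_sum fun c _ => ?_) (by norm_num)
      exact ih _ _ fun p y => h (z :: p) y

/-- The start belongs to the path. -/
theorem EP_mem : ∀ (L : ℕ) (z : V) {φ ψ : List V → ℝ}, (∀ p, z ∈ p → φ p = ψ p) →
    EP H L z φ = EP H L z ψ := by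
  intro L
  cases L with
  | zero => intro z φ ψ h; exact h _ (by simp)
  | succ L =>
    intro z φ ψ h
    simp only [EP]
    split_ifs
    · exact h _ (by simp)
    · congr 1
      exact Finset.sum_congr rfl fun c _ => EP_congr _ _ fun p => h _ (by simp)

end EP

/-- Number of visits of a path to the root. -/
def rt (p : List V) : ℝ := (p.count [] : ℝ)

theorem rt_nonneg (p : List V) : 0 ≤ rt p := Nat.cast_nonneg _

theorem EP_rt (H : ℕ) : ∀ (L : ℕ) (z : V), EP H L z rt ≤ L + 1 := by
  have key : ∀ (L : ℕ) (z : V) (a : ℝ), EP H L z (fun p => a + rt p) ≤ a + (L + 1) := by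
    intro L
    induction L with
    | zero =>
      intro z a
      simp only [EP, rt, List.count_singleton]
      split_ifs <;> simp
    | succ L ih =>
      intro z a
      simp only [EP]
      have h1 : ∀ p : List V, a + rt (z :: p) ≤ (a + 1) + rt p := by
        intro p
        unfold rt
        rw [List.count_cons]
        split_ifs <;> push_cast <;> linarith
      split_ifs
      · have h2 := h1 []
        simp only [rt] at h2 ⊢
        simp only [List.count_nil, Nat.cast_zero] at h2
        push_cast
        have : (0 : ℝ) ≤ L := Nat.cast_nonneg _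
        linarith
      · calc (1 / 20 : ℝ) * ∑ c : Fin 4 × Fin 5, EP H L (stp z c) (fun p => a + rt (z :: p))
            ≤ (1 / 20 : ℝ) * ∑ c : Fin 4 × Fin 5, ((a + 1) + (L + 1)) := by
              refine mul_le_mul_of_nonneg_left (Finset.sum_le_sum fun c _ => ?_) (by norm_num)
              exact (EP_mono _ _ h1).trans (ih _ _)
          _ = a + ((L + 1 : ℕ) + 1) := by simp; ring
  intro L z
  have := key L z 0
  simpa using this

/-- Expected number of visits to the root, with fuel. -/
noncomputable def Wf (H L : ℕ) : ℕ → List V → Finset V → ℝ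
  | 0, _, _ => 0
  | _ + 1, [], _ => 0
  | n + 1, z :: l, Z => EP H L z (fun p => rt p +
      Wf H L n ((Z.filter (· ∈ p)).toList ++ l) (Z.filter (· ∉ p)))

theorem card_split (Z : Finset V) (p : List V) :
    (Z.filter (· ∈ p)).card + (Z.filter (· ∉ p)).card = Z.card :=
  Finset.card_filter_add_card_filter_not (s := Z) (fun x => x ∈ p)

theorem Wf_fuel (H L : ℕ) : ∀ (n m : ℕ) (l : List V) (Z : Finset V),
    l.length + Z.card ≤ n → l.length + Z.card ≤ m → Wf H L n l Z = Wf H L m l Z := by
  intro n
  induction n with
  | zero =>
    intro m l Z h _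
    have : l = [] := List.length_eq_zero_iff.mp (by omega)
    subst this
    cases m <;> rfl
  | succ n ih =>
    intro m l Z h1 h2
    cases l with
    | nil => cases m <;> rfl
    | cons z l =>
      cases m with
      | zero => simp at h2
      | succ m =>
        simp only [Wf]
        refine EP_congr _ _ fun p => ?_
        have hc := card_split Z p
        rw [ih m]
        · simp only [List.length_append, Finset.length_toList, List.length_cons] at *
          omega
        · simp only [List.length_append, Finset.length_toList, List.length_cons] at *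
          omega

theorem Wf_perm (H L : ℕ) : ∀ (n : ℕ) (l l' : List V) (Z : Finset V), l.Perm l' →
    l.length + Z.card ≤ n → Wf H L n l Z = Wf H L n l' Z := by
  intro n
  induction n with
  | zero => intro l l' Z _ _; rfl
  | succ n ih =>
    intro l l' Z hp
    induction hp with
    | nil => intro _; rfl
    | cons z hp _ =>
      intro h
      simp only [Wf]
      refine EP_congr _ _ fun p => ?_
      have hc := card_split Z p
      rw [ih _ _ _ (List.Perm.append_left _ hp)]
      simp only [List.length_append, Finset.length_toList, List.length_cons] at *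
      omega
    | swap a b l =>
      intro h
      have key : ∀ a b : V, Wf H L (n + 1) (a :: b :: l) Z = EP H L a (fun p => EP H L b (fun q =>
          rt p + rt q + Wf H L (n - 1)
            (((Z.filter (· ∉ p)).filter (· ∈ q)).toList ++ ((Z.filter (· ∈ p)).toList ++ l))
            ((Z.filter (· ∉ p)).filter (· ∉ q)))) := by
        intro a b
        simp only [Wf]
        refine EP_congr _ _ fun p => ?_
        have hc := card_split Z p
        have h1 : ((Z.filter (· ∈ p)).toList ++ b :: l).Perm
            (b :: ((Z.filter (· ∈ p)).toList ++ l)) := List.perm_middle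
        rw [ih _ _ _ h1 (by
          simp only [List.length_append, Finset.length_toList, List.length_cons] at *
          omega)]
        obtain ⟨k, rfl⟩ : ∃ k, n = k + 1 := ⟨n - 1, by
          simp only [List.length_cons] at h
          omega⟩
        simp only [Wf, Nat.add_sub_cancel]
        rw [← EP_const (H := H) L b (rt p), ← EP_add]
        simp only [EP_const]
        exact EP_congr _ _ fun q => by ring
      rw [key b a, key a b, EP_comm]
      refine EP_congr _ _ fun q => EP_congr _ _ fun p => ?_
      have e1 : (Z.filter (· ∉ p)).filter (· ∉ q) = (Z.filter (· ∉ q)).filter (· ∉ p) := by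
        ext x; simp only [Finset.mem_filter]; tauto
      have e2 : (((Z.filter (· ∉ p)).filter (· ∈ q)).toList ++
          ((Z.filter (· ∈ p)).toList ++ l)).Perm
          (((Z.filter (· ∉ q)).filter (· ∈ p)).toList ++ ((Z.filter (· ∈ q)).toList ++ l)) := by
        rw [← Multiset.coe_eq_coe]
        simp only [← Multiset.coe_add, Finset.coe_toList]
        rw [← add_assoc, ← add_assoc]
        congr 1
        have f1 : ∀ p q : List V, ((Z.filter (· ∉ p)).filter (· ∈ q)).val + (Z.filter (· ∈ p)).val
            = (Z.filter (fun x => x ∈ p ∨ x ∈ q)).val := by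
          intro p q
          have hd : Disjoint ((Z.filter (· ∉ p)).filter (· ∈ q)) (Z.filter (· ∈ p)) := by
            rw [Finset.disjoint_left]
            intro x hx hx2
            simp only [Finset.mem_filter] at hx hx2
            exact hx.1.2 hx2.2
          have := Finset.disjUnion_val _ _ hd
          rw [← this]
          congr 1
          ext x
          simp only [Finset.mem_disjUnion, Finset.mem_filter]
          tauto
        rw [f1 p q, f1 q p]
        congr 1
        ext x
        simp only [Finset.mem_filter]
        tauto
      rw [e1]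
      have hc := card_split Z q
      have hc2 := card_split (Z.filter (· ∉ q)) p
      rw [show rt p + rt q = rt q + rt p from add_comm _ _]
      congr 1
      by_cases hn : n = 0
      · subst hn; rfl
      · obtain ⟨k, rfl⟩ : ∃ k, n = k + 1 := ⟨n - 1, by omega⟩
        have hl : ((((Z.filter (· ∉ p)).filter (· ∈ q)).toList ++
          ((Z.filter (· ∈ p)).toList ++ l))).length + ((Z.filter (· ∉ q)).filter (· ∉ p)).card
            ≤ k := by
          rw [e2.length_eq]
          simp only [List.length_append, Finset.length_toList, List.length_cons] at *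
          omega
        have h3 := ih _ _ ((Z.filter (· ∉ q)).filter (· ∉ p)) e2 (by omega)
        rw [Wf_fuel H L (k + 1) k _ _ (by omega) hl,
          Wf_fuel H L (k + 1) k _ _ (by rw [← e2.length_eq]; omega)
            (by rw [← e2.length_eq]; exact hl)] at h3
        simpa using h3
    | trans h1 _ ih1 ih2 =>
      intro h
      rw [ih1 h, ih2 (by rw [← h1.length_eq]; exact h)]

/-- Expected number of visits to the root of the frogs woken by the frogs of `x`, the sites of `Z`
being asleep. -/
noncomputable def U (H L : ℕ) (x : Multiset V) (Z : Finset V) : ℝ :=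
  Wf H L (Multiset.card x + Z.card) x.toList Z

theorem U_coe (H L : ℕ) (l : List V) (Z : Finset V) (n : ℕ) (hn : l.length + Z.card ≤ n) :
    U H L (l : Multiset V) Z = Wf H L n l Z := by
  unfold U
  have hp : (l : Multiset V).toList.Perm l := by
    rw [← Multiset.coe_eq_coe, Multiset.coe_toList]
  rw [Wf_perm H L _ _ _ _ hp (by rw [hp.length_eq]; simp)]
  exact Wf_fuel H L _ _ _ _ (by simp) hn

variable {H L : ℕ}

@[simp] theorem U_zero (Z : Finset V) : U H L 0 Z = 0 := by
  rw [← Multiset.coe_nil, U_coe H L [] Z _ le_rfl]
  cases (([] : List V).length + Z.card) <;> rfl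

theorem U_cons (z : V) (x : Multiset V) (Z : Finset V) :
    U H L (z ::ₘ x) Z = EP H L z (fun p => rt p +
      U H L ((Z.filter (· ∈ p)).val + x) (Z.filter (· ∉ p))) := by
  induction x using Quotient.inductionOn with
  | h l =>
    have e : z ::ₘ (l : Multiset V) = ((z :: l : List V) : Multiset V) := rfl
    change U H L (z ::ₘ (l : Multiset V)) Z = _
    rw [e, U_coe H L (z :: l) Z (l.length + Z.card + 1) (by simp; omega)]
    simp only [Wf]
    refine EP_congr _ _ fun p => ?_
    congr 1
    have hc := card_split Z p
    rw [← Finset.coe_toList (Z.filter (· ∈ p))]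
    change _ = U H L (((Z.filter (· ∈ p)).toList : Multiset V) + (l : Multiset V)) _
    rw [Multiset.coe_add]
    rw [U_coe H L _ _ (l.length + Z.card)]
    simp only [List.length_append, Finset.length_toList]
    omega

/-- Induction on the number of frogs. -/
theorem U_ind {P : Multiset V → Finset V → Prop} (h0 : ∀ Z, P 0 Z)
    (hc : ∀ z x Z, (∀ x' Z', Multiset.card x' + Z'.card = Multiset.card x + Z.card → P x' Z') →
      P (z ::ₘ x) Z) : ∀ x Z, P x Z := by
  have : ∀ n : ℕ, ∀ x Z, Multiset.card x + Z.card = n → P x Z := by
    intro n
    induction n with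
    | zero =>
      intro x Z h
      have : x = 0 := Multiset.card_eq_zero.mp (by omega)
      rw [this]; exact h0 Z
    | succ n ih =>
      intro x Z h
      induction x using Multiset.induction_on with
      | empty => exact h0 Z
      | cons z x _ =>
        refine hc z x Z fun x' Z' h' => ih x' Z' ?_
        rw [Multiset.card_cons] at h
        omega
  intro x Z
  exact this _ x Z rfl

theorem card_split' (x : Multiset V) (Z : Finset V) (p : List V) :
    Multiset.card ((Z.filter (· ∈ p)).val + x) + (Z.filter (· ∉ p)).card =
      Multiset.card x + Z.card := by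
  have := card_split Z p
  rw [Multiset.card_add]
  change (Z.filter (· ∈ p)).card + _ + _ = _
  omega

end Pool.Agent.U874.FT
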