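import Pool.Agent.U874.FT.A1

/-!
# Monotonicity, submodularity and the one step inequality
-/

set_option autoImplicit false

open Finset

namespace Pool.Agent.U874.FT

variable {H L : ℕ}

theorem U_nonneg (x : Multiset V) (Z : Finset V) : 0 ≤ U H L x Z := by
  revert x Z
  refine U_ind (fun Z => by simp) fun z x Z ih => ?_
  rw [U_cons, ← EP_const (H := H) L z 0]
  refine EP_mono _ _ fun p => ?_
  have := ih _ _ (card_split' x Z p)
  have h := rt_nonneg p
  linarith

theorem U_le_cons (a : V) (x : Multiset V) (Z : Finset V) : U H L x Z ≤ U H L (a ::ₘ x) Z := by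
  revert x Z
  refine U_ind (fun Z => by rw [U_zero]; exact U_nonneg _ _) fun z x Z ih => ?_
  rw [Multiset.cons_swap, U_cons, U_cons z (a ::ₘ x)]
  refine EP_mono _ _ fun p => ?_
  have := ih _ _ (card_split' x Z p)
  rw [Multiset.add_cons]
  linarith

theorem U_le_add (x y : Multiset V) (Z : Finset V) : U H L x Z ≤ U H L (y + x) Z := by
  induction y using Multiset.induction_on with
  | empty => simp
  | cons a y ih =>
    rw [Multiset.cons_add]
    exact ih.trans (U_le_cons _ _ _)

theorem U_wake (y : V) (x : Multiset V) (Z : Finset V) :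
    y ∉ Z → U H L x (insert y Z) ≤ U H L (y ::ₘ x) Z := by
  revert x Z
  refine U_ind (fun Z _ => by rw [U_zero]; exact U_nonneg _ _) fun z x Z ih hy => ?_
  rw [Multiset.cons_swap, U_cons, U_cons z (y ::ₘ x)]
  refine EP_mono _ _ fun p => ?_
  by_cases hp : y ∈ p
  · have e1 : (insert y Z).filter (· ∈ p) = insert y (Z.filter (· ∈ p)) := by
      rw [Finset.filter_insert, if_pos hp]
    have e2 : (insert y Z).filter (· ∉ p) = Z.filter (· ∉ p) := by
      rw [Finset.filter_insert, if_neg (by simpa using hp)]
    have hn : y ∉ Z.filter (· ∈ p) := fun h => hy (Finset.mem_filter.mp h).1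
    rw [e1, e2, Finset.insert_val_of_notMem hn, Multiset.cons_add, Multiset.add_cons]
  · have e1 : (insert y Z).filter (· ∈ p) = Z.filter (· ∈ p) := by
      rw [Finset.filter_insert, if_neg hp]
    have e2 : (insert y Z).filter (· ∉ p) = insert y (Z.filter (· ∉ p)) := by
      rw [Finset.filter_insert, if_pos hp]
    rw [e1, e2, Multiset.add_cons]
    have := ih _ _ (card_split' x Z p) (fun h => hy (Finset.mem_filter.mp h).1)
    linarith

theorem U_le_insert (y : V) (x : Multiset V) (Z : Finset V) :
    U H L x Z ≤ U H L x (insert y Z) := by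
  by_cases hy : y ∈ Z
  · rw [Finset.insert_eq_of_mem hy]
  revert hy
  revert x Z
  refine U_ind (fun Z _ => by simp) fun z x Z ih hy => ?_
  rw [U_cons, U_cons]
  refine EP_mono _ _ fun p => ?_
  by_cases hp : y ∈ p
  · have e1 : (insert y Z).filter (· ∈ p) = insert y (Z.filter (· ∈ p)) := by
      rw [Finset.filter_insert, if_pos hp]
    have e2 : (insert y Z).filter (· ∉ p) = Z.filter (· ∉ p) := by
      rw [Finset.filter_insert, if_neg (by simpa using hp)]
    have hn : y ∉ Z.filter (· ∈ p) := fun h => hy (Finset.mem_filter.mp h).1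
    rw [e1, e2, Finset.insert_val_of_notMem hn, Multiset.cons_add]
    have := U_le_cons (H := H) (L := L) y ((Z.filter (· ∈ p)).val + x) (Z.filter (· ∉ p))
    linarith
  · have e1 : (insert y Z).filter (· ∈ p) = Z.filter (· ∈ p) := by
      rw [Finset.filter_insert, if_neg hp]
    have e2 : (insert y Z).filter (· ∉ p) = insert y (Z.filter (· ∉ p)) := by
      rw [Finset.filter_insert, if_pos hp]
    rw [e1, e2]
    have := ih _ _ (card_split' x Z p) (fun h => hy (Finset.mem_filter.mp h).1)
    linarith

theorem U_mono_right (x : Multiset V) {Z Z' : Finset V} (h : Z ⊆ Z') :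
    U H L x Z ≤ U H L x Z' := by
  have : ∀ Y : Finset V, U H L x Z ≤ U H L x (Y ∪ Z) := by
    intro Y
    induction Y using Finset.induction_on with
    | empty => simp
    | insert a Y _ ih =>
      rw [Finset.insert_union]
      exact ih.trans (U_le_insert _ _ _)
  have h2 := this Z'
  rwa [Finset.union_eq_left.mpr h] at h2

theorem U_wakes (x : Multiset V) (Z : Finset V) : ∀ Y : Finset V, Disjoint Y Z →
    U H L x (Y ∪ Z) ≤ U H L (Y.val + x) Z := by
  intro Y
  induction Y using Finset.induction_on generalizing x with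
  | empty => intro _; simp
  | insert a Y ha ih =>
    intro hd
    rw [Finset.disjoint_insert_left] at hd
    rw [Finset.insert_union]
    have h1 : a ∉ Y ∪ Z := by simp [ha, hd.1]
    refine (U_wake a x (Y ∪ Z) h1).trans ?_
    refine (ih (a ::ₘ x) hd.2).trans (le_of_eq ?_)
    rw [Finset.insert_val_of_notMem ha, Multiset.cons_add, Multiset.add_cons]

/-- More visited sites: more frogs are woken. -/
theorem U_paths (x : Multiset V) (Z : Finset V) (p q : List V) (h : ∀ v ∈ p, v ∈ q) :
    U H L ((Z.filter (· ∈ p)).val + x) (Z.filter (· ∉ p)) ≤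
      U H L ((Z.filter (· ∈ q)).val + x) (Z.filter (· ∉ q)) := by
  have e1 : Z.filter (· ∉ p) = (Z.filter (fun v => v ∈ q ∧ v ∉ p)) ∪ Z.filter (· ∉ q) := by
    ext v
    simp only [Finset.mem_filter, Finset.mem_union]
    constructor
    · rintro ⟨h1, h2⟩
      by_cases hq : v ∈ q
      · exact Or.inl ⟨h1, hq, h2⟩
      · exact Or.inr ⟨h1, hq⟩
    · rintro (⟨h1, _, h2⟩ | ⟨h1, h2⟩)
      · exact ⟨h1, h2⟩
      · exact ⟨h1, fun h3 => h2 (h v h3)⟩
  have hd : Disjoint (Z.filter (fun v => v ∈ q ∧ v ∉ p)) (Z.filter (· ∉ q)) := by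
    rw [Finset.disjoint_left]
    intro v hv hv2
    simp only [Finset.mem_filter] at hv hv2
    exact hv2.2 hv.2.1
  rw [e1]
  refine (U_wakes _ _ _ hd).trans (le_of_eq ?_)
  have hd2 : Disjoint (Z.filter (fun v => v ∈ q ∧ v ∉ p)) (Z.filter (· ∈ p)) := by
    rw [Finset.disjoint_left]
    intro v hv hv2
    simp only [Finset.mem_filter] at hv hv2
    exact hv.2.2 hv2.2
  have e2 : (Z.filter (fun v => v ∈ q ∧ v ∉ p)).val + (Z.filter (· ∈ p)).val =
      (Z.filter (· ∈ q)).val := by
    have := Finset.disjUnion_val _ _ hd2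
    rw [← this]
    congr 1
    ext v
    simp only [Finset.mem_disjUnion, Finset.mem_filter]
    constructor
    · rintro (⟨h1, h2, _⟩ | ⟨h1, h2⟩)
      · exact ⟨h1, h2⟩
      · exact ⟨h1, h v h2⟩
    · rintro ⟨h1, h2⟩
      by_cases hp : v ∈ p
      · exact Or.inr ⟨h1, hp⟩
      · exact Or.inl ⟨h1, h2, hp⟩
  rw [← add_assoc, e2]

/-- Submodularity. -/
theorem U_sub (a b : V) (x : Multiset V) (Z : Finset V) :
    U H L (a ::ₘ b ::ₘ x) Z + U H L x Z ≤ U H L (a ::ₘ x) Z + U H L (b ::ₘ x) Z := by
  have main : ∀ n : ℕ, ∀ (a b : V) (x : Multiset V) (Z : Finset V),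
      Multiset.card x + Z.card = n →
      U H L (a ::ₘ b ::ₘ x) Z + U H L x Z ≤ U H L (a ::ₘ x) Z + U H L (b ::ₘ x) Z := by
    intro n
    induction n using Nat.strong_induction_on with
    | _ n ih =>
      intro a b x Z hn
      induction x using Multiset.induction_on with
      | cons c x _ =>
        rw [Multiset.cons_swap b c x, Multiset.cons_swap a c, Multiset.cons_swap a c,
          U_cons, U_cons, U_cons, U_cons, ← EP_add, ← EP_add]
        refine EP_mono _ _ fun p => ?_
        have hc := card_split' x Z p
        rw [Multiset.card_cons] at hn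
        have := ih (Multiset.card x + Z.card) (by omega) a b ((Z.filter (· ∈ p)).val + x)
          (Z.filter (· ∉ p)) hc
        simp only [Multiset.add_cons]
        linarith
      | empty =>
        simp only [Multiset.card_zero, zero_add] at hn
        rw [U_zero, add_zero, U_cons a, U_cons a]
        -- marginal gain of `b`
        have marg : ∀ (y : Multiset V) (Z' : Finset V), Multiset.card y + Z'.card ≤ n →
            U H L (b ::ₘ y) Z' ≤ U H L y Z' + U H L (b ::ₘ 0) Z' := by
          intro y
          induction y using Multiset.induction_on with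
          | empty => intro Z' _; simp
          | cons c y ihy =>
            intro Z' hy
            rw [Multiset.card_cons] at hy
            have h1 := ih (Multiset.card y + Z'.card) (by omega) b c y Z' rfl
            have h2 := ihy Z' (by omega)
            linarith
        have hZ : ∀ p : List V, U H L (b ::ₘ ((Z.filter (· ∈ p)).val + 0)) (Z.filter (· ∉ p)) ≤
            U H L ((Z.filter (· ∈ p)).val + 0) (Z.filter (· ∉ p)) + U H L (b ::ₘ 0) Z := by
          intro p
          have hc := card_split' 0 Z p
          simp only [Multiset.card_zero, zero_add] at hc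
          refine (marg _ _ (by omega)).trans ?_
          have := U_mono_right (H := H) (L := L) (b ::ₘ 0) (Finset.filter_subset (· ∉ p) Z)
          linarith
        rw [← EP_const (H := H) L a (U H L (b ::ₘ 0) Z), ← EP_add]
        refine EP_mono _ _ fun p => ?_
        have := hZ p
        rw [Multiset.add_cons]
        linarith
  exact main _ a b x Z rfl

/-- The increments in the number of frogs at a vertex decrease. -/
theorem U_conc (a : V) (x : Multiset V) (Z : Finset V) :
    U H L (a ::ₘ a ::ₘ x) Z - U H L (a ::ₘ x) Z ≤ U H L (a ::ₘ x) Z - U H L x Z := by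
  have := U_sub (H := H) (L := L) a a x Z
  linarith

theorem U_grow (x : Multiset V) (Z : Finset V) :
    U H L x Z ≤ ((Multiset.card x + Z.card : ℕ) : ℝ) * (L + 1) := by
  have main : ∀ n : ℕ, ∀ (x : Multiset V) (Z : Finset V), Multiset.card x + Z.card = n →
      U H L x Z ≤ (n : ℝ) * (L + 1) := by
    intro n
    induction n with
    | zero =>
      intro x Z h
      have : x = 0 := Multiset.card_eq_zero.mp (by omega)
      rw [this]; simp
    | succ n ih =>
      intro x Z h
      induction x using Multiset.induction_on with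
      | empty => rw [U_zero]; positivity
      | cons z x _ =>
        rw [U_cons, EP_add]
        have h1 := EP_rt H L z
        have h2 : EP H L z (fun p => U H L ((Z.filter (· ∈ p)).val + x) (Z.filter (· ∉ p))) ≤
            (n : ℝ) * (L + 1) := by
          rw [← EP_const (H := H) L z ((n : ℝ) * (L + 1))]
          refine EP_mono _ _ fun p => ih _ _ ?_
          rw [card_split']
          rw [Multiset.card_cons] at h
          omega
        push_cast
        linarith
  exact main _ x Z rfl

/-- A frog beyond depth `H` is dead. -/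
theorem U_dead (z : V) (hz : H < z.length) (x : Multiset V) (Z : Finset V) (hZ : z ∉ Z) :
    U H L (z ::ₘ x) Z = U H L x Z := by
  rw [U_cons]
  have h0 : z ≠ [] := by rintro rfl; simp at hz
  have e : EP H L z (fun p => rt p + U H L ((Z.filter (· ∈ p)).val + x) (Z.filter (· ∉ p))) =
      rt [z] + U H L ((Z.filter (· ∈ [z])).val + x) (Z.filter (· ∉ [z])) := by
    cases L with
    | zero => rfl
    | succ L => simp only [EP, if_pos hz]
  rw [e]
  have e1 : rt [z] = 0 := by
    unfold rt
    rw [List.count_singleton]
    have : ((z == ([] : V)) = false) := by simpa using h0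
    simp [this]
  have e2 : Z.filter (· ∈ [z]) = ∅ := by
    rw [Finset.filter_eq_empty_iff]
    intro v hv h
    rw [List.mem_singleton] at h
    exact hZ (h ▸ hv)
  have e3 : Z.filter (· ∉ [z]) = Z := by
    rw [Finset.filter_eq_self]
    intro v hv h
    rw [List.mem_singleton] at h
    exact hZ (h ▸ hv)
  rw [e1, e2, e3]
  simp

/-- One step of a frog. -/
theorem U_step (z : V) (x : Multiset V) (Z : Finset V) (hZ : z ∉ Z) :
    U H L (z ::ₘ x) Z ≤ (if z = [] then 1 else 0) +
      (1 / 20) * ∑ c : Fin 4 × Fin 5, U H L (stp z c ::ₘ x) Z := by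
  set F : List V → ℝ := fun p => rt p + U H L ((Z.filter (· ∈ p)).val + x) (Z.filter (· ∉ p))
    with hF
  have hFz : ∀ p, F (z :: p) ≤ (if z = [] then 1 else 0) + F p := by
    intro p
    simp only [hF]
    have e1 : Z.filter (· ∈ z :: p) = Z.filter (· ∈ p) := by
      apply Finset.filter_congr
      intro v hv
      have : v ≠ z := fun h => hZ (h ▸ hv)
      simp [this]
    have e2 : Z.filter (· ∉ z :: p) = Z.filter (· ∉ p) := by
      apply Finset.filter_congr
      intro v hv
      have : v ≠ z := fun h => hZ (h ▸ hv)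
      simp [this]
    rw [e1, e2]
    have : rt (z :: p) = (if z = [] then 1 else 0) + rt p := by
      unfold rt
      rw [List.count_cons]
      by_cases h : z = []
      · subst h; simp; ring
      · have : ((z == ([] : V)) = false) := by simpa using h
        simp [this, h]
    rw [this]
    linarith
  have hFm : ∀ p y, F p ≤ F (p ++ [y]) := by
    intro p y
    simp only [hF]
    have h1 := U_paths (H := H) (L := L) x Z p (p ++ [y])
      (fun v hv => List.mem_append_left _ hv)
    have h2 : rt p ≤ rt (p ++ [y]) := by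
      unfold rt
      rw [List.count_append]
      push_cast
      have : (0 : ℝ) ≤ (List.count [] [y] : ℝ) := Nat.cast_nonneg _
      linarith
    linarith
  have hz0 : F [z] ≤ (if z = [] then 1 else 0) + U H L x Z := by
    have h1 := hFz []
    simp only [hF] at h1 ⊢
    have e2 : Z.filter (· ∈ ([] : List V)) = ∅ := by simp
    have e3 : Z.filter (· ∉ ([] : List V)) = Z := by simp
    rw [e2, e3] at h1
    have : rt ([] : List V) = 0 := by simp [rt]
    rw [this] at h1
    simpa using h1
  have hav : U H L x Z ≤ (1 / 20) * ∑ c : Fin 4 × Fin 5, U H L (stp z c ::ₘ x) Z := by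
    have : U H L x Z = (1 / 20) * ∑ c : Fin 4 × Fin 5, U H L x Z := by simp
    rw [this]
    refine mul_le_mul_of_nonneg_left (Finset.sum_le_sum fun c _ => ?_) (by norm_num)
    exact U_le_cons _ _ _
  rw [U_cons]
  change EP H L z F ≤ _
  have hL : EP H L z F = F [z] ∨ ∃ M, L = M + 1 ∧
      EP H L z F = (1 / 20) * ∑ c : Fin 4 × Fin 5, EP H M (stp z c) (fun p => F (z :: p)) := by
    cases L with
    | zero => left; rfl
    | succ M =>
      by_cases hz : H < z.length
      · left; simp only [EP, if_pos hz]
      · right; exact ⟨M, rfl, by simp only [EP, if_neg hz]⟩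
  rcases hL with h | ⟨M, hM, h⟩
  · rw [h]; linarith
  · rw [h]
    have h3 : ∀ c : Fin 4 × Fin 5, EP H M (stp z c) (fun p => F (z :: p)) ≤
        (if z = [] then 1 else 0) + U H L (stp z c ::ₘ x) Z := by
      intro c
      refine (EP_mono _ _ hFz).trans ?_
      rw [EP_add, EP_const]
      have h4 := EP_ext (H := H) M (stp z c) F hFm
      rw [U_cons]
      change _ ≤ _ + EP H L (stp z c) F
      rw [hM]
      linarith
    calc (1 / 20 : ℝ) * ∑ c : Fin 4 × Fin 5, EP H M (stp z c) (fun p => F (z :: p))
        ≤ (1 / 20 : ℝ) * ∑ c : Fin 4 × Fin 5, ((if z = [] then 1 else 0) +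
            U H L (stp z c ::ₘ x) Z) :=
          mul_le_mul_of_nonneg_left (Finset.sum_le_sum fun c _ => h3 c) (by norm_num)
      _ = _ := by
          rw [Finset.sum_add_distrib, mul_add]
          congr 1
          simp

/-- One step of a frog which is not at the root. -/
theorem U_step_child (i : Fin 4) (z : V) (x : Multiset V) (Z : Finset V) (hZ : i :: z ∉ Z) :
    U H L ((i :: z) ::ₘ x) Z ≤ (1 / 5) * U H L (z ::ₘ x) Z +
      (1 / 5) * ∑ j : Fin 4, U H L ((j :: i :: z) ::ₘ x) Z := by
  refine (U_step (i :: z) x Z hZ).trans (le_of_eq ?_)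
  rw [if_neg (by simp), zero_add, Fintype.sum_prod_type]
  simp only [stp, if_neg (List.cons_ne_nil i z)]
  simp only [Fin.sum_univ_succ, Fin.sum_univ_zero]
  simp
  ring

/-- One step of a frog at the root. -/
theorem U_step_root (x : Multiset V) (Z : Finset V) (hZ : [] ∉ Z) :
    U H L ([] ::ₘ x) Z ≤ 1 + (1 / 4) * ∑ j : Fin 4, U H L ([j] ::ₘ x) Z := by
  refine (U_step [] x Z hZ).trans (le_of_eq ?_)
  rw [if_pos rfl, Fintype.sum_prod_type]
  simp only [stp, if_pos]
  simp only [Finset.sum_const, Finset.card_univ, Fintype.card_fin, nsmul_eq_mul]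
  rw [← Finset.mul_sum]
  push_cast
  ring

end Pool.Agent.U874.FT
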