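import Pool.Agent.U874.FT.A2

/-!
# Automorphisms of the tree and patterns of sleeping frogs
-/

set_option autoImplicit false

open Finset

namespace Pool.Agent.U874.FT

variable {H L : ℕ}

/-- The automorphism with the permutation `τ z` of the children of `z`. -/
def am (τ : V → Equiv.Perm (Fin 4)) : V → V
  | [] => []
  | i :: z => τ z i :: am τ z

theorem am_length (τ : V → Equiv.Perm (Fin 4)) (z : V) : (am τ z).length = z.length := by
  induction z with
  | nil => rfl
  | cons i z ih => simp [am, ih]

theorem am_inj (τ : V → Equiv.Perm (Fin 4)) : Function.Injective (am τ) := by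
  intro z
  induction z with
  | nil =>
    intro y h
    have := congrArg List.length h
    rw [am_length, am_length] at this
    exact (List.length_eq_zero_iff.mp this.symm).symm
  | cons i z ih =>
    intro y h
    cases y with
    | nil =>
      have := congrArg List.length h
      rw [am_length, am_length] at this
      simp at this
    | cons j y =>
      simp only [am, List.cons.injEq] at h
      have h2 := ih h.2
      subst h2
      rw [(τ z).injective h.1]

/-- The automorphism as an embedding. -/
def amE (τ : V → Equiv.Perm (Fin 4)) : V ↪ V := ⟨am τ, am_inj τ⟩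

theorem EP_am (τ : V → Equiv.Perm (Fin 4)) : ∀ (L : ℕ) (z : V) (φ : List V → ℝ),
    EP H L (am τ z) φ = EP H L z (fun p => φ (p.map (am τ))) := by
  intro L
  induction L with
  | zero => intro z φ; rfl
  | succ L ih =>
    intro z φ
    simp only [EP, am_length]
    split_ifs
    · rfl
    · congr 1
      rw [← Equiv.sum_comp (Equiv.prodCongr (τ z) (Equiv.refl (Fin 5)))]
      refine Finset.sum_congr rfl fun c _ => ?_
      have : stp (am τ z) ((Equiv.prodCongr (τ z) (Equiv.refl (Fin 5))) c) = am τ (stp z c) := by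
        cases z with
        | nil => simp [stp, am]
        | cons i z =>
          by_cases hc : c.2 = 0
          · simp [stp, am, hc]
          · simp [stp, am, hc]
      rw [this, ih]
      rfl

theorem U_am (τ : V → Equiv.Perm (Fin 4)) (x : Multiset V) (Z : Finset V) :
    U H L (x.map (am τ)) (Z.map (amE τ)) = U H L x Z := by
  revert x Z
  refine U_ind (fun Z => by simp) fun z x Z ih => ?_
  rw [Multiset.map_cons, U_cons, U_cons, EP_am]
  refine EP_congr _ _ fun p => ?_
  have hm : ∀ v : V, am τ v ∈ p.map (am τ) ↔ v ∈ p := by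
    intro v
    rw [List.mem_map]
    constructor
    · rintro ⟨w, hw, h⟩
      rwa [← am_inj τ h]
    · intro h; exact ⟨v, h, rfl⟩
  have e0 : rt (p.map (am τ)) = rt p := by
    unfold rt
    congr 1
    have : List.count (am τ []) (p.map (am τ)) = List.count [] p :=
      List.count_map_of_injective p (am τ) (am_inj τ) []
    exact this
  have e1 : (Z.map (amE τ)).filter (· ∈ p.map (am τ)) = (Z.filter (· ∈ p)).map (amE τ) := by
    rw [Finset.filter_map]
    congr 1
    apply Finset.filter_congr
    intro v _
    exact hm v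
  have e2 : (Z.map (amE τ)).filter (· ∉ p.map (am τ)) = (Z.filter (· ∉ p)).map (amE τ) := by
    rw [Finset.filter_map]
    congr 1
    apply Finset.filter_congr
    intro v _
    exact not_congr (hm v)
  rw [e0, e1, e2, Finset.map_val]
  have := ih ((Z.filter (· ∈ p)).val + x) (Z.filter (· ∉ p)) (card_split' x Z p)
  rw [Multiset.map_add] at this
  rw [← this]
  rfl

/-- The permutation `e` of the children of `v`. -/
def swp (v : V) (e : Equiv.Perm (Fin 4)) : V → Equiv.Perm (Fin 4) :=
  fun z => if z = v then e else 1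

theorem am_swp_out (v : V) (e : Equiv.Perm (Fin 4)) : ∀ z : V, (∀ i, ¬ (i :: v) <:+ z) →
    am (swp v e) z = z := by
  intro z
  induction z with
  | nil => intro _; rfl
  | cons j z ih =>
    intro h
    have hz : z ≠ v := by
      rintro rfl
      exact h j List.suffix_rfl
    have h2 := ih fun i hi => h i (hi.trans (List.suffix_cons j z))
    simp only [am, h2, swp, if_neg hz, Equiv.Perm.coe_one, id]

theorem am_swp_in (v : V) (e : Equiv.Perm (Fin 4)) (i : Fin 4) : ∀ w : V,
    am (swp v e) (w ++ i :: v) = w ++ e i :: v := by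
  intro w
  induction w with
  | nil =>
    simp only [List.nil_append, am, swp, if_pos]
    congr 1
    exact am_swp_out v e v fun j hj => by
      have := hj.length_le
      simp at this
  | cons j w ih =>
    have hz : w ++ i :: v ≠ v := by
      intro h
      have := congrArg List.length h
      rw [List.length_append, List.length_cons] at this
      omega
    simp only [List.cons_append, am]
    rw [ih]
    simp [swp, hz]

/-! ## Patterns -/

/-- The vertex `w` below `v`. -/
def below (v : V) : V ↪ V := ⟨fun w => w ++ v, fun _ _ h => List.append_cancel_right h⟩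

theorem below_apply (v w : V) : below v w = w ++ v := rfl

/-- The sleeping frogs of `h` generations of a subtree of type `t` (words relative to its top),
`ch t i` being the type of the subtree of child number `i`, type `0` the untouched subtree. -/
def rel (ch : ℕ → Fin 4 → ℕ) : ℕ → ℕ → Finset V
  | 0, _ => ∅
  | h + 1, t => (if t = 0 then {[]} else ∅) ∪
      Finset.univ.biUnion fun i => (rel ch h (ch t i)).map (below [i])

/-- The sleeping frogs below `v`, the subtrees of its children having the types `σ i`. -/
def pc (ch : ℕ → Fin 4 → ℕ) (h : ℕ) (σ : Fin 4 → ℕ) (v : V) : Finset V :=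
  Finset.univ.biUnion fun i => (rel ch h (σ i)).map (below (i :: v))

/-- The sleeping frogs of the subtree of `v`. -/
def pat (ch : ℕ → Fin 4 → ℕ) (h t : ℕ) (v : V) : Finset V := (rel ch h t).map (below v)

variable {ch : ℕ → Fin 4 → ℕ}

theorem mem_pat {h t : ℕ} {v z : V} : z ∈ pat ch h t v ↔ ∃ w ∈ rel ch h t, w ++ v = z := by
  simp [pat, below_apply]

theorem mem_pc {h : ℕ} {σ : Fin 4 → ℕ} {v z : V} :
    z ∈ pc ch h σ v ↔ ∃ i, z ∈ pat ch h (σ i) (i :: v) := by
  simp [pc, pat]

theorem pat_suffix {h t : ℕ} {v z : V} (hz : z ∈ pat ch h t v) : v <:+ z := by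
  obtain ⟨w, _, rfl⟩ := mem_pat.mp hz
  exact List.suffix_append w v

theorem pat_length {h t : ℕ} : ∀ {v z : V}, z ∈ pat ch h t v → z.length < v.length + h := by
  induction h generalizing t with
  | zero => intro v z hz; simp [pat, rel] at hz
  | succ h ih =>
    intro v z hz
    obtain ⟨w, hw, rfl⟩ := mem_pat.mp hz
    rw [rel, Finset.mem_union, Finset.mem_biUnion] at hw
    rcases hw with hw | ⟨i, _, hi⟩
    · split_ifs at hw
      · rw [Finset.mem_singleton] at hw
        subst hw; simp
      · simp at hw
    · rw [Finset.mem_map] at hi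
      obtain ⟨w', hw', h2⟩ := hi
      have h3 : w' ++ [i] ∈ pat ch h (ch t i) [i] := mem_pat.mpr ⟨w', hw', rfl⟩
      have h4 := ih h3
      rw [← h2]
      simp only [below_apply, List.length_append, List.length_cons,
        List.length_nil] at *
      omega

theorem pat_succ (h t : ℕ) (v : V) : pat ch (h + 1) t v =
    (if t = 0 then {v} else ∅) ∪ pc ch h (ch t) v := by
  ext z
  rw [mem_pat, Finset.mem_union, mem_pc]
  constructor
  · rintro ⟨w, hw, rfl⟩
    rw [rel, Finset.mem_union, Finset.mem_biUnion] at hw
    rcases hw with hw | ⟨i, _, hi⟩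
    · left
      split_ifs at hw with ht
      · rw [Finset.mem_singleton] at hw
        subst hw; simp [ht]
      · simp at hw
    · right
      rw [Finset.mem_map] at hi
      obtain ⟨w', hw', rfl⟩ := hi
      exact ⟨i, mem_pat.mpr ⟨w', hw', by simp [below_apply]⟩⟩
  · rintro (hz | ⟨i, hi⟩)
    · split_ifs at hz with ht
      · rw [Finset.mem_singleton] at hz
        subst hz
        exact ⟨[], by simp [rel, ht], rfl⟩
      · simp at hz
    · obtain ⟨w, hw, rfl⟩ := mem_pat.mp hi
      refine ⟨w ++ [i], ?_, by simp⟩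
      rw [rel, Finset.mem_union, Finset.mem_biUnion]
      right
      exact ⟨i, Finset.mem_univ _, Finset.mem_map.mpr ⟨w, hw, rfl⟩⟩

theorem pat_swp (h t : ℕ) (v : V) (e : Equiv.Perm (Fin 4)) (i : Fin 4) :
    (pat ch h t (i :: v)).map (amE (swp v e)) = pat ch h t (e i :: v) := by
  ext z
  rw [Finset.mem_map, mem_pat]
  constructor
  · rintro ⟨y, hy, rfl⟩
    obtain ⟨w, hw, rfl⟩ := mem_pat.mp hy
    exact ⟨w, hw, (am_swp_in v e i w).symm⟩
  · rintro ⟨w, hw, rfl⟩
    exact ⟨w ++ i :: v, mem_pat.mpr ⟨w, hw, rfl⟩, am_swp_in v e i w⟩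

/-- Nothing of `x` and `Z` is below the children of `v`. -/
def Out (v : V) (x : Multiset V) (Z : Finset V) : Prop :=
  (∀ z ∈ x, ¬ ∃ i, (i :: v) <:+ z) ∧ ∀ z ∈ Z, ¬ ∃ i, (i :: v) <:+ z

/-- The types of the children can be permuted. -/
theorem U_pc_perm (h : ℕ) (σ : Fin 4 → ℕ) (v : V) (e : Equiv.Perm (Fin 4)) (x : Multiset V)
    (Z : Finset V) (ho : Out v x Z) :
    U H L x (Z ∪ pc ch h (σ ∘ e) v) = U H L x (Z ∪ pc ch h σ v) := by
  rw [← U_am (swp v e) x (Z ∪ pc ch h (σ ∘ e) v)]
  have e1 : x.map (am (swp v e)) = x := by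
    conv_rhs => rw [← Multiset.map_id x]
    refine Multiset.map_congr rfl fun z hz => ?_
    exact am_swp_out v e z fun i hi => ho.1 z hz ⟨i, hi⟩
  have e2 : (Z ∪ pc ch h (σ ∘ e) v).map (amE (swp v e)) = Z ∪ pc ch h σ v := by
    rw [Finset.map_union]
    congr 1
    · ext z
      rw [Finset.mem_map]
      constructor
      · rintro ⟨y, hy, rfl⟩
        change am _ y ∈ Z
        rw [am_swp_out v e y fun i hi => ho.2 y hy ⟨i, hi⟩]
        exact hy
      · intro hz
        exact ⟨z, hz, am_swp_out v e z fun i hi => ho.2 z hz ⟨i, hi⟩⟩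
    · ext z
      rw [Finset.mem_map, mem_pc]
      constructor
      · rintro ⟨y, hy, rfl⟩
        obtain ⟨i, hi⟩ := mem_pc.mp hy
        refine ⟨e i, ?_⟩
        rw [← pat_swp h (σ (e i)) v e i, Finset.mem_map]
        exact ⟨y, hi, rfl⟩
      · rintro ⟨j, hj⟩
        obtain ⟨i, rfl⟩ := e.surjective j
        rw [← pat_swp h (σ (e i)) v e i, Finset.mem_map] at hj
        obtain ⟨y, hy, hyz⟩ := hj
        exact ⟨y, mem_pc.mpr ⟨i, hy⟩, hyz⟩
  rw [e1, e2]

/-- Inclusion of patterns. -/
theorem rel_sub (le : ℕ → ℕ → Prop)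
    (hle : ∀ a b, le a b → a = 0 ∨ a = b ∨ (b ≠ 0 ∧ ∀ i, le (ch a i) (ch b i)))
    (hb : ∀ i, ch 0 i = 0) (h0 : ∀ b, le 0 b) :
    ∀ (h a b : ℕ), le a b → rel ch h b ⊆ rel ch h a := by
  intro h
  induction h with
  | zero => intro a b _; simp [rel]
  | succ h ih =>
    intro a b hab
    have key : ∀ a b : ℕ, (∀ i, le (ch a i) (ch b i)) →
        (Finset.univ.biUnion fun i => (rel ch h (ch b i)).map (below [i])) ⊆
          Finset.univ.biUnion fun i => (rel ch h (ch a i)).map (below [i]) := by
      intro a b hi
      refine Finset.biUnion_subset.mpr fun i _ => ?_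
      refine Finset.Subset.trans (Finset.map_subset_map.mpr (ih _ _ (hi i))) ?_
      exact Finset.subset_biUnion_of_mem (fun i => (rel ch h (ch a i)).map (below [i]))
        (Finset.mem_univ i)
    rcases hle a b hab with h1 | h1 | ⟨h1, h2⟩
    · subst h1
      rw [rel, rel, if_pos rfl]
      refine Finset.union_subset_union ?_ (key 0 b fun i => by rw [hb]; exact h0 _)
      split_ifs <;> simp
    · subst h1; exact Finset.Subset.refl _
    · rw [rel, rel, if_neg h1]
      refine Finset.union_subset ?_ ?_
      · simp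
      · exact Finset.Subset.trans (key a b h2) Finset.subset_union_right

end Pool.Agent.U874.FT
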