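import Mathlib

/-!
# A maximum principle and the comparison step
-/

set_option autoImplicit false

open Finset Filter Topology

namespace Pool.Agent.U874.FT

/-- Configuration with types less than `T`. -/
def Val (T : ℕ) (σ : Fin 4 → ℕ) : Prop := ∀ i, σ i < T

theorem Val.upd {T : ℕ} {σ : Fin 4 → ℕ} (h : Val T σ) (i : Fin 4) {t : ℕ} (ht : t < T) :
    Val T (Function.update σ i t) := by
  intro j
  by_cases hj : j = i
  · subst hj; simpa using ht
  · rw [Function.update_of_ne hj]; exact h j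

theorem Val.comp {T : ℕ} {σ : Fin 4 → ℕ} (h : Val T σ) (e : Equiv.Perm (Fin 4)) :
    Val T (σ ∘ e) := fun i => h (e i)

/-- The sum over the answers of the children. -/
noncomputable def KS (I : Finset ℕ) (K : ℕ → ℕ → ℕ → ℝ) (σ : Fin 4 → ℕ)
    (F : ℕ → (Fin 4 → ℕ) → ℝ) : ℝ :=
  ∑ i : Fin 4, ∑ t ∈ I, ∑ m ∈ range 3, K (σ i) m t * F m (Function.update σ i t)

theorem KS_mono {I : Finset ℕ} {K : ℕ → ℕ → ℕ → ℝ} (hK : ∀ s m t, 0 ≤ K s m t) (σ : Fin 4 → ℕ)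
    {F F' : ℕ → (Fin 4 → ℕ) → ℝ}
    (h : ∀ m ∈ range 3, ∀ i, ∀ t ∈ I, K (σ i) m t ≠ 0 →
      F m (Function.update σ i t) ≤ F' m (Function.update σ i t)) :
    KS I K σ F ≤ KS I K σ F' := by
  unfold KS
  refine Finset.sum_le_sum fun i _ => Finset.sum_le_sum fun t ht => Finset.sum_le_sum fun m hm => ?_
  by_cases h0 : K (σ i) m t = 0
  · rw [h0, zero_mul, zero_mul]
  · exact mul_le_mul_of_nonneg_left (h m hm i t ht h0) (hK _ _ _)

theorem KS_add (I : Finset ℕ) (K : ℕ → ℕ → ℕ → ℝ) (σ : Fin 4 → ℕ)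
    (F F' : ℕ → (Fin 4 → ℕ) → ℝ) :
    KS I K σ (fun m τ => F m τ + F' m τ) = KS I K σ F + KS I K σ F' := by
  unfold KS
  simp only [mul_add, Finset.sum_add_distrib]

theorem KS_mul (I : Finset ℕ) (K : ℕ → ℕ → ℕ → ℝ) (σ : Fin 4 → ℕ)
    (F : ℕ → (Fin 4 → ℕ) → ℝ) (c : ℝ) :
    KS I K σ (fun m τ => c * F m τ) = c * KS I K σ F := by
  unfold KS
  simp only [Finset.mul_sum]
  refine Finset.sum_congr rfl fun i _ => Finset.sum_congr rfl fun t _ =>
    Finset.sum_congr rfl fun m _ => by ring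

theorem KS_sum (I : Finset ℕ) (K : ℕ → ℕ → ℕ → ℝ) (σ : Fin 4 → ℕ) (J : Finset ℕ)
    (F : ℕ → ℕ → (Fin 4 → ℕ) → ℝ) :
    KS I K σ (fun m τ => ∑ j ∈ J, F j m τ) = ∑ j ∈ J, KS I K σ (F j) := by
  classical
  induction J using Finset.induction_on with
  | empty => simp [KS]
  | insert a J ha ih =>
    simp only [Finset.sum_insert ha]
    rw [KS_add, ih]

/-- Maximum principle. -/
theorem maxp {T M : ℕ} {I : Finset ℕ} (hI : ∀ t ∈ I, t < T) {K : ℕ → ℕ → ℕ → ℕ → ℝ}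
    (hK : ∀ n s m t, 0 ≤ K n s m t)
    (hKM : ∀ n s m t, 1 ≤ n → n ≤ M → K n s m t ≠ 0 → n - 1 + m ≤ M)
    {D : ℕ → ℕ → (Fin 4 → ℕ) → ℝ}
    (hsym : ∀ n N σ (e : Equiv.Perm (Fin 4)), D n N (σ ∘ e) = D n N σ)
    (hD : ∀ n N σ, Val T σ → Monotone σ → 1 ≤ n → n ≤ M →
      D n N σ ≤ (1 / 5) * D (n - 1) (N + 1) σ +
        (1 / 5) * KS I (K n) σ (fun m τ => D (n - 1 + m) N τ))
    (h0 : ∀ N σ, Val T σ → D 0 N σ ≤ 0)
    {C θ η κ E : ℝ} (hC : 0 ≤ C) (hθ : 0 < θ) (hη : 0 < η) (hκ0 : 0 ≤ κ) (hκ : κ < 1)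
    (hgr : ∀ n N σ, n ≤ M → Val T σ → D n N σ ≤ C * (θ ^ n * η ^ N))
    (hE : ∀ n s, 1 ≤ n → n ≤ M → s < T →
      ∑ t ∈ I, ∑ m ∈ range 3, K n s m t * θ ^ m ≤ E)
    (hκE : (1 / 5) * η + (4 / 5) * E ≤ κ * θ) :
    ∀ n N σ, n ≤ M → Val T σ → D n N σ ≤ 0 := by
  have claim : ∀ k : ℕ, ∀ n N σ, n ≤ M → Val T σ → D n N σ ≤ C * κ ^ k * (θ ^ n * η ^ N) := by
    intro k
    induction k with
    | zero => intro n N σ hn hσ; simpa using hgr n N σ hn hσ
    | succ k ih =>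
      intro n N σ hn hσ
      rcases Nat.eq_zero_or_pos n with h | hpos
      · subst h
        exact (h0 N σ hσ).trans (by positivity)
      -- sort
      have key : ∀ σ, Val T σ → Monotone σ → D n N σ ≤ C * κ ^ (k + 1) * (θ ^ n * η ^ N) := by
        intro σ hσ hm
        obtain ⟨n, rfl⟩ : ∃ n', n = n' + 1 := ⟨n - 1, by omega⟩
        refine (hD _ N σ hσ hm hpos hn).trans ?_
        rw [Nat.add_sub_cancel]
        have h1 := ih n (N + 1) σ (by omega) hσ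
        have h2 : KS I (K (n + 1)) σ (fun m τ => D (n + m) N τ) ≤
            KS I (K (n + 1)) σ (fun m _ => (C * κ ^ k * (θ ^ n * η ^ N)) * θ ^ m) := by
          refine KS_mono (hK (n + 1)) σ fun m hm i t ht hne => ?_
          have := hKM (n + 1) (σ i) m t (by omega) hn hne
          rw [Nat.add_sub_cancel] at this
          refine (ih (n + m) N _ this (hσ.upd i (hI t ht))).trans (le_of_eq ?_)
          rw [pow_add]; ring
        have h3 : KS I (K (n + 1)) σ (fun m _ => (C * κ ^ k * (θ ^ n * η ^ N)) * θ ^ m) ≤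
            (C * κ ^ k * (θ ^ n * η ^ N)) * (4 * E) := by
          rw [KS_mul]
          refine mul_le_mul_of_nonneg_left ?_ (by positivity)
          unfold KS
          calc ∑ i : Fin 4, ∑ t ∈ I, ∑ m ∈ range 3, K (n + 1) (σ i) m t * θ ^ m
              ≤ ∑ i : Fin 4, E := Finset.sum_le_sum fun i _ => hE _ _ hpos hn (hσ i)
            _ = 4 * E := by simp
        have h4 : C * κ ^ k * (θ ^ n * η ^ (N + 1)) = (C * κ ^ k * (θ ^ n * η ^ N)) * η := by
          rw [pow_succ]; ring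
        have h5 : C * κ ^ (k + 1) * (θ ^ (n + 1) * η ^ N) =
            (C * κ ^ k * (θ ^ n * η ^ N)) * (κ * θ) := by
          rw [pow_succ, pow_succ]; ring
        have h6 : 0 ≤ C * κ ^ k * (θ ^ n * η ^ N) := by positivity
        rw [h5]
        rw [h4] at h1
        have h7 := mul_le_mul_of_nonneg_left hκE h6
        linarith [h2.trans h3]
      rw [← hsym n N σ (Tuple.sort σ)]
      exact key _ (hσ.comp _) (Tuple.monotone_sort σ)
  intro n N σ hn hσ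
  have ht : Tendsto (fun k : ℕ => C * κ ^ k * (θ ^ n * η ^ N)) atTop
      (𝓝 (C * 0 * (θ ^ n * η ^ N))) :=
    ((tendsto_pow_atTop_nhds_zero_of_lt_one hκ0 hκ).const_mul C).mul_const _
  have := ge_of_tendsto' ht fun k => claim k n N σ hn hσ
  simpa using this

/-- Comparison of two combinations. -/
theorem lin_cmp {I : Finset ℕ} (h1 : 1 ∈ I) {a b P X g d : ℕ → ℝ}
    (hsum : ∑ t ∈ I, a t = ∑ t ∈ I, P t) (hP : ∀ t ∈ I, t ≠ 1 → P t ≤ a t)
    (hX : ∀ t ∈ I, b t ≤ X t) (hg : ∀ t ∈ I, g t ≤ g 1) (hd : ∀ t ∈ I, 0 ≤ d t) :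
    ∑ t ∈ I, (a t * g t + b t * d t) ≤ ∑ t ∈ I, (P t * g t + X t * d t) := by
  have e : ∑ t ∈ I, (P t * g t + X t * d t) - ∑ t ∈ I, (a t * g t + b t * d t) =
      ∑ t ∈ I, ((a t - P t) * (g 1 - g t) + (X t - b t) * d t) +
        (∑ t ∈ I, P t - ∑ t ∈ I, a t) * g 1 := by
    rw [← Finset.sum_sub_distrib, ← Finset.sum_sub_distrib, Finset.sum_mul,
      ← Finset.sum_add_distrib]
    refine Finset.sum_congr rfl fun t _ => by ring
  rw [hsum, sub_self, zero_mul, add_zero] at e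
  have h : 0 ≤ ∑ t ∈ I, ((a t - P t) * (g 1 - g t) + (X t - b t) * d t) := by
    refine Finset.sum_nonneg fun t ht => add_nonneg ?_ ?_
    · by_cases ht1 : t = 1
      · subst ht1; simp
      · exact mul_nonneg (sub_nonneg.mpr (hP t ht ht1)) (sub_nonneg.mpr (hg t ht))
    · exact mul_nonneg (sub_nonneg.mpr (hX t ht)) (hd t ht)
  linarith

end Pool.Agent.U874.FT
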