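import Pool.Agent.U874.FT.A4

/-!
# The comparison theorem
-/

set_option autoImplicit false

open Finset Filter Topology

namespace Pool.Agent.U874.FT

/-- Comparison of two combinations with base type `b`. -/
theorem lin_cmp3 {I : Finset ℕ} (b : ℕ) {a a1 a2 P Y W g d e : ℕ → ℝ}
    (hsum : ∑ t ∈ I, a t = ∑ t ∈ I, P t)
    (hP : ∀ t ∈ I, t = b ∨ (P t ≤ a t ∧ (g t ≤ g b ∨ a t = P t)))
    (hY : ∀ t ∈ I, a1 t ≤ Y t) (hW : ∀ t ∈ I, a2 t ≤ W t)
    (hd : ∀ t ∈ I, 0 ≤ d t) (he : ∀ t ∈ I, 0 ≤ e t) :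
    ∑ t ∈ I, (a t * g t + (a1 t * d t + a2 t * e t)) ≤
      ∑ t ∈ I, (P t * g t + (Y t * d t + W t * e t)) := by
  have h1 : ∑ t ∈ I, (P t * g t + (Y t * d t + W t * e t)) -
      ∑ t ∈ I, (a t * g t + (a1 t * d t + a2 t * e t)) =
      ∑ t ∈ I, ((a t - P t) * (g b - g t) + (Y t - a1 t) * d t + (W t - a2 t) * e t) +
        (∑ t ∈ I, P t - ∑ t ∈ I, a t) * g b := by
    rw [← Finset.sum_sub_distrib, ← Finset.sum_sub_distrib, Finset.sum_mul,
      ← Finset.sum_add_distrib]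
    refine Finset.sum_congr rfl fun t _ => by ring
  rw [hsum, sub_self, zero_mul, add_zero] at h1
  have h : 0 ≤ ∑ t ∈ I, ((a t - P t) * (g b - g t) + (Y t - a1 t) * d t +
      (W t - a2 t) * e t) := by
    refine Finset.sum_nonneg fun t ht => add_nonneg (add_nonneg ?_ ?_) ?_
    · rcases hP t ht with h | ⟨h, h' | h'⟩
      · subst h; simp
      · exact mul_nonneg (sub_nonneg.mpr h) (sub_nonneg.mpr h')
      · rw [h']; simp
    · exact mul_nonneg (sub_nonneg.mpr (hY t ht)) (hd t ht)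
    · exact mul_nonneg (sub_nonneg.mpr (hW t ht)) (he t ht)
  linarith

/-- The certificate. -/
structure Cert (T : ℕ) (I : Finset ℕ) (ch : ℕ → Fin 4 → ℕ) (le : ℕ → ℕ → Prop)
    (q kc fl : ℕ → ℕ → ℕ → ℝ) (pr b : (Fin 4 → ℕ) → ℕ) (β : ℕ → ℕ)
    (P X Y W : ℕ → (Fin 4 → ℕ) → ℕ → ℝ) (E : ℝ) : Prop where
  hI : ∀ t ∈ I, t < T
  hI0 : ∀ t ∈ I, t ≠ 0
  chT : ∀ s < T, Val T (ch s)
  q0 : ∀ s m t, 0 ≤ q s m t
  k0 : ∀ s m t, 0 ≤ kc s m t
  q3 : ∀ s m t, 3 ≤ m → q s m t = 0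
  k2 : ∀ s m t, 2 ≤ m → kc s m t = 0
  qs : ∀ s < T, ∑ t ∈ I, ∑ m ∈ range 3, q s m t = 1
  ks : ∀ s < T, ∑ t ∈ I, ∑ m ∈ range 3, kc s m t = 1
  f0 : ∀ s t u, 0 ≤ fl s t u
  fle : ∀ s t u, fl s t u ≠ 0 → le t u
  kf0 : ∀ s < T, ∀ t ∈ I, kc s 0 t = q s 0 t - q s 2 t + ∑ u ∈ I, fl s t u - ∑ u ∈ I, fl s u t
  kf1 : ∀ s < T, ∀ t ∈ I, kc s 1 t = q s 1 t + 2 * q s 2 t
  qE : ∀ s < T, ∑ t ∈ I, ∑ m ∈ range 3, q s m t * (6 / 5 : ℝ) ^ m ≤ E
  kE : ∀ s < T, ∑ t ∈ I, ∑ m ∈ range 3, kc s m t * (6 / 5 : ℝ) ^ m ≤ E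
  hE : (1 / 5) * (11 / 10) + (4 / 5) * E ≤ (99 / 100) * (6 / 5)
  prI : ∀ σ, Val T σ → pr σ ∈ I
  prle : ∀ σ, Val T σ → ∃ e : Equiv.Perm (Fin 4), ∀ i, le (ch (pr σ) i) (σ (e i))
  P0 : ∀ n σ t, 0 ≤ P n σ t
  X0 : ∀ n σ t, 0 ≤ X n σ t
  Y0 : ∀ n σ t, 0 ≤ Y n σ t
  W0 : ∀ n σ t, 0 ≤ W n σ t
  Pz : ∀ σ t, P 0 σ t = if t = pr σ then 1 else 0
  Xz : ∀ σ t, X 0 σ t = 0
  Yz : ∀ σ t, Y 0 σ t = 0
  Wz : ∀ σ t, W 0 σ t = 0
  Ps : ∀ n σ, Val T σ → n ≤ 3 → ∑ t ∈ I, P n σ t = 1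
  sP : ∀ n σ (e : Equiv.Perm (Fin 4)), P n (σ ∘ e) = P n σ
  sX : ∀ n σ (e : Equiv.Perm (Fin 4)), X n (σ ∘ e) = X n σ
  sY : ∀ n σ (e : Equiv.Perm (Fin 4)), Y n (σ ∘ e) = Y n σ
  sW : ∀ n σ (e : Equiv.Perm (Fin 4)), W n (σ ∘ e) = W n σ
  iP : ∀ n σ, Val T σ → Monotone σ → 1 ≤ n → n ≤ 3 → ∀ t ∈ I, t = b σ ∨
    (P n σ t ≤ (1 / 5) * P (n - 1) σ t +
      (1 / 5) * KS I (if n = 3 then kc else q) σ (fun m τ => P (n - 1 + m) τ t) ∧
      ((b σ ≠ 0 ∧ le (b σ) t) ∨ (1 / 5) * P (n - 1) σ t +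
        (1 / 5) * KS I (if n = 3 then kc else q) σ (fun m τ => P (n - 1 + m) τ t) = P n σ t))
  iX : ∀ n σ, Val T σ → Monotone σ → 1 ≤ n → n ≤ 3 → ∀ t ∈ I,
    (1 / 5) * (P (n - 1) σ t + X (n - 1) σ t) +
      (1 / 5) * KS I (if n = 3 then kc else q) σ (fun m τ => X (n - 1 + m) τ t) ≤ X n σ t
  iY : ∀ n σ, Val T σ → Monotone σ → 1 ≤ n → n ≤ 3 → ∀ t ∈ I,
    (1 / 5) * P (n - 1) σ t +
      (1 / 5) * KS I (if n = 3 then kc else q) σ (fun m τ => Y (n - 1 + m) τ t) ≤ Y n σ t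
  iW : ∀ n σ, Val T σ → Monotone σ → 1 ≤ n → n ≤ 3 → ∀ t ∈ I,
    (1 / 5) * X (n - 1) σ t +
      (1 / 5) * KS I (if n = 3 then kc else q) σ (fun m τ => W (n - 1 + m) τ t) ≤ W n σ t
  fP : ∀ s < T, ∀ t ∈ I, t = β s ∨
    (q s 0 t + q s 1 t + q s 2 t ≤ P (if s = 0 then 2 else 1) (ch s) t ∧
      ((β s ≠ 0 ∧ le (β s) t) ∨
        P (if s = 0 then 2 else 1) (ch s) t = q s 0 t + q s 1 t + q s 2 t))
  fY : ∀ s < T, ∀ t ∈ I, Y (if s = 0 then 2 else 1) (ch s) t ≤ q s 1 t + q s 2 t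
  fW : ∀ s < T, ∀ t ∈ I, W (if s = 0 then 2 else 1) (ch s) t ≤ q s 2 t

/-- Properties of the number of visits. -/
structure Gp (T : ℕ) (I : Finset ℕ) (ch : ℕ → Fin 4 → ℕ) (le : ℕ → ℕ → Prop)
    (q : ℕ → ℕ → ℕ → ℝ) (G : ℕ → ℕ → (Fin 4 → ℕ) → ℝ) : Prop where
  step : ∀ n N σ, Val T σ → G (n + 1) N σ ≤ (1 / 5) * G n (N + 1) σ +
    (1 / 5) * KS I q σ (fun m τ => G (n + m) N τ)
  sym : ∀ n N σ (e : Equiv.Perm (Fin 4)), G n N (σ ∘ e) = G n N σ
  conc : ∀ n N σ, G (n + 2) N σ + G n N σ ≤ 2 * G (n + 1) N σ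
  concN : ∀ N σ, G 0 (N + 2) σ + G 0 N σ ≤ 2 * G 0 (N + 1) σ
  mono : ∀ N σ, G 0 N σ ≤ G 0 (N + 1) σ
  nonneg : ∀ n N σ, 0 ≤ G n N σ
  ge : ∀ n N σ σ', (∀ i, le (σ i) (σ' i)) → G n N σ' ≤ G n N σ
  gle : ∀ N t t', t ≠ 0 → le t t' → G 0 N (ch t') ≤ G 0 N (ch t)
  gr : ∃ C : ℝ, 0 ≤ C ∧ ∀ n N σ, Val T σ → n ≤ 3 → G n N σ ≤
    C * ((6 / 5 : ℝ) ^ n * (11 / 10 : ℝ) ^ N)

/-- Linearity of the sum over the children. -/
theorem KS_lin (I : Finset ℕ) (K : ℕ → ℕ → ℕ → ℝ) (σ : Fin 4 → ℕ)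
    (P Y W : ℕ → (Fin 4 → ℕ) → ℕ → ℝ) (g d e : ℕ → ℝ) :
    KS I K σ (fun m τ => ∑ t ∈ I, (P m τ t * g t + (Y m τ t * d t + W m τ t * e t))) =
      ∑ t ∈ I, (KS I K σ (fun m τ => P m τ t) * g t +
        (KS I K σ (fun m τ => Y m τ t) * d t + KS I K σ (fun m τ => W m τ t) * e t)) := by
  rw [KS_sum I K σ I (fun t m τ => P m τ t * g t + (Y m τ t * d t + W m τ t * e t))]
  refine Finset.sum_congr rfl fun t _ => ?_
  have h1 : (fun m τ => P m τ t * g t + (Y m τ t * d t + W m τ t * e t)) =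
      (fun (m : ℕ) (τ : Fin 4 → ℕ) => g t * P m τ t + (d t * Y m τ t + e t * W m τ t)) := by
    funext m τ; ring
  rw [h1, KS_add I K σ (fun m τ => g t * P m τ t) (fun m τ => d t * Y m τ t + e t * W m τ t),
    KS_add I K σ (fun m τ => d t * Y m τ t) (fun m τ => e t * W m τ t),
    KS_mul I K σ (fun m τ => P m τ t), KS_mul I K σ (fun m τ => Y m τ t),
    KS_mul I K σ (fun m τ => W m τ t)]
  ring

section main

variable {T : ℕ} {I : Finset ℕ} {ch : ℕ → Fin 4 → ℕ} {le : ℕ → ℕ → Prop}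
    {q kc fl : ℕ → ℕ → ℕ → ℝ} {pr b : (Fin 4 → ℕ) → ℕ} {β : ℕ → ℕ}
    {P X Y W : ℕ → (Fin 4 → ℕ) → ℕ → ℝ} {E : ℝ} {G : ℕ → ℕ → (Fin 4 → ℕ) → ℝ}

/-- The step with at most three frogs. -/
theorem cap_step (hC : Cert T I ch le q kc fl pr b β P X Y W E) (hG : Gp T I ch le q G)
    (hrefl : ∀ t, le t t)
    (n N : ℕ) (hn : n ≤ 2) (σ : Fin 4 → ℕ) (hσ : Val T σ) :
    G (n + 1) N σ ≤ (1 / 5) * G n (N + 1) σ +
      (1 / 5) * KS I (if n + 1 = 3 then kc else q) σ (fun m τ => G (n + m) N τ) := by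
  refine (hG.step n N σ hσ).trans ?_
  split_ifs with h3
  · have hn2 : n = 2 := by omega
    subst hn2
    have key : KS I q σ (fun m τ => G (2 + m) N τ) ≤ KS I kc σ (fun m τ => G (2 + m) N τ) := by
      unfold KS
      refine Finset.sum_le_sum fun i _ => ?_
      have hs : σ i < T := hσ i
      have e1 : ∀ K : ℕ → ℕ → ℕ → ℝ,
          ∑ t ∈ I, ∑ m ∈ range 3, K (σ i) m t * G (2 + m) N (Function.update σ i t) =
          ∑ t ∈ I, (K (σ i) 0 t * G 2 N (Function.update σ i t) +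
            K (σ i) 1 t * G 3 N (Function.update σ i t) +
            K (σ i) 2 t * G 4 N (Function.update σ i t)) := by
        intro K
        refine Finset.sum_congr rfl fun t _ => ?_
        rw [Finset.sum_range_succ, Finset.sum_range_succ, Finset.sum_range_one]
      rw [e1, e1]
      have e2 : ∑ t ∈ I, (q (σ i) 0 t * G 2 N (Function.update σ i t) +
            q (σ i) 1 t * G 3 N (Function.update σ i t) +
            q (σ i) 2 t * G 4 N (Function.update σ i t)) ≤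
          ∑ t ∈ I, ((q (σ i) 0 t - q (σ i) 2 t) * G 2 N (Function.update σ i t) +
            (q (σ i) 1 t + 2 * q (σ i) 2 t) * G 3 N (Function.update σ i t)) := by
        refine Finset.sum_le_sum fun t _ => ?_
        have h1 := hG.conc 2 N (Function.update σ i t)
        have h2 := mul_le_mul_of_nonneg_left h1 (hC.q0 (σ i) 2 t)
        nlinarith [h2]
      refine e2.trans ?_
      have e3 : ∑ t ∈ I, (kc (σ i) 0 t * G 2 N (Function.update σ i t) +
            kc (σ i) 1 t * G 3 N (Function.update σ i t) +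
            kc (σ i) 2 t * G 4 N (Function.update σ i t)) =
          ∑ t ∈ I, ((q (σ i) 0 t - q (σ i) 2 t) * G 2 N (Function.update σ i t) +
            (q (σ i) 1 t + 2 * q (σ i) 2 t) * G 3 N (Function.update σ i t)) +
          (∑ t ∈ I, ∑ u ∈ I, fl (σ i) t u * G 2 N (Function.update σ i t) -
            ∑ t ∈ I, ∑ u ∈ I, fl (σ i) u t * G 2 N (Function.update σ i t)) := by
        rw [← Finset.sum_sub_distrib, ← Finset.sum_add_distrib]
        refine Finset.sum_congr rfl fun t ht => ?_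
        rw [hC.kf0 _ hs t ht, hC.kf1 _ hs t ht, hC.k2 _ 2 t le_rfl, ← Finset.sum_mul,
          ← Finset.sum_mul]
        ring
      rw [e3]
      have e4 : ∑ t ∈ I, ∑ u ∈ I, fl (σ i) u t * G 2 N (Function.update σ i t) ≤
          ∑ t ∈ I, ∑ u ∈ I, fl (σ i) t u * G 2 N (Function.update σ i t) := by
        rw [Finset.sum_comm]
        refine Finset.sum_le_sum fun u _ => Finset.sum_le_sum fun t _ => ?_
        by_cases h0 : fl (σ i) u t = 0
        · rw [h0, zero_mul, zero_mul]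
        · refine mul_le_mul_of_nonneg_left ?_ (hC.f0 _ _ _)
          refine hG.ge _ _ _ _ fun j => ?_
          by_cases hj : j = i
          · subst hj
            simpa using hC.fle _ _ _ h0
          · rw [Function.update_of_ne hj, Function.update_of_ne hj]
            exact hrefl _
      linarith
    have := mul_le_mul_of_nonneg_left key (by norm_num : (0 : ℝ) ≤ 1 / 5)
    linarith
  · exact le_rfl

/-- The comparison functional. -/
noncomputable def AA (I : Finset ℕ) (ch : ℕ → Fin 4 → ℕ) (P X Y W : ℕ → (Fin 4 → ℕ) → ℕ → ℝ)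
    (G : ℕ → ℕ → (Fin 4 → ℕ) → ℝ) (n : ℕ) : ℕ → (Fin 4 → ℕ) → ℝ
  | 0, σ => ∑ t ∈ I, (P n σ t * G 0 0 (ch t) + (Y n σ t * (G 0 1 (ch t) - G 0 0 (ch t)) +
      W n σ t * (G 0 2 (ch t) - G 0 1 (ch t))))
  | N + 1, σ => ∑ t ∈ I, (P n σ t * G 0 (N + 1) (ch t) +
      (X n σ t * (G 0 (N + 2) (ch t) - G 0 (N + 1) (ch t)) + 0 * 0))

theorem AA_sup (hC : Cert T I ch le q kc fl pr b β P X Y W E) (hG : Gp T I ch le q G)
    (n N : ℕ) (σ : Fin 4 → ℕ) (hσ : Val T σ) (hm : Monotone σ) (h1 : 1 ≤ n) (h3 : n ≤ 3) :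
    (1 / 5) * AA I ch P X Y W G (n - 1) (N + 1) σ +
      (1 / 5) * KS I (if n = 3 then kc else q) σ
        (fun m τ => AA I ch P X Y W G (n - 1 + m) N τ) ≤ AA I ch P X Y W G n N σ := by
  set K := if n = 3 then kc else q with hK
  have hK0 : ∀ s m t, 0 ≤ K s m t := by
    intro s m t
    rw [hK]; split_ifs
    · exact hC.k0 s m t
    · exact hC.q0 s m t
  have hKs : ∀ s < T, ∑ t ∈ I, ∑ m ∈ range 3, K s m t = 1 := by
    intro s hs
    rw [hK]; split_ifs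
    · exact hC.ks s hs
    · exact hC.qs s hs
  have hKm : ∀ i, ∀ t, ∀ m ∈ range 3, K (σ i) m t ≠ 0 → n - 1 + m ≤ 3 := by
    intro i t m hm hne
    rw [Finset.mem_range] at hm
    by_contra hcon
    have h33 : n = 3 := by omega
    rw [hK, if_pos h33] at hne
    exact hne (hC.k2 _ _ _ (by omega))
  have dn : ∀ N σ, 0 ≤ G 0 (N + 1) σ - G 0 N σ := fun N σ => sub_nonneg.mpr (hG.mono N σ)
  -- the sum of the coefficients
  have hsum : ∑ t ∈ I, ((1 / 5) * P (n - 1) σ t + (1 / 5) * KS I K σ (fun m τ => P (n - 1 + m) τ t))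
      = ∑ t ∈ I, P n σ t := by
    rw [Finset.sum_add_distrib, ← Finset.mul_sum, ← Finset.mul_sum,
      ← KS_sum I K σ I (fun t m τ => P (n - 1 + m) τ t), hC.Ps n σ hσ h3,
      hC.Ps (n - 1) σ hσ (by omega)]
    have : KS I K σ (fun m τ => ∑ t ∈ I, P (n - 1 + m) τ t) = 4 := by
      unfold KS
      have : ∀ i : Fin 4, ∑ t ∈ I, ∑ m ∈ range 3, K (σ i) m t *
          ∑ t' ∈ I, P (n - 1 + m) (Function.update σ i t) t' = 1 := by
        intro i
        rw [← hKs (σ i) (hσ i)]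
        refine Finset.sum_congr rfl fun t ht => Finset.sum_congr rfl fun m hm => ?_
        by_cases h0 : K (σ i) m t = 0
        · rw [h0, zero_mul]
        · rw [hC.Ps _ _ (hσ.upd i (hC.hI t ht)) (hKm i t m hm h0), mul_one]
      rw [Finset.sum_congr rfl fun i _ => this i]
      simp
    rw [this]; norm_num
  have hbase : ∀ N, ∀ t ∈ I, t = b σ ∨
      (P n σ t ≤ (1 / 5) * P (n - 1) σ t + (1 / 5) * KS I K σ (fun m τ => P (n - 1 + m) τ t) ∧
      (G 0 N (ch t) ≤ G 0 N (ch (b σ)) ∨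
        (1 / 5) * P (n - 1) σ t + (1 / 5) * KS I K σ (fun m τ => P (n - 1 + m) τ t) =
          P n σ t)) := by
    intro N t ht
    rcases hC.iP n σ hσ hm h1 h3 t ht with h | ⟨h, ⟨h', h''⟩ | h'⟩
    · exact Or.inl h
    · exact Or.inr ⟨h, Or.inl (hG.gle N _ _ h' h'')⟩
    · exact Or.inr ⟨h, Or.inr h'⟩
  cases N with
  | zero =>
    have e1 : AA I ch P X Y W G (n - 1) (0 + 1) σ =
        ∑ t ∈ I, (P (n - 1) σ t * G 0 0 (ch t) +
          (P (n - 1) σ t * (G 0 1 (ch t) - G 0 0 (ch t)) +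
            X (n - 1) σ t * (G 0 2 (ch t) - G 0 1 (ch t)))) := by
      simp only [AA]
      refine Finset.sum_congr rfl fun t _ => by ring
    have e2 : KS I K σ (fun m τ => AA I ch P X Y W G (n - 1 + m) 0 τ) =
        ∑ t ∈ I, (KS I K σ (fun m τ => P (n - 1 + m) τ t) * G 0 0 (ch t) +
          (KS I K σ (fun m τ => Y (n - 1 + m) τ t) * (G 0 1 (ch t) - G 0 0 (ch t)) +
            KS I K σ (fun m τ => W (n - 1 + m) τ t) * (G 0 2 (ch t) - G 0 1 (ch t)))) :=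
      KS_lin I K σ (fun m => P (n - 1 + m)) (fun m => Y (n - 1 + m)) (fun m => W (n - 1 + m))
        (fun t => G 0 0 (ch t)) (fun t => G 0 1 (ch t) - G 0 0 (ch t))
        (fun t => G 0 2 (ch t) - G 0 1 (ch t))
    rw [e1, e2, Finset.mul_sum, Finset.mul_sum, ← Finset.sum_add_distrib]
    simp only [AA]
    refine le_trans (le_of_eq ?_) (lin_cmp3 (I := I) (b σ)
      (a := fun t => (1 / 5) * P (n - 1) σ t + (1 / 5) * KS I K σ (fun m τ => P (n - 1 + m) τ t))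
      (a1 := fun t => (1 / 5) * P (n - 1) σ t +
        (1 / 5) * KS I K σ (fun m τ => Y (n - 1 + m) τ t))
      (a2 := fun t => (1 / 5) * X (n - 1) σ t +
        (1 / 5) * KS I K σ (fun m τ => W (n - 1 + m) τ t))
      (g := fun t => G 0 0 (ch t)) hsum (hbase 0)
      (fun t ht => hC.iY n σ hσ hm h1 h3 t ht) (fun t ht => hC.iW n σ hσ hm h1 h3 t ht)
      (fun t _ => dn 0 _) (fun t _ => dn 1 _))
    refine Finset.sum_congr rfl fun t _ => by ring
  | succ N =>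
    have e1 : AA I ch P X Y W G (n - 1) (N + 1 + 1) σ ≤
        ∑ t ∈ I, (P (n - 1) σ t * G 0 (N + 1) (ch t) +
          ((P (n - 1) σ t + X (n - 1) σ t) * (G 0 (N + 2) (ch t) - G 0 (N + 1) (ch t)))) := by
      simp only [AA]
      refine Finset.sum_le_sum fun t _ => ?_
      have h1 := mul_le_mul_of_nonneg_left (hG.concN (N + 1) (ch t)) (hC.X0 (n - 1) σ t)
      have e : N + 1 + 2 = N + 3 := rfl
      rw [e] at *
      have e' : N + 1 + 1 = N + 2 := rfl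
      rw [e'] at *
      nlinarith [h1]
    have e2 : KS I K σ (fun m τ => AA I ch P X Y W G (n - 1 + m) (N + 1) τ) =
        ∑ t ∈ I, (KS I K σ (fun m τ => P (n - 1 + m) τ t) * G 0 (N + 1) (ch t) +
          (KS I K σ (fun m τ => X (n - 1 + m) τ t) *
            (G 0 (N + 2) (ch t) - G 0 (N + 1) (ch t)) +
            KS I K σ (fun m τ => (0 : ℝ)) * 0)) :=
      KS_lin I K σ (fun m => P (n - 1 + m)) (fun m => X (n - 1 + m)) (fun m _ _ => 0)
        (fun t => G 0 (N + 1) (ch t)) (fun t => G 0 (N + 2) (ch t) - G 0 (N + 1) (ch t))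
        (fun t => 0)
    rw [e2]
    have e3 := mul_le_mul_of_nonneg_left e1 (by norm_num : (0 : ℝ) ≤ 1 / 5)
    refine le_trans (add_le_add_left e3 _) ?_
    rw [Finset.mul_sum, Finset.mul_sum, ← Finset.sum_add_distrib]
    simp only [AA]
    refine le_trans (le_of_eq ?_) (lin_cmp3 (I := I) (b σ)
      (a := fun t => (1 / 5) * P (n - 1) σ t + (1 / 5) * KS I K σ (fun m τ => P (n - 1 + m) τ t))
      (a1 := fun t => (1 / 5) * (P (n - 1) σ t + X (n - 1) σ t) +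
        (1 / 5) * KS I K σ (fun m τ => X (n - 1 + m) τ t))
      (a2 := fun t => 0) (W := fun t => 0)
      (g := fun t => G 0 (N + 1) (ch t)) hsum (hbase (N + 1))
      (fun t ht => hC.iX n σ hσ hm h1 h3 t ht) (fun t ht => le_rfl)
      (fun t _ => dn (N + 1) _) (e := fun t => 0) (fun t _ => le_rfl))
    refine Finset.sum_congr rfl fun t _ => by ring

/-- The comparison theorem. -/
theorem comparison (hC : Cert T I ch le q kc fl pr b β P X Y W E) (hG : Gp T I ch le q G)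
    (hrefl : ∀ t, le t t) (s : ℕ) (hs : s < T) :
    G (if s = 0 then 2 else 1) 0 (ch s) ≤
      ∑ t ∈ I, ∑ m ∈ range 3, q s m t * G 0 m (ch t) := by
  have dn : ∀ N σ, 0 ≤ G 0 (N + 1) σ - G 0 N σ := fun N σ => sub_nonneg.mpr (hG.mono N σ)
  obtain ⟨C, hC0, hgr⟩ := hG.gr
  have AA0 : ∀ n N σ, 0 ≤ AA I ch P X Y W G n N σ := by
    intro n N σ
    cases N with
    | zero =>
      simp only [AA]
      refine Finset.sum_nonneg fun t _ => add_nonneg (mul_nonneg (hC.P0 _ _ _) (hG.nonneg _ _ _))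
        (add_nonneg (mul_nonneg (hC.Y0 _ _ _) (dn 0 _)) (mul_nonneg (hC.W0 _ _ _) (dn 1 _)))
    | succ N =>
      simp only [AA]
      refine Finset.sum_nonneg fun t _ => add_nonneg (mul_nonneg (hC.P0 _ _ _) (hG.nonneg _ _ _))
        (add_nonneg (mul_nonneg (hC.X0 _ _ _) (dn (N + 1) _)) (by norm_num))
  have hmax := maxp (T := T) (M := 3) (I := I) hC.hI (K := fun n => if n = 3 then kc else q)
    (fun n s m t => by
      split_ifs
      · exact hC.k0 s m t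
      · exact hC.q0 s m t)
    (fun n s m t h1 h3 hne => by
      by_contra hcon
      by_cases h33 : n = 3
      · simp only [if_pos h33] at hne
        exact hne (hC.k2 _ _ _ (by omega))
      · simp only [if_neg h33] at hne
        exact hne (hC.q3 _ _ _ (by omega)))
    (D := fun n N σ => G n N σ - AA I ch P X Y W G n N σ)
    (fun n N σ e => by
      have : AA I ch P X Y W G n N (σ ∘ e) = AA I ch P X Y W G n N σ := by
        cases N <;> simp only [AA, hC.sP, hC.sX, hC.sY, hC.sW]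
      simp only [this, hG.sym])
    (fun n N σ hσ hm h1 h3 => by
      obtain ⟨n, rfl⟩ : ∃ n', n = n' + 1 := ⟨n - 1, by omega⟩
      have h2 := cap_step hC hG hrefl n N (by omega) σ hσ
      have h4 := AA_sup hC hG (n + 1) N σ hσ hm h1 h3
      simp only [Nat.add_sub_cancel] at h4 ⊢
      have h5 : KS I (if n + 1 = 3 then kc else q) σ
          (fun m τ => G (n + m) N τ - AA I ch P X Y W G (n + m) N τ) =
          KS I (if n + 1 = 3 then kc else q) σ (fun m τ => G (n + m) N τ) -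
          KS I (if n + 1 = 3 then kc else q) σ (fun m τ => AA I ch P X Y W G (n + m) N τ) := by
        have h6 : (fun m τ => G (n + m) N τ - AA I ch P X Y W G (n + m) N τ) =
            (fun (m : ℕ) (τ : Fin 4 → ℕ) => G (n + m) N τ +
              (-1) * AA I ch P X Y W G (n + m) N τ) := by
          funext m τ; ring
        rw [h6, KS_add I _ σ (fun m τ => G (n + m) N τ)
          (fun m τ => (-1) * AA I ch P X Y W G (n + m) N τ), KS_mul]
        ring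
      rw [h5]
      linarith)
    (fun N σ hσ => by
      obtain ⟨e, he⟩ := hC.prle σ hσ
      have h1 : G 0 N σ ≤ G 0 N (ch (pr σ)) := by
        rw [← hG.sym 0 N σ e]
        exact hG.ge _ _ _ _ he
      have h2 : AA I ch P X Y W G 0 N σ = G 0 N (ch (pr σ)) := by
        cases N with
        | zero =>
          simp only [AA, hC.Pz, hC.Yz, hC.Wz, zero_mul, add_zero, ite_mul, one_mul]
          rw [Finset.sum_ite_eq' I (pr σ)]
          rw [if_pos (hC.prI σ hσ)]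
        | succ N =>
          simp only [AA, hC.Pz, hC.Xz, zero_mul, add_zero, ite_mul, one_mul]
          rw [Finset.sum_ite_eq' I (pr σ)]
          rw [if_pos (hC.prI σ hσ)]
      rw [h2]; linarith)
    (C := C) (θ := 6 / 5) (η := 11 / 10) (κ := 99 / 100) (E := E) hC0 (by norm_num) (by norm_num)
    (by norm_num) (by norm_num)
    (fun n N σ hn hσ => by
      have := AA0 n N σ
      have := hgr n N σ hσ hn
      linarith)
    (fun n s h1 h3 hs => by
      split_ifs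
      · exact hC.kE s hs
      · exact hC.qE s hs)
    hC.hE
  have h1 := hmax (if s = 0 then 2 else 1) 0 (ch s) (by split_ifs <;> norm_num) (hC.chT s hs)
  have h2 : G (if s = 0 then 2 else 1) 0 (ch s) ≤
      AA I ch P X Y W G (if s = 0 then 2 else 1) 0 (ch s) := by linarith
  refine h2.trans ?_
  simp only [AA]
  refine le_trans ?_ (le_of_eq (a := ∑ t ∈ I, ((q s 0 t + q s 1 t + q s 2 t) * G 0 0 (ch t) +
    ((q s 1 t + q s 2 t) * (G 0 1 (ch t) - G 0 0 (ch t)) +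
      q s 2 t * (G 0 2 (ch t) - G 0 1 (ch t))))) ?_)
  · refine lin_cmp3 (I := I) (β s) (g := fun t => G 0 0 (ch t)) ?_ ?_ (hC.fY s hs) (hC.fW s hs)
      (fun t _ => dn 0 _) (fun t _ => dn 1 _)
    · rw [hC.Ps _ _ (hC.chT s hs) (by split_ifs <;> norm_num), ← hC.qs s hs]
      refine Finset.sum_congr rfl fun t _ => ?_
      rw [Finset.sum_range_succ, Finset.sum_range_succ, Finset.sum_range_one]
    · intro t ht
      rcases hC.fP s hs t ht with h | ⟨h, ⟨h', h''⟩ | h'⟩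
      · exact Or.inl h
      · exact Or.inr ⟨h, Or.inl (hG.gle 0 _ _ h' h'')⟩
      · exact Or.inr ⟨h, Or.inr h'⟩
  · refine Finset.sum_congr rfl fun t _ => ?_
    rw [Finset.sum_range_succ, Finset.sum_range_succ, Finset.sum_range_one]
    ring

end main

end Pool.Agent.U874.FT
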