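/-!
# Evaluation of the certificate by the kernel: functions

Rows of 32 numbers are packed in base `2 ^ 64`.
-/

set_option autoImplicit false

namespace Pool.Agent.U874.FT

/-- Binary search tree of rows: key, projection and matching, rows for one, two, three frogs. -/
inductive Tr : Type where
  | lf : Tr
  | nd (k p r1 r2 r3 : Nat) (l r : Tr) : Tr

/-- Strict application. -/
noncomputable def sta (n : Nat) (f : Nat → Bool) : Bool :=
  @Nat.rec (fun _ => Bool) (f 0) (fun m _ => f (Nat.succ m)) n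

/-- Sum of `f k`, `k < n`. -/
noncomputable def sm (n : Nat) (f : Nat → Nat) : Nat :=
  @Nat.rec (fun _ => Nat) 0 (fun k ih => Nat.add ih (f k)) n

/-- Conjunction of `f k`, `k < n`. -/
noncomputable def al (n : Nat) (f : Nat → Bool) : Bool :=
  @Nat.rec (fun _ => Bool) true (fun k ih => and (f k) ih) n

/-- The base. -/
def BB : Nat := 18446744073709551616

/-- Scale of the rows. -/
def SS : Nat := 1000000000

/-- Scale of the kernel. -/
def DD : Nat := 1000000

/-- Row of a configuration without frogs. -/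
def row0 (p : Nat) : Nat := Nat.mul SS (Nat.pow BB (Nat.sub p 1))

/-- Choice of the row. -/
noncomputable def sel (n p r1 r2 r3 : Nat) : Nat :=
  @Nat.rec (fun _ => Nat) (row0 (Nat.mod p 16)) (fun n1 _ =>
    @Nat.rec (fun _ => Nat) r1 (fun n2 _ =>
      @Nat.rec (fun _ => Nat) r2 (fun _ _ => r3) n2) n1) n

/-- Look up the row. -/
noncomputable def Tr.row (c n : Nat) (t : Tr) : Nat :=
  @Tr.rec (fun _ => Nat) 0 (fun k p r1 r2 r3 _ _ il ir =>
    @Bool.rec (fun _ => Nat) (@Bool.rec (fun _ => Nat) ir il (Nat.ble c k))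
      (sel n p r1 r2 r3) (Nat.beq c k)) t

/-- Look up the projection. -/
noncomputable def Tr.pe (c : Nat) (t : Tr) : Nat :=
  @Tr.rec (fun _ => Nat) 0 (fun k p _ _ _ _ _ il ir =>
    @Bool.rec (fun _ => Nat) (@Bool.rec (fun _ => Nat) ir il (Nat.ble c k))
      p (Nat.beq c k)) t

/-- Digit. -/
def dg (j x : Nat) : Nat := Nat.mod (Nat.div x (Nat.pow BB j)) BB

/-- Code of a configuration. -/
def cod (a b c d : Nat) : Nat :=
  Nat.add (Nat.add (Nat.pow 5 a) (Nat.pow 5 b)) (Nat.add (Nat.pow 5 c) (Nat.pow 5 d))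

end Pool.Agent.U874.FT
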