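import Pool.Agent.U874.FT.B2

/-!
# Evaluation of the certificate by the kernel: checks
-/

set_option autoImplicit false

namespace Pool.Agent.U874.FT

/-- The table. -/
def tab : Tr := tr16

/-- The transition numbers of a child, packed. -/
def QN : Nat := 0x6a6352d820463022f805a56084d202f690b7081598d016ac0a762263a70135304000064e100f6a0a53520fc30000200001003f300000000000000000000000000000000c09481bea0d0d0005e00c1a09af4000000000000000000000000000000000000000000000000000000000000000000000000000000000000000000019b30d66329f8c00c674220b7842c00000000000000000000000000000000000000000000000000000000000000000000000000000000000000000001c7d07d050f69c027a8145b141b660023d3929e477e7004b700b2d008cc0000200001003ee000000000000000000000000000000000000000000000009aa034750812401505099e02129d0000000000000000131645fc074ea50000000000000000000000000000000000000000000000000000000000000121503f89074d50156b067c60ea95000530030e00c8a027380fd9a3481f00fef3f5bc49180000000000000000000000000000000020ac0e2263e995015d7032190463c02844072540bb7e0053701fef04ffa02fa30aed013eea007420380509c1100d2638b1716b85000000000000000025340f28a3f9f102ee00534b064bc041d209ac20e01901e2e085491097d0196902da603646018f406c4c0cf2400ee705cc3092350002930d56002f2091911c3b509d300bb860c9930c04010b4814f7d14d990858b0fcb1136f105a7504702039c7068ae0b3570a02e03464038980046809c4b00004003c2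

/-- The transition numbers for three frogs, packed. -/
def KN : Nat := 0x360241fdbd000000a046061da00000115da12a24000000d4ba24cfb00000066a60518e000000c409200590000000005003f100000000000000000000000000000000000499d0a01040000000cd609a9600000000000000000000000000000000000000000000000000000000000000000000000000000000000000000000000109c9285d90000043ad9777c5000000000000000000000000000000000000000000000000000000000000000000000000000000000000000000000000b5ff0da1f00000195013f3be0000039718475aa000000149b004150000000005003ec00000000000000000000000000000000000000000000000000047c90777a000000c3ea1fd9800000000000000000000485ec73b8f00000000000000000000000000000000000000000000000000000000000000000063b3062c0000000929c0d52a00000003b400c370000014c0a320e7000004159a48191000000000000000000000000000000000001237e3c8e90000005dc703065000000c2dc0933a0000002a5d04ac30000010e1610f470000004689094cf000003a56315e5f0000000000000000000013cf23d4bd000000b10b035dc0000011e6609e47000000c1a50eb4f000000607801cdd0000009e340b6300000007a910834e0000030da8002c9000002e6d700000000002409f004ba000003660d021a300000207c702c00000000fbec0000000000184b300000000000a16000000000001389a00000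

/-- The transition numbers: `n` frogs, type `s` of the child, `m` visits, new type `t`. -/
noncomputable def Kd (n s m t : Nat) : Nat :=
  Nat.mod (Nat.div (@Bool.rec (fun _ => Nat) QN KN (Nat.beq n 3))
    (Nat.pow 1048576 (Nat.add (Nat.mul 24 s) (Nat.add (Nat.mul 3 (Nat.sub t 1)) m)))) 1048576

/-- Order of the types. -/
def leb (a b : Nat) : Bool :=
  Nat.beq (Nat.mod (Nat.div 0x1f040301c0d07c7f3fdff (Nat.pow 2 (Nat.add (Nat.mul 9 a) b))) 2) 1

/-- Types of the children. -/
def chN (t i : Nat) : Nat :=
  Nat.mod (Nat.div 0x300043824320430032102200100000000000 (Nat.pow 16 (Nat.add (Nat.mul 4 t) i))) 16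

/-- Base type. -/
def bet (t : Nat) : Nat := Nat.mod (Nat.div 0x266343211 (Nat.pow 16 t)) 16

/-- Row of a configuration. -/
noncomputable def RW (n c : Nat) : Nat := Tr.row c n tab

/-- Projection of a configuration, with the matching. -/
noncomputable def PE (c : Nat) : Nat := Tr.pe c tab

/-- Accumulated row. -/
noncomputable def acc (n a b c d : Nat) : Nat :=
  sm 8 (fun t => sm 3 (fun m => Nat.add
    (Nat.add (Nat.mul (Kd n a m (Nat.succ t)) (RW (Nat.add (Nat.sub n 1) m) (cod (Nat.succ t) b c d)))
      (Nat.mul (Kd n b m (Nat.succ t)) (RW (Nat.add (Nat.sub n 1) m) (cod a (Nat.succ t) c d))))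
    (Nat.add (Nat.mul (Kd n c m (Nat.succ t)) (RW (Nat.add (Nat.sub n 1) m) (cod a b (Nat.succ t) d)))
      (Nat.mul (Kd n d m (Nat.succ t)) (RW (Nat.add (Nat.sub n 1) m) (cod a b c (Nat.succ t)))))))

/-- Check of one row: accumulated row `A`, row `r`, previous row `r'`, base type `b`. -/
noncomputable def ck (A r r' b : Nat) : Bool :=
  and (Nat.ble (Nat.succ r) (Nat.pow BB 32)) (and (Nat.beq (sm 8 (fun j => dg j r)) SS)
    (and (al 32 (fun j => Nat.ble (dg j r) 1073741824))
    (al 8 (fun j => and (or (Nat.beq (Nat.succ j) b)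
        (and (Nat.ble (Nat.mul (Nat.mul 5 DD) (dg j r)) (Nat.add (dg j A) (Nat.mul DD (dg j r'))))
          (or (leb b (Nat.succ j)) (Nat.beq (Nat.add (dg j A) (Nat.mul DD (dg j r'))) 0))))
      (and (Nat.ble (Nat.add (dg (Nat.add 8 j) A)
          (Nat.mul DD (Nat.add (dg j r') (dg (Nat.add 8 j) r'))))
          (Nat.mul (Nat.mul 5 DD) (dg (Nat.add 8 j) r)))
      (and (Nat.ble (Nat.add (dg (Nat.add 16 j) A) (Nat.mul DD (dg j r')))
          (Nat.mul (Nat.mul 5 DD) (dg (Nat.add 16 j) r)))
        (Nat.ble (Nat.add (dg (Nat.add 24 j) A) (Nat.mul DD (dg (Nat.add 8 j) r')))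
          (Nat.mul (Nat.mul 5 DD) (dg (Nat.add 24 j) r)))))))))

/-- Check of the rows of a configuration. -/
noncomputable def ckn (n a b c d : Nat) : Bool :=
  sta (acc n a b c d) (fun A => sta (RW n (cod a b c d)) (fun r =>
    sta (RW (Nat.sub n 1) (cod a b c d)) (fun r' =>
      sta (bet (Nat.mod (PE (cod a b c d)) 16)) (fun bb => ck A r r' bb))))

/-- The `i`-th entry of a configuration. -/
def ent (a b c d i : Nat) : Nat :=
  @Nat.rec (fun _ => Nat) a (fun i1 _ => @Nat.rec (fun _ => Nat) b (fun i2 _ =>
    @Nat.rec (fun _ => Nat) c (fun _ _ => d) i2) i1) i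

/-- Check of the projection of a configuration. -/
noncomputable def ckp (a b c d : Nat) : Bool :=
  sta (PE (cod a b c d)) (fun p => sta (Nat.div p 16) (fun e => sta (Nat.mod p 16) (fun q =>
    and (and (and (Nat.ble 1 q) (Nat.ble q 8)) (sta (RW 0 (cod a b c d)) (fun r0 =>
      and (Nat.ble (Nat.succ r0) (Nat.pow BB 32)) (al 32 (fun j => Nat.beq (dg j r0)
        (@Bool.rec (fun _ => Nat) 0 SS (Nat.beq (Nat.succ j) q)))))))
      (and (al 4 (fun i => leb (chN q i) (ent a b c d (Nat.mod (Nat.div e (Nat.pow 4 i)) 4))))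
        (al 4 (fun i => al 4 (fun j => or (Nat.beq i j)
          (Bool.not (Nat.beq (Nat.mod (Nat.div e (Nat.pow 4 i)) 4)
            (Nat.mod (Nat.div e (Nat.pow 4 j)) 4))))))))))

/-- All checks for the sorted configurations starting with `a`, `b`. -/
noncomputable def ckc (a b : Nat) : Bool :=
  al 9 (fun c => or (Nat.ble (Nat.succ c) b) (al 9 (fun d =>
      or (Nat.ble (Nat.succ d) c)
        (and (ckp a b c d) (and (ckn 1 a b c d) (and (ckn 2 a b c d) (ckn 3 a b c d)))))))

/-- The flows, packed. -/
def FN : Nat := 0x20ae00000000000000000000000000000000000000000000000000000000000000000000000000000000000000000002ffc000000000000000000000000000b9f00000000000556a0000003780000000000000000000000000000000000000000000000000000000000000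

/-- Flow for a child of type `s`, from `t` to `u`. -/
def Fl (s t u : Nat) : Nat :=
  Nat.mod (Nat.div FN (Nat.pow 1048576 (Nat.add (Nat.mul 81 s) (Nat.add (Nat.mul 9 t) u)))) 1048576

/-- Checks of the transition numbers. -/
noncomputable def ckk : Bool :=
  al 9 (fun s => and (and (Nat.beq (sm 8 (fun t => sm 3 (fun m => Kd 1 s m (Nat.succ t)))) DD)
      (Nat.beq (sm 8 (fun t => sm 3 (fun m => Kd 3 s m (Nat.succ t)))) DD))
    (al 8 (fun t => and (Nat.beq (Kd 3 s 2 (Nat.succ t)) 0)
      (and (Nat.beq (Kd 3 s 1 (Nat.succ t)) (Nat.add (Kd 1 s 1 (Nat.succ t))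
        (Nat.mul 2 (Kd 1 s 2 (Nat.succ t)))))
      (and (Nat.beq (Nat.add (Kd 3 s 0 (Nat.succ t)) (Nat.add (Kd 1 s 2 (Nat.succ t))
          (sm 8 (fun u => Fl s (Nat.succ u) (Nat.succ t)))))
          (Nat.add (Kd 1 s 0 (Nat.succ t)) (sm 8 (fun u => Fl s (Nat.succ t) (Nat.succ u)))))
        (al 8 (fun u => or (Nat.beq (Fl s (Nat.succ t) (Nat.succ u)) 0)
          (leb (Nat.succ t) (Nat.succ u)))))))))

/-- Checks of the growth of the transition numbers. -/
noncomputable def cke : Bool :=
  al 9 (fun s => and
    (and (Nat.ble (sm 8 (fun t => Nat.add (Nat.mul 25 (Kd 1 s 0 (Nat.succ t)))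
        (Nat.add (Nat.mul 30 (Kd 1 s 1 (Nat.succ t))) (Nat.mul 36 (Kd 1 s 2 (Nat.succ t))))))
        30200000)
      (Nat.ble (sm 8 (fun t => Nat.add (Nat.mul 25 (Kd 3 s 0 (Nat.succ t)))
        (Nat.add (Nat.mul 30 (Kd 3 s 1 (Nat.succ t))) (Nat.mul 36 (Kd 3 s 2 (Nat.succ t))))))
        30200000))
    (and (Nat.ble (sm 8 (fun t => Nat.add (Nat.mul 400 (Kd 1 s 0 (Nat.succ t)))
        (Nat.add (Nat.mul 420 (Kd 1 s 1 (Nat.succ t))) (Nat.mul 441 (Kd 1 s 2 (Nat.succ t))))))
        419900000)
      (Nat.ble (sm 8 (fun t => Nat.add (Kd 1 s 1 (Nat.succ t))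
        (Nat.mul 2 (Kd 1 s 2 (Nat.succ t))))) 980000)))

/-- Checks of the order of the types. -/
noncomputable def cko : Bool :=
  and (al 9 (fun b => and (al 4 (fun i => Nat.ble (chN b i) 8))
    (and (leb b b) (and (Nat.ble 1 (bet b)) (Nat.ble (bet b) 8)))))
    (al 9 (fun a => al 9 (fun b => or (Nat.beq a 0) (or (Nat.beq a b) (or (Bool.not (leb a b))
      (and (Nat.ble 1 b) (al 4 (fun i => leb (chN a i) (chN b i)))))))))

/-- The start of type `s`. -/
noncomputable def cks : Bool :=
  al 9 (fun s => sta (RW (@Bool.rec (fun _ => Nat) 1 2 (Nat.beq s 0))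
      (cod (chN s 0) (chN s 1) (chN s 2) (chN s 3))) (fun r => al 8 (fun j =>
    and (or (Nat.beq (Nat.succ j) (bet s)) (and
        (Nat.ble (Nat.mul SS (Nat.add (Kd 1 s 0 (Nat.succ j)) (Nat.add (Kd 1 s 1 (Nat.succ j))
          (Kd 1 s 2 (Nat.succ j))))) (Nat.mul DD (dg j r)))
        (or (leb (bet s) (Nat.succ j)) (Nat.beq (dg j r) 0))))
      (and (Nat.ble (Nat.mul DD (dg (Nat.add 16 j) r)) (Nat.mul SS
          (Nat.add (Kd 1 s 1 (Nat.succ j)) (Kd 1 s 2 (Nat.succ j)))))
        (Nat.ble (Nat.mul DD (dg (Nat.add 24 j) r)) (Nat.mul SS (Kd 1 s 2 (Nat.succ j))))))))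

end Pool.Agent.U874.FT
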