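import Pool.Agent.U874.FT.B3

/-!
# The certificate is correct
-/

set_option autoImplicit false

namespace Pool.Agent.U874.FT

theorem ckk_ok : ckk = true := by decide +kernel

theorem cke_ok : cke = true := by decide +kernel

theorem cko_ok : cko = true := by decide +kernel

theorem cks_ok : cks = true := by decide +kernel

theorem ckc_0_0 : ckc 0 0 = true := by decide +kernel

theorem ckc_0_1 : ckc 0 1 = true := by decide +kernel

theorem ckc_0_2 : ckc 0 2 = true := by decide +kernel

theorem ckc_0_3 : ckc 0 3 = true := by decide +kernel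

theorem ckc_0_4 : ckc 0 4 = true := by decide +kernel

theorem ckc_0_5 : ckc 0 5 = true := by decide +kernel

theorem ckc_0_6 : ckc 0 6 = true := by decide +kernel

theorem ckc_0_7 : ckc 0 7 = true := by decide +kernel

theorem ckc_0_8 : ckc 0 8 = true := by decide +kernel

theorem ckc_1_1 : ckc 1 1 = true := by decide +kernel

theorem ckc_1_2 : ckc 1 2 = true := by decide +kernel

theorem ckc_1_3 : ckc 1 3 = true := by decide +kernel

theorem ckc_1_4 : ckc 1 4 = true := by decide +kernel

theorem ckc_1_5 : ckc 1 5 = true := by decide +kernel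

theorem ckc_1_6 : ckc 1 6 = true := by decide +kernel

theorem ckc_1_7 : ckc 1 7 = true := by decide +kernel

theorem ckc_1_8 : ckc 1 8 = true := by decide +kernel

theorem ckc_2_2 : ckc 2 2 = true := by decide +kernel

theorem ckc_2_3 : ckc 2 3 = true := by decide +kernel

theorem ckc_2_4 : ckc 2 4 = true := by decide +kernel

theorem ckc_2_5 : ckc 2 5 = true := by decide +kernel

theorem ckc_2_6 : ckc 2 6 = true := by decide +kernel

theorem ckc_2_7 : ckc 2 7 = true := by decide +kernel

theorem ckc_2_8 : ckc 2 8 = true := by decide +kernel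

theorem ckc_3_3 : ckc 3 3 = true := by decide +kernel

theorem ckc_3_4 : ckc 3 4 = true := by decide +kernel

theorem ckc_3_5 : ckc 3 5 = true := by decide +kernel

theorem ckc_3_6 : ckc 3 6 = true := by decide +kernel

theorem ckc_3_7 : ckc 3 7 = true := by decide +kernel

theorem ckc_3_8 : ckc 3 8 = true := by decide +kernel

theorem ckc_4_4 : ckc 4 4 = true := by decide +kernel

theorem ckc_4_5 : ckc 4 5 = true := by decide +kernel

theorem ckc_4_6 : ckc 4 6 = true := by decide +kernel

theorem ckc_4_7 : ckc 4 7 = true := by decide +kernel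

theorem ckc_4_8 : ckc 4 8 = true := by decide +kernel

theorem ckc_5_5 : ckc 5 5 = true := by decide +kernel

theorem ckc_5_6 : ckc 5 6 = true := by decide +kernel

theorem ckc_5_7 : ckc 5 7 = true := by decide +kernel

theorem ckc_5_8 : ckc 5 8 = true := by decide +kernel

theorem ckc_6_6 : ckc 6 6 = true := by decide +kernel

theorem ckc_6_7 : ckc 6 7 = true := by decide +kernel

theorem ckc_6_8 : ckc 6 8 = true := by decide +kernel

theorem ckc_7_7 : ckc 7 7 = true := by decide +kernel

theorem ckc_7_8 : ckc 7 8 = true := by decide +kernel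

theorem ckc_8_8 : ckc 8 8 = true := by decide +kernel

end Pool.Agent.U874.FT
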