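import Pool.Agent.U874.FT.B4
import Mathlib

/-!
# Meaning of the checks: packed rows
-/

set_option autoImplicit false

open Finset

namespace Pool.Agent.U874.FT

theorem sm_eq (n : ℕ) (f : ℕ → ℕ) : sm n f = ∑ k ∈ range n, f k := by
  induction n with
  | zero => rfl
  | succ n ih =>
    rw [Finset.sum_range_succ, ← ih]; rfl

theorem al_iff (n : ℕ) (f : ℕ → Bool) : al n f = true ↔ ∀ k < n, f k = true := by
  induction n with
  | zero => simp [al]
  | succ n ih =>
    have e : al (n + 1) f = (f n && al n f) := rfl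
    rw [e, Bool.and_eq_true, ih]
    constructor
    · rintro ⟨h1, h2⟩ k hk
      rcases Nat.lt_succ_iff_lt_or_eq.mp hk with h | h
      · exact h2 k h
      · rw [h]; exact h1
    · intro h
      exact ⟨h n (Nat.lt_succ_self n), fun k hk => h k (Nat.lt_succ_of_lt hk)⟩

theorem sta_eq (n : ℕ) (f : ℕ → Bool) : sta n f = f n := by
  cases n <;> rfl

theorem BB_pos : 0 < BB := by decide

/-- The number `x` has the digits `f`, which are at most `M`. -/
def Rp (M x : ℕ) (f : ℕ → ℕ) : Prop :=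
  x = ∑ j ∈ range 32, f j * BB ^ j ∧ ∀ j < 32, f j ≤ M

theorem Rp.add {M M' x x' : ℕ} {f f' : ℕ → ℕ} (h : Rp M x f) (h' : Rp M' x' f') :
    Rp (M + M') (x + x') (fun j => f j + f' j) := by
  refine ⟨?_, fun j hj => add_le_add (h.2 j hj) (h'.2 j hj)⟩
  rw [h.1, h'.1, ← Finset.sum_add_distrib]
  exact Finset.sum_congr rfl fun j _ => by ring

theorem Rp.mul {M x : ℕ} {f : ℕ → ℕ} (h : Rp M x f) (c C : ℕ) (hc : c ≤ C) :
    Rp (C * M) (c * x) (fun j => c * f j) := by
  refine ⟨?_, fun j hj => Nat.mul_le_mul hc (h.2 j hj)⟩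
  rw [h.1, Finset.mul_sum]
  exact Finset.sum_congr rfl fun j _ => by ring

theorem Rp.sum {M : ℕ} (n : ℕ) {x : ℕ → ℕ} {f : ℕ → ℕ → ℕ} (h : ∀ k < n, Rp M (x k) (f k)) :
    Rp (n * M) (∑ k ∈ range n, x k) (fun j => ∑ k ∈ range n, f k j) := by
  induction n with
  | zero =>
    refine ⟨by simp, fun j _ => by simp⟩
  | succ n ih =>
    have h1 := (ih fun k hk => h k (Nat.lt_succ_of_lt hk)).add (h n (Nat.lt_succ_self n))
    simp only [Finset.sum_range_succ]
    rw [Nat.succ_mul]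
    exact h1

theorem digit_sum : ∀ (n : ℕ) (f : ℕ → ℕ), (∀ j < n, f j < BB) →
    (∑ j ∈ range n, f j * BB ^ j) < BB ^ n := by
  intro n
  induction n with
  | zero => intro f _; simp
  | succ n ih =>
    intro f h
    rw [Finset.sum_range_succ, pow_succ]
    have h1 := ih f fun j hj => h j (Nat.lt_succ_of_lt hj)
    have h2 : f n + 1 ≤ BB := h n (Nat.lt_succ_self n)
    calc _ < BB ^ n + f n * BB ^ n := Nat.add_lt_add_right h1 _
      _ = (f n + 1) * BB ^ n := by ring
      _ ≤ BB * BB ^ n := Nat.mul_le_mul_right _ h2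
      _ = BB ^ n * BB := by ring

theorem Rp.dig {M x : ℕ} {f : ℕ → ℕ} (h : Rp M x f) (hM : M < BB) (j : ℕ) (hj : j < 32) :
    dg j x = f j := by
  have hf : ∀ j < 32, f j < BB := fun j hj => lt_of_le_of_lt (h.2 j hj) hM
  change x / BB ^ j % BB = f j
  have e : x = (∑ k ∈ range j, f k * BB ^ k) +
      BB ^ j * (f j + BB * ∑ k ∈ range (31 - j), f (j + 1 + k) * BB ^ k) := by
    rw [h.1]
    have e1 : 32 = j + (1 + (31 - j)) := by omega
    conv_lhs => rw [e1]
    rw [Finset.sum_range_add, Finset.sum_range_add, Finset.sum_range_one]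
    congr 1
    rw [mul_add, Finset.mul_sum, Finset.mul_sum]
    congr 1
    · rw [add_zero]; ring
    · refine Finset.sum_congr rfl fun k _ => ?_
      rw [show j + (1 + k) = j + 1 + k by omega, pow_add, pow_succ]
      ring
  have h1 := digit_sum j f fun k hk => hf k (by omega)
  rw [e, Nat.add_mul_div_left _ _ (pow_pos BB_pos j), Nat.div_eq_of_lt h1, zero_add,
    Nat.add_mul_mod_self_left, Nat.mod_eq_of_lt (hf j hj)]

theorem rp_self {M x : ℕ} (hx : x < BB ^ 32) (h : ∀ j < 32, dg j x ≤ M) :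
    Rp M x (fun j => dg j x) := by
  refine ⟨?_, h⟩
  have key : ∀ n : ℕ, ∑ j ∈ range n, dg j x * BB ^ j = x % BB ^ n := by
    intro n
    induction n with
    | zero => simp [Nat.mod_one]
    | succ n ih =>
      rw [Finset.sum_range_succ, ih, Nat.mod_pow_succ]
      change _ + (x / BB ^ n % BB) * BB ^ n = _
      ring
  rw [key 32, Nat.mod_eq_of_lt hx]

/-- Code of a configuration. -/
def code (σ : Fin 4 → ℕ) : ℕ := cod (σ 0) (σ 1) (σ 2) (σ 3)

theorem code_eq (σ : Fin 4 → ℕ) : code σ = ∑ i, 5 ^ (σ i) := by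
  rw [Fin.sum_univ_four]
  change (5 ^ σ 0 + 5 ^ σ 1) + (5 ^ σ 2 + 5 ^ σ 3) = _
  ring

theorem code_comp (σ : Fin 4 → ℕ) (e : Equiv.Perm (Fin 4)) : code (σ ∘ e) = code σ := by
  rw [code_eq, code_eq]
  exact Equiv.sum_comp e (fun i => 5 ^ σ i)

theorem row_ge (c n : ℕ) (t : Tr) : Tr.row c (n + 3) t = Tr.row c 3 t := rfl

theorem Kd_lt (n s m t : ℕ) : Kd n s m t ≤ 1048576 := (Nat.mod_lt _ (by norm_num)).le

theorem Kd_two (s m t : ℕ) : Kd 2 s m t = Kd 1 s m t := rfl

end Pool.Agent.U874.FT
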