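import Pool.Agent.U874.FT.B5
import Pool.Agent.U874.FT.A5

/-!
# The certificate as a comparison
-/

set_option autoImplicit false

open Finset

namespace Pool.Agent.U874.FT

theorem ckc_all (a b : ℕ) (h : a ≤ b) (hb : b < 9) : ckc a b = true := by
  interval_cases b <;> interval_cases a
  · exact ckc_0_0
  · exact ckc_0_1
  · exact ckc_1_1
  · exact ckc_0_2
  · exact ckc_1_2
  · exact ckc_2_2
  · exact ckc_0_3
  · exact ckc_1_3
  · exact ckc_2_3
  · exact ckc_3_3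
  · exact ckc_0_4
  · exact ckc_1_4
  · exact ckc_2_4
  · exact ckc_3_4
  · exact ckc_4_4
  · exact ckc_0_5
  · exact ckc_1_5
  · exact ckc_2_5
  · exact ckc_3_5
  · exact ckc_4_5
  · exact ckc_5_5
  · exact ckc_0_6
  · exact ckc_1_6
  · exact ckc_2_6
  · exact ckc_3_6
  · exact ckc_4_6
  · exact ckc_5_6
  · exact ckc_6_6
  · exact ckc_0_7
  · exact ckc_1_7
  · exact ckc_2_7
  · exact ckc_3_7
  · exact ckc_4_7
  · exact ckc_5_7
  · exact ckc_6_7
  · exact ckc_7_7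
  · exact ckc_0_8
  · exact ckc_1_8
  · exact ckc_2_8
  · exact ckc_3_8
  · exact ckc_4_8
  · exact ckc_5_8
  · exact ckc_6_8
  · exact ckc_7_8
  · exact ckc_8_8

theorem conf_ok (a b c d : ℕ) (h1 : a ≤ b) (h2 : b ≤ c) (h3 : c ≤ d) (h4 : d < 9) :
    ckp a b c d = true ∧ ckn 1 a b c d = true ∧ ckn 2 a b c d = true ∧ ckn 3 a b c d = true := by
  have h := ckc_all a b h1 (by omega)
  unfold ckc at h
  rw [al_iff] at h
  have h5 := h c (by omega)
  rw [Bool.or_eq_true] at h5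
  rcases h5 with h5 | h5
  · have := Nat.le_of_ble_eq_true h5
    omega
  rw [al_iff] at h5
  have h6 := h5 d h4
  rw [Bool.or_eq_true] at h6
  rcases h6 with h6 | h6
  · have := Nat.le_of_ble_eq_true h6
    omega
  rw [Bool.and_eq_true, Bool.and_eq_true, Bool.and_eq_true] at h6
  exact h6

theorem ck_spec {A r r' b : ℕ} (h : ck A r r' b = true) :
    r < BB ^ 32 ∧ ∑ j ∈ range 8, dg j r = SS ∧ (∀ j < 32, dg j r ≤ 1073741824) ∧ ∀ j < 8,
      (j + 1 = b ∨ (5 * DD * dg j r ≤ dg j A + DD * dg j r' ∧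
        (leb b (j + 1) = true ∨ dg j A + DD * dg j r' = 0))) ∧
      dg (8 + j) A + DD * (dg j r' + dg (8 + j) r') ≤ 5 * DD * dg (8 + j) r ∧
      dg (16 + j) A + DD * dg j r' ≤ 5 * DD * dg (16 + j) r ∧
      dg (24 + j) A + DD * dg (8 + j) r' ≤ 5 * DD * dg (24 + j) r := by
  simp only [ck, Bool.and_eq_true, Bool.or_eq_true, al_iff, Nat.beq_eq, Nat.ble_eq, sm_eq,
    Nat.add_eq, Nat.mul_eq, Nat.succ_eq_add_one] at h
  obtain ⟨h1, h2, h3, h4⟩ := h
  exact ⟨h1, h2, h3, h4⟩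

theorem ckn_spec {n a b c d : ℕ} (h : ckn n a b c d = true) :
    ck (acc n a b c d) (RW n (cod a b c d)) (RW (n - 1) (cod a b c d))
      (bet (PE (cod a b c d) % 16)) = true := by
  unfold ckn at h
  rw [sta_eq, sta_eq, sta_eq, sta_eq] at h
  exact h

theorem ckp_spec {a b c d : ℕ} (h : ckp a b c d = true) :
    (1 ≤ PE (cod a b c d) % 16 ∧ PE (cod a b c d) % 16 ≤ 8) ∧
    (RW 0 (cod a b c d) < BB ^ 32 ∧ ∀ j < 32, dg j (RW 0 (cod a b c d)) =
      if j + 1 = PE (cod a b c d) % 16 then SS else 0) ∧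
    (∀ i < 4, leb (chN (PE (cod a b c d) % 16) i)
      (ent a b c d (PE (cod a b c d) / 16 / 4 ^ i % 4)) = true) ∧
    ∀ i < 4, ∀ j < 4, i = j ∨
      PE (cod a b c d) / 16 / 4 ^ i % 4 ≠ PE (cod a b c d) / 16 / 4 ^ j % 4 := by
  unfold ckp at h
  rw [sta_eq, sta_eq, sta_eq, sta_eq] at h
  simp only [Bool.and_eq_true, Bool.or_eq_true, al_iff, Nat.beq_eq, Nat.ble_eq,
    Nat.succ_eq_add_one, Bool.not_eq_true'] at h
  obtain ⟨⟨⟨h1, h2⟩, h3, h4⟩, h5, h6⟩ := h
  refine ⟨⟨h1, h2⟩, ⟨h3, fun j hj => ?_⟩, h5, fun i hi j hj => ?_⟩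
  · rw [h4 j hj]
    change @Bool.rec (fun _ => ℕ) 0 SS (Nat.beq (j + 1) (PE (cod a b c d) % 16)) = _
    by_cases h : j + 1 = PE (cod a b c d) % 16
    · rw [if_pos h, h, Nat.beq_refl]
    · rw [if_neg h]
      have : Nat.beq (j + 1) (PE (cod a b c d) % 16) = false := by
        rw [Bool.eq_false_iff]
        intro h'
        exact h (Nat.eq_of_beq_eq_true h')
      rw [this]
  · rcases h6 i hi j hj with h | h
    · exact Or.inl h
    · right
      intro h'
      change Nat.beq (PE (cod a b c d) / 16 / 4 ^ i % 4) (PE (cod a b c d) / 16 / 4 ^ j % 4) =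
        false at h
      rw [h', Nat.beq_refl] at h
      exact absurd h (by decide)

end Pool.Agent.U874.FT
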