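import Pool.Agent.U874.FT.B6

/-!
# The certificate as a comparison: real numbers
-/

set_option autoImplicit false

open Finset

namespace Pool.Agent.U874.FT

/-- The types of visited subtrees. -/
def I8 : Finset ℕ := (range 8).map ⟨Nat.succ, Nat.succ_injective⟩

theorem sum_I8 {M : Type} [AddCommMonoid M] (f : ℕ → M) :
    ∑ t ∈ I8, f t = ∑ t ∈ range 8, f (t + 1) := by
  unfold I8
  rw [Finset.sum_map]
  rfl

theorem mem_I8 {t : ℕ} : t ∈ I8 ↔ 1 ≤ t ∧ t ≤ 8 := by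
  unfold I8
  simp only [Finset.mem_map, Finset.mem_range, Function.Embedding.coeFn_mk,
    Nat.succ_eq_add_one]
  constructor
  · rintro ⟨a, ha, rfl⟩; omega
  · intro h; exact ⟨t - 1, by omega, by omega⟩

/-- The types of the subtrees of the children. -/
def chF (t : ℕ) (i : Fin 4) : ℕ := chN t i.val

/-- The order of the types. -/
def leP (a b : ℕ) : Prop := a = 0 ∨ a = b ∨ (a < 9 ∧ b < 9 ∧ leb a b = true)

/-- The projection. -/
noncomputable def prF (σ : Fin 4 → ℕ) : ℕ := PE (code σ) % 16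

/-- The base type. -/
noncomputable def bF (σ : Fin 4 → ℕ) : ℕ := bet (prF σ)

/-- The transition probabilities. -/
noncomputable def Kq (n s m t : ℕ) : ℝ :=
  if s < 9 ∧ m < 3 ∧ 1 ≤ t ∧ t ≤ 8 then (Kd n s m t : ℝ) / 1000000 else 0

/-- The flows. -/
noncomputable def flR (s t u : ℕ) : ℝ :=
  if s < 9 ∧ 1 ≤ t ∧ t ≤ 8 ∧ 1 ≤ u ∧ u ≤ 8 then (Fl s t u : ℝ) / 1000000 else 0

/-- The entries of the rows. -/
noncomputable def RR (n : ℕ) (σ : Fin 4 → ℕ) (j : ℕ) : ℝ := (dg j (RW n (code σ)) : ℝ) / 1000000000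

noncomputable def PR (n : ℕ) (σ : Fin 4 → ℕ) (t : ℕ) : ℝ :=
  if n = 0 then (if t = prF σ then 1 else 0) else RR n σ (t - 1)

noncomputable def XR (n : ℕ) (σ : Fin 4 → ℕ) (t : ℕ) : ℝ :=
  if n = 0 then 0 else RR n σ (8 + (t - 1))

noncomputable def YR (n : ℕ) (σ : Fin 4 → ℕ) (t : ℕ) : ℝ :=
  if n = 0 then 0 else RR n σ (16 + (t - 1))

noncomputable def WR (n : ℕ) (σ : Fin 4 → ℕ) (t : ℕ) : ℝ :=
  if n = 0 then 0 else RR n σ (24 + (t - 1))

theorem prF_comp (σ : Fin 4 → ℕ) (e : Equiv.Perm (Fin 4)) : prF (σ ∘ e) = prF σ := by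
  unfold prF; rw [code_comp]

theorem RR_comp (n : ℕ) (σ : Fin 4 → ℕ) (e : Equiv.Perm (Fin 4)) (j : ℕ) :
    RR n (σ ∘ e) j = RR n σ j := by
  unfold RR; rw [code_comp]

/-- All facts for a sorted configuration. -/
theorem conf_mono (σ : Fin 4 → ℕ) (hσ : Val 9 σ) (hm : Monotone σ) :
    ckp (σ 0) (σ 1) (σ 2) (σ 3) = true ∧ ckn 1 (σ 0) (σ 1) (σ 2) (σ 3) = true ∧
      ckn 2 (σ 0) (σ 1) (σ 2) (σ 3) = true ∧ ckn 3 (σ 0) (σ 1) (σ 2) (σ 3) = true :=
  conf_ok _ _ _ _ (hm (by decide)) (hm (by decide)) (hm (by decide)) (hσ 3)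

theorem ckn_mono (n : ℕ) (h1 : 1 ≤ n) (h3 : n ≤ 3) (σ : Fin 4 → ℕ) (hσ : Val 9 σ)
    (hm : Monotone σ) : ckn n (σ 0) (σ 1) (σ 2) (σ 3) = true := by
  have h := conf_mono σ hσ hm
  interval_cases n
  · exact h.2.1
  · exact h.2.2.1
  · exact h.2.2.2

theorem sorted (σ : Fin 4 → ℕ) (hσ : Val 9 σ) :
    ∃ e : Equiv.Perm (Fin 4), Val 9 (σ ∘ e) ∧ Monotone (σ ∘ e) :=
  ⟨Tuple.sort σ, hσ.comp _, Tuple.monotone_sort σ⟩

theorem good (n : ℕ) (σ : Fin 4 → ℕ) (hσ : Val 9 σ) :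
    RW n (code σ) < BB ^ 32 ∧ ∀ j < 32, dg j (RW n (code σ)) ≤ 1073741824 := by
  obtain ⟨e, he, hm⟩ := sorted σ hσ
  rw [← code_comp σ e]
  generalize σ ∘ e = τ at he hm
  rcases Nat.eq_zero_or_pos n with h0 | h0
  · subst h0
    have h := (ckp_spec (conf_mono τ he hm).1).2.1
    refine ⟨h.1, fun j hj => ?_⟩
    change dg j (RW 0 (cod (τ 0) (τ 1) (τ 2) (τ 3))) ≤ _
    rw [h.2 j hj]
    split_ifs
    · decide
    · decide
  · by_cases h3 : n ≤ 3
    · have h := ck_spec (ckn_spec (ckn_mono n h0 h3 τ he hm))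
      exact ⟨h.1, h.2.2.1⟩
    · have h := ck_spec (ckn_spec (ckn_mono 3 (by norm_num) le_rfl τ he hm))
      obtain ⟨k, rfl⟩ : ∃ k, n = k + 3 := ⟨n - 3, by omega⟩
      have e : RW (k + 3) (code τ) = RW 3 (code τ) := row_ge _ _ _
      rw [e]
      exact ⟨h.1, h.2.2.1⟩

theorem acc_dig (n : ℕ) (σ : Fin 4 → ℕ) (hσ : Val 9 σ) (j : ℕ) (hj : j < 32) :
    dg j (acc n (σ 0) (σ 1) (σ 2) (σ 3)) = ∑ t ∈ range 8, ∑ m ∈ range 3,
      ((Kd n (σ 0) m (t + 1) * dg j (RW (n - 1 + m) (code (Function.update σ 0 (t + 1)))) +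
        Kd n (σ 1) m (t + 1) * dg j (RW (n - 1 + m) (code (Function.update σ 1 (t + 1))))) +
      (Kd n (σ 2) m (t + 1) * dg j (RW (n - 1 + m) (code (Function.update σ 2 (t + 1)))) +
        Kd n (σ 3) m (t + 1) * dg j (RW (n - 1 + m) (code (Function.update σ 3 (t + 1)))))) := by
  have hr : ∀ (i : Fin 4) (t m : ℕ), t < 8 →
      Rp 1073741824 (RW (n - 1 + m) (code (Function.update σ i (t + 1))))
        (fun j => dg j (RW (n - 1 + m) (code (Function.update σ i (t + 1))))) := by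
    intro i t m ht
    have h := good (n - 1 + m) (Function.update σ i (t + 1)) (hσ.upd i (by omega))
    exact rp_self h.1 h.2
  have e : acc n (σ 0) (σ 1) (σ 2) (σ 3) = ∑ t ∈ range 8, ∑ m ∈ range 3,
      ((Kd n (σ 0) m (t + 1) * RW (n - 1 + m) (code (Function.update σ 0 (t + 1))) +
        Kd n (σ 1) m (t + 1) * RW (n - 1 + m) (code (Function.update σ 1 (t + 1)))) +
      (Kd n (σ 2) m (t + 1) * RW (n - 1 + m) (code (Function.update σ 2 (t + 1))) +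
        Kd n (σ 3) m (t + 1) * RW (n - 1 + m) (code (Function.update σ 3 (t + 1))))) := by
    unfold acc
    rw [sm_eq]
    refine Finset.sum_congr rfl fun t _ => ?_
    rw [sm_eq]
    refine Finset.sum_congr rfl fun m _ => ?_
    simp only [code, Function.update_self, ne_eq, Fin.reduceEq, not_false_eq_true,
      Function.update_of_ne, Nat.add_eq, Nat.mul_eq, Nat.sub_eq, Nat.succ_eq_add_one]
  have h : Rp (8 * (3 * ((1048576 * 1073741824 + 1048576 * 1073741824) +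
      (1048576 * 1073741824 + 1048576 * 1073741824)))) (acc n (σ 0) (σ 1) (σ 2) (σ 3))
      (fun j => ∑ t ∈ range 8, ∑ m ∈ range 3,
      ((Kd n (σ 0) m (t + 1) * dg j (RW (n - 1 + m) (code (Function.update σ 0 (t + 1)))) +
        Kd n (σ 1) m (t + 1) * dg j (RW (n - 1 + m) (code (Function.update σ 1 (t + 1))))) +
      (Kd n (σ 2) m (t + 1) * dg j (RW (n - 1 + m) (code (Function.update σ 2 (t + 1)))) +
        Kd n (σ 3) m (t + 1) * dg j (RW (n - 1 + m) (code (Function.update σ 3 (t + 1))))))) := by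
    rw [e]
    refine Rp.sum 8 fun t ht => Rp.sum 3 fun m _ => ?_
    exact (((hr 0 t m ht).mul _ _ (Kd_lt _ _ _ _)).add ((hr 1 t m ht).mul _ _ (Kd_lt _ _ _ _))).add
      (((hr 2 t m ht).mul _ _ (Kd_lt _ _ _ _)).add ((hr 3 t m ht).mul _ _ (Kd_lt _ _ _ _)))
  exact h.dig (by norm_num [BB]) j hj

theorem Kn_eq (n s m t : ℕ) (h1 : 1 ≤ n) (h3 : n ≤ 3) (hs : s < 9) (hm : m < 3) (ht1 : 1 ≤ t)
    (ht8 : t ≤ 8) : (if n = 3 then Kq 3 else Kq 1) s m t = (Kd n s m t : ℝ) / 1000000 := by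
  have hc : s < 9 ∧ m < 3 ∧ 1 ≤ t ∧ t ≤ 8 := ⟨hs, hm, ht1, ht8⟩
  interval_cases n
  · rw [if_neg (by norm_num)]; unfold Kq; rw [if_pos hc]
  · rw [if_neg (by norm_num)]; unfold Kq; rw [if_pos hc, Kd_two]
  · rw [if_pos rfl]; unfold Kq; rw [if_pos hc]

theorem acc_real (n : ℕ) (h1 : 1 ≤ n) (h3 : n ≤ 3) (σ : Fin 4 → ℕ) (hσ : Val 9 σ) (j : ℕ)
    (hj : j < 32) : KS I8 (if n = 3 then Kq 3 else Kq 1) σ (fun m τ => RR (n - 1 + m) τ j) =
      (dg j (acc n (σ 0) (σ 1) (σ 2) (σ 3)) : ℝ) / 1000000000000000 := by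
  rw [acc_dig n σ hσ j hj]
  have e : ∀ i : Fin 4, ∑ t ∈ I8, ∑ m ∈ range 3, (if n = 3 then Kq 3 else Kq 1) (σ i) m t *
      RR (n - 1 + m) (Function.update σ i t) j = ∑ t ∈ range 8, ∑ m ∈ range 3,
      ((Kd n (σ i) m (t + 1) *
        dg j (RW (n - 1 + m) (code (Function.update σ i (t + 1)))) : ℕ) : ℝ) /
          1000000000000000 := by
    intro i
    rw [sum_I8]
    refine Finset.sum_congr rfl fun t ht => Finset.sum_congr rfl fun m hm => ?_
    rw [Finset.mem_range] at ht hm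
    rw [Kn_eq n _ _ _ h1 h3 (hσ i) hm (by omega) (by omega)]
    unfold RR
    push_cast
    ring
  unfold KS
  rw [Finset.sum_congr rfl fun i _ => e i, Fin.sum_univ_four]
  rw [Nat.cast_sum, Finset.sum_div]
  rw [← Finset.sum_add_distrib, ← Finset.sum_add_distrib, ← Finset.sum_add_distrib]
  refine Finset.sum_congr rfl fun t _ => ?_
  rw [Nat.cast_sum, Finset.sum_div]
  rw [← Finset.sum_add_distrib, ← Finset.sum_add_distrib, ← Finset.sum_add_distrib]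
  refine Finset.sum_congr rfl fun m _ => ?_
  push_cast
  ring

theorem row_zero (σ : Fin 4 → ℕ) (hσ : Val 9 σ) (j : ℕ) (hj : j < 32) :
    RR 0 σ j = if j + 1 = prF σ then 1 else 0 := by
  obtain ⟨e, he, hm⟩ := sorted σ hσ
  rw [← RR_comp 0 σ e, ← prF_comp σ e]
  generalize σ ∘ e = τ at he hm
  have h := (ckp_spec (conf_mono τ he hm).1).2.1.2 j hj
  have h2 : dg j (RW 0 (code τ)) = if j + 1 = prF τ then SS else 0 := h
  unfold RR
  rw [h2]
  split_ifs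
  · norm_num [SS]
  · norm_num

theorem prF_mem (σ : Fin 4 → ℕ) (hσ : Val 9 σ) : prF σ ∈ I8 := by
  obtain ⟨e, he, hm⟩ := sorted σ hσ
  rw [← prF_comp σ e]
  generalize σ ∘ e = τ at he hm
  exact mem_I8.mpr (ckp_spec (conf_mono τ he hm).1).1

theorem PR_eq (n : ℕ) (σ : Fin 4 → ℕ) (hσ : Val 9 σ) (j : ℕ) (hj : j < 8) :
    PR n σ (j + 1) = RR n σ j := by
  unfold PR
  split_ifs with h0
  · subst h0
    rw [row_zero σ hσ j (by omega), if_pos (by assumption)]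
  · subst h0
    rw [row_zero σ hσ j (by omega), if_neg (by assumption)]
  · rw [Nat.add_sub_cancel]

theorem XR_eq (n : ℕ) (σ : Fin 4 → ℕ) (hσ : Val 9 σ) (j : ℕ) (hj : j < 8) :
    XR n σ (j + 1) = RR n σ (8 + j) := by
  unfold XR
  split_ifs with h0
  · subst h0
    have := mem_I8.mp (prF_mem σ hσ)
    rw [row_zero σ hσ (8 + j) (by omega), if_neg (by omega)]
  · rw [Nat.add_sub_cancel]

theorem YR_eq (n : ℕ) (σ : Fin 4 → ℕ) (hσ : Val 9 σ) (j : ℕ) (hj : j < 8) :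
    YR n σ (j + 1) = RR n σ (16 + j) := by
  unfold YR
  split_ifs with h0
  · subst h0
    have := mem_I8.mp (prF_mem σ hσ)
    rw [row_zero σ hσ (16 + j) (by omega), if_neg (by omega)]
  · rw [Nat.add_sub_cancel]

theorem WR_eq (n : ℕ) (σ : Fin 4 → ℕ) (hσ : Val 9 σ) (j : ℕ) (hj : j < 8) :
    WR n σ (j + 1) = RR n σ (24 + j) := by
  unfold WR
  split_ifs with h0
  · subst h0
    have := mem_I8.mp (prF_mem σ hσ)
    rw [row_zero σ hσ (24 + j) (by omega), if_neg (by omega)]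
  · rw [Nat.add_sub_cancel]

/-- Sums over children of functions which agree on configurations. -/
theorem KS_congr {K : ℕ → ℕ → ℕ → ℝ} {σ : Fin 4 → ℕ} (hσ : Val 9 σ)
    {F F' : ℕ → (Fin 4 → ℕ) → ℝ} (h : ∀ m τ, Val 9 τ → F m τ = F' m τ) :
    KS I8 K σ F = KS I8 K σ F' := by
  unfold KS
  refine Finset.sum_congr rfl fun i _ => Finset.sum_congr rfl fun t ht =>
    Finset.sum_congr rfl fun m _ => ?_
  rw [h m _ (hσ.upd i (by have := mem_I8.mp ht; omega))]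

end Pool.Agent.U874.FT
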