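import Pool.Agent.U874.FT.B7

/-!
# The certificate
-/

set_option autoImplicit false

open Finset

namespace Pool.Agent.U874.FT

theorem ckk_spec (s : ℕ) (hs : s < 9) :
    (∑ t ∈ range 8, ∑ m ∈ range 3, Kd 1 s m (t + 1) = DD ∧
      ∑ t ∈ range 8, ∑ m ∈ range 3, Kd 3 s m (t + 1) = DD) ∧
    ∀ t < 8, Kd 3 s 2 (t + 1) = 0 ∧
      Kd 3 s 1 (t + 1) = Kd 1 s 1 (t + 1) + 2 * Kd 1 s 2 (t + 1) ∧
      Kd 3 s 0 (t + 1) + (Kd 1 s 2 (t + 1) + ∑ u ∈ range 8, Fl s (u + 1) (t + 1)) =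
        Kd 1 s 0 (t + 1) + ∑ u ∈ range 8, Fl s (t + 1) (u + 1) ∧
      ∀ u < 8, Fl s (t + 1) (u + 1) = 0 ∨ leb (t + 1) (u + 1) = true := by
  have h := ckk_ok
  unfold ckk at h
  rw [al_iff] at h
  have h1 := h s hs
  simp only [Bool.and_eq_true, Bool.or_eq_true, al_iff, Nat.beq_eq, sm_eq,
    Nat.add_eq, Nat.mul_eq, Nat.succ_eq_add_one] at h1
  exact h1

theorem cke_spec (s : ℕ) (hs : s < 9) :
    ((∑ t ∈ range 8, (25 * Kd 1 s 0 (t + 1) + (30 * Kd 1 s 1 (t + 1) +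
      36 * Kd 1 s 2 (t + 1))) ≤ 30200000) ∧
    (∑ t ∈ range 8, (25 * Kd 3 s 0 (t + 1) + (30 * Kd 3 s 1 (t + 1) +
      36 * Kd 3 s 2 (t + 1))) ≤ 30200000)) ∧
    ((∑ t ∈ range 8, (400 * Kd 1 s 0 (t + 1) + (420 * Kd 1 s 1 (t + 1) +
      441 * Kd 1 s 2 (t + 1))) ≤ 419900000) ∧
    (∑ t ∈ range 8, (Kd 1 s 1 (t + 1) + 2 * Kd 1 s 2 (t + 1)) ≤ 980000)) := by
  have h := cke_ok
  unfold cke at h
  rw [al_iff] at h
  have h1 := h s hs
  simp only [Bool.and_eq_true, Nat.ble_eq, sm_eq,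
    Nat.add_eq, Nat.mul_eq, Nat.succ_eq_add_one] at h1
  exact h1

theorem cko_spec : (∀ b < 9, (∀ i < 4, chN b i ≤ 8) ∧ leb b b = true ∧ 1 ≤ bet b ∧ bet b ≤ 8) ∧
    ∀ a < 9, ∀ b < 9, a = 0 ∨ a = b ∨ leb a b = false ∨
      (1 ≤ b ∧ ∀ i < 4, leb (chN a i) (chN b i) = true) := by
  have h := cko_ok
  unfold cko at h
  simp only [Bool.and_eq_true, Bool.or_eq_true, al_iff, Nat.beq_eq, Nat.ble_eq,
    Bool.not_eq_true'] at h
  refine ⟨h.1, fun a ha b hb => ?_⟩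
  rcases h.2 a ha b hb with h1 | h1 | h1 | h1
  · exact Or.inl h1
  · exact Or.inr (Or.inl h1)
  · exact Or.inr (Or.inr (Or.inl h1))
  · exact Or.inr (Or.inr (Or.inr h1))

theorem cks_spec (s : ℕ) (hs : s < 9) (j : ℕ) (hj : j < 8) :
    (j + 1 = bet s ∨ (SS * (Kd 1 s 0 (j + 1) + (Kd 1 s 1 (j + 1) + Kd 1 s 2 (j + 1))) ≤
      DD * dg j (RW (if s = 0 then 2 else 1) (code (chF s))) ∧
      (leb (bet s) (j + 1) = true ∨ dg j (RW (if s = 0 then 2 else 1) (code (chF s))) = 0))) ∧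
    DD * dg (16 + j) (RW (if s = 0 then 2 else 1) (code (chF s))) ≤
      SS * (Kd 1 s 1 (j + 1) + Kd 1 s 2 (j + 1)) ∧
    DD * dg (24 + j) (RW (if s = 0 then 2 else 1) (code (chF s))) ≤ SS * Kd 1 s 2 (j + 1) := by
  have h := cks_ok
  unfold cks at h
  rw [al_iff] at h
  have h1 := h s hs
  rw [sta_eq, al_iff] at h1
  have h2 := h1 j hj
  have e : RW (@Bool.rec (fun _ => ℕ) 1 2 (Nat.beq s 0))
      (cod (chN s 0) (chN s 1) (chN s 2) (chN s 3)) =
      RW (if s = 0 then 2 else 1) (code (chF s)) := by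
    have e1 : (@Bool.rec (fun _ => ℕ) 1 2 (Nat.beq s 0)) = if s = 0 then 2 else 1 := by
      cases s <;> rfl
    rw [e1]; rfl
  rw [e] at h2
  simp only [Bool.and_eq_true, Bool.or_eq_true, Nat.beq_eq, Nat.ble_eq,
    Nat.add_eq, Nat.mul_eq, Nat.succ_eq_add_one] at h2
  exact h2

theorem chF_lt (s : ℕ) (hs : s < 9) : Val 9 (chF s) := fun i => by
  have := (cko_spec.1 s hs).1 i.val i.isLt
  unfold chF
  omega

theorem leP_refl (t : ℕ) : leP t t := Or.inr (Or.inl rfl)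

theorem leP_zero (t : ℕ) : leP 0 t := Or.inl rfl

theorem leP_hle (a b : ℕ) (h : leP a b) :
    a = 0 ∨ a = b ∨ (b ≠ 0 ∧ ∀ i, leP (chF a i) (chF b i)) := by
  rcases h with h | h | ⟨ha, hb, h⟩
  · exact Or.inl h
  · exact Or.inr (Or.inl h)
  · rcases cko_spec.2 a ha b hb with h1 | h1 | h1 | ⟨h1, h2⟩
    · exact Or.inl h1
    · exact Or.inr (Or.inl h1)
    · rw [h1] at h; exact absurd h (by decide)
    · refine Or.inr (Or.inr ⟨by omega, fun i => Or.inr (Or.inr ⟨chF_lt a ha i, chF_lt b hb i,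
        h2 i.val i.isLt⟩)⟩)

theorem chF_zero (i : Fin 4) : chF 0 i = 0 := by
  fin_cases i <;> rfl

theorem dsum (f : ℕ → ℕ → ℕ) : (∑ t ∈ range 8, ∑ m ∈ range 3, ((f m (t + 1) : ℕ) : ℝ) / 1000000) =
    ((∑ t ∈ range 8, ∑ m ∈ range 3, f m (t + 1) : ℕ) : ℝ) / 1000000 := by
  push_cast
  rw [Finset.sum_div]
  refine Finset.sum_congr rfl fun t _ => ?_
  rw [Finset.sum_div]

theorem Kq_nonneg (n s m t : ℕ) : 0 ≤ Kq n s m t := by
  unfold Kq
  split_ifs
  · positivity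
  · exact le_rfl

theorem Kq_eq (n s m t : ℕ) (hs : s < 9) (hm : m < 3) (ht : t < 8) :
    Kq n s m (t + 1) = (Kd n s m (t + 1) : ℝ) / 1000000 := by
  unfold Kq
  rw [if_pos ⟨hs, hm, by omega, by omega⟩]

theorem fl_eq (s t u : ℕ) (hs : s < 9) (ht : t < 8) (hu : u < 8) :
    flR s (t + 1) (u + 1) = (Fl s (t + 1) (u + 1) : ℝ) / 1000000 := by
  unfold flR
  rw [if_pos ⟨hs, by omega, by omega, by omega, by omega⟩]

theorem Kq_sum (n : ℕ) (hn : n = 1 ∨ n = 3) (s : ℕ) (hs : s < 9) :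
    ∑ t ∈ I8, ∑ m ∈ range 3, Kq n s m t = 1 := by
  rw [sum_I8]
  have e : ∑ t ∈ range 8, ∑ m ∈ range 3, Kq n s m (t + 1) =
      ∑ t ∈ range 8, ∑ m ∈ range 3, ((Kd n s m (t + 1) : ℕ) : ℝ) / 1000000 :=
    Finset.sum_congr rfl fun t ht => Finset.sum_congr rfl fun m hm =>
      Kq_eq n s m t hs (Finset.mem_range.mp hm) (Finset.mem_range.mp ht)
  rw [e, dsum (fun m t => Kd n s m t)]
  rcases hn with rfl | rfl
  · rw [(ckk_spec s hs).1.1]; norm_num [DD]
  · rw [(ckk_spec s hs).1.2]; norm_num [DD]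

theorem Kq_E (n : ℕ) (hn : n = 1 ∨ n = 3) (s : ℕ) (hs : s < 9) :
    ∑ t ∈ I8, ∑ m ∈ range 3, Kq n s m t * (6 / 5 : ℝ) ^ m ≤ 151 / 125 := by
  rw [sum_I8]
  have e : ∑ t ∈ range 8, ∑ m ∈ range 3, Kq n s m (t + 1) * (6 / 5 : ℝ) ^ m =
      ((∑ t ∈ range 8, (25 * Kd n s 0 (t + 1) + (30 * Kd n s 1 (t + 1) +
      36 * Kd n s 2 (t + 1))) : ℕ) : ℝ) / 25000000 := by
    push_cast
    rw [Finset.sum_div]
    refine Finset.sum_congr rfl fun t ht => ?_
    rw [Finset.mem_range] at ht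
    rw [Finset.sum_range_succ, Finset.sum_range_succ, Finset.sum_range_one,
      Kq_eq n s 0 t hs (by norm_num) ht, Kq_eq n s 1 t hs (by norm_num) ht,
      Kq_eq n s 2 t hs (by norm_num) ht]
    ring
  rw [e, div_le_iff₀ (by norm_num)]
  have h : (∑ t ∈ range 8, (25 * Kd n s 0 (t + 1) + (30 * Kd n s 1 (t + 1) +
      36 * Kd n s 2 (t + 1)))) ≤ 30200000 := by
    rcases hn with rfl | rfl
    · exact (cke_spec s hs).1.1
    · exact (cke_spec s hs).1.2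
  have h' : ((∑ t ∈ range 8, (25 * Kd n s 0 (t + 1) + (30 * Kd n s 1 (t + 1) +
      36 * Kd n s 2 (t + 1))) : ℕ) : ℝ) ≤ 30200000 := by exact_mod_cast h
  linarith

theorem RR_sum (n : ℕ) (σ : Fin 4 → ℕ) (hσ : Val 9 σ) (hn : n ≤ 3) :
    ∑ t ∈ I8, PR n σ t = 1 := by
  rcases Nat.eq_zero_or_pos n with h0 | h0
  · subst h0
    have : ∀ t, PR 0 σ t = if t = prF σ then 1 else 0 := fun t => by unfold PR; rw [if_pos rfl]
    simp only [this]
    rw [Finset.sum_ite_eq' I8 (prF σ), if_pos (prF_mem σ hσ)]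
  · rw [sum_I8]
    have e1 : ∑ t ∈ range 8, PR n σ (t + 1) = ∑ t ∈ range 8, RR n σ t :=
      Finset.sum_congr rfl fun t ht => PR_eq n σ hσ t (Finset.mem_range.mp ht)
    rw [e1]
    obtain ⟨e, he, hm⟩ := sorted σ hσ
    have e2 : ∑ t ∈ range 8, RR n σ t = ∑ t ∈ range 8, RR n (σ ∘ e) t :=
      Finset.sum_congr rfl fun t _ => (RR_comp n σ e t).symm
    rw [e2]
    generalize σ ∘ e = τ at he hm
    have h := (ck_spec (ckn_spec (ckn_mono n h0 hn τ he hm))).2.1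
    unfold RR
    rw [← Finset.sum_div, ← Nat.cast_sum]
    have h2 : ∑ i ∈ range 8, dg i (RW n (code τ)) = SS := h
    rw [h2]
    norm_num [SS]

theorem cert_ok : Cert 9 I8 chF leP (Kq 1) (Kq 3) flR prF bF bet PR XR YR WR (151 / 125) where
  hI := fun t ht => by have := mem_I8.mp ht; omega
  hI0 := fun t ht => by have := mem_I8.mp ht; omega
  chT := chF_lt
  q0 := Kq_nonneg 1
  k0 := Kq_nonneg 3
  q3 := fun s m t hm => by unfold Kq; rw [if_neg (by omega)]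
  k2 := fun s m t hm => by
    unfold Kq
    split_ifs with h
    · obtain ⟨hs, hm3, ht1, ht8⟩ := h
      have hm2 : m = 2 := by omega
      obtain ⟨t, rfl⟩ : ∃ t', t = t' + 1 := ⟨t - 1, by omega⟩
      rw [hm2, ((ckk_spec s hs).2 t (by omega)).1]
      norm_num
    · rfl
  qs := Kq_sum 1 (Or.inl rfl)
  ks := Kq_sum 3 (Or.inr rfl)
  f0 := fun s t u => by
    unfold flR
    split_ifs
    · positivity
    · exact le_rfl
  fle := fun s t u h => by
    unfold flR at h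
    split_ifs at h with hc
    · obtain ⟨hs, ht1, ht8, hu1, hu8⟩ := hc
      obtain ⟨t, rfl⟩ : ∃ t', t = t' + 1 := ⟨t - 1, by omega⟩
      obtain ⟨u, rfl⟩ : ∃ u', u = u' + 1 := ⟨u - 1, by omega⟩
      rcases ((ckk_spec s hs).2 t (by omega)).2.2.2 u (by omega) with h1 | h1
      · rw [h1] at h; simp at h
      · exact Or.inr (Or.inr ⟨by omega, by omega, h1⟩)
    · exact absurd rfl h
  kf0 := fun s hs t ht => by
    obtain ⟨ht1, ht8⟩ := mem_I8.mp ht
    obtain ⟨t, rfl⟩ : ∃ t', t = t' + 1 := ⟨t - 1, by omega⟩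
    rw [sum_I8, sum_I8, Kq_eq _ _ _ _ hs (by norm_num) (by omega),
      Kq_eq _ _ _ _ hs (by norm_num) (by omega), Kq_eq _ _ _ _ hs (by norm_num) (by omega)]
    have e1 : ∑ u ∈ range 8, flR s (t + 1) (u + 1) =
        ((∑ u ∈ range 8, Fl s (t + 1) (u + 1) : ℕ) : ℝ) / 1000000 := by
      rw [Nat.cast_sum, Finset.sum_div]
      exact Finset.sum_congr rfl fun u hu => fl_eq s t u hs (by omega) (Finset.mem_range.mp hu)
    have e2 : ∑ u ∈ range 8, flR s (u + 1) (t + 1) =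
        ((∑ u ∈ range 8, Fl s (u + 1) (t + 1) : ℕ) : ℝ) / 1000000 := by
      rw [Nat.cast_sum, Finset.sum_div]
      exact Finset.sum_congr rfl fun u hu => fl_eq s u t hs (Finset.mem_range.mp hu) (by omega)
    rw [e1, e2]
    have h := ((ckk_spec s hs).2 t (by omega)).2.2.1
    have h' : (Kd 3 s 0 (t + 1) : ℝ) + (Kd 1 s 2 (t + 1) +
        ((∑ u ∈ range 8, Fl s (u + 1) (t + 1) : ℕ) : ℝ)) =
        Kd 1 s 0 (t + 1) + ((∑ u ∈ range 8, Fl s (t + 1) (u + 1) : ℕ) : ℝ) := by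
      exact_mod_cast h
    linarith
  kf1 := fun s hs t ht => by
    obtain ⟨ht1, ht8⟩ := mem_I8.mp ht
    obtain ⟨t, rfl⟩ : ∃ t', t = t' + 1 := ⟨t - 1, by omega⟩
    rw [Kq_eq _ _ _ _ hs (by norm_num) (by omega),
      Kq_eq _ _ _ _ hs (by norm_num) (by omega), Kq_eq _ _ _ _ hs (by norm_num) (by omega)]
    have h := ((ckk_spec s hs).2 t (by omega)).2.1
    rw [h]
    push_cast
    ring
  qE := Kq_E 1 (Or.inl rfl)
  kE := Kq_E 3 (Or.inr rfl)
  hE := by norm_num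
  prI := prF_mem
  prle := fun σ hσ => by
    obtain ⟨e, he, hm⟩ := sorted σ hσ
    obtain ⟨h1, _, h2, h3⟩ := ckp_spec (conf_mono (σ ∘ e) he hm).1
    have hpr : prF σ < 9 := by have := mem_I8.mp (prF_mem σ hσ); omega
    rw [← prF_comp σ e] at hpr ⊢
    set τ := σ ∘ e with hτ
    have h2' : ∀ i < 4, leb (chN (prF τ) i) (ent (τ 0) (τ 1) (τ 2) (τ 3)
        (PE (code τ) / 16 / 4 ^ i % 4)) = true := h2
    have h3' : ∀ i < 4, ∀ j < 4, i = j ∨
        PE (code τ) / 16 / 4 ^ i % 4 ≠ PE (code τ) / 16 / 4 ^ j % 4 := h3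
    let f : Fin 4 → Fin 4 := fun i => ⟨PE (code τ) / 16 / 4 ^ i.val % 4, Nat.mod_lt _ (by norm_num)⟩
    have hf : Function.Injective f := by
      intro i j hij
      have h4 : PE (code τ) / 16 / 4 ^ i.val % 4 = PE (code τ) / 16 / 4 ^ j.val % 4 :=
        congrArg Fin.val hij
      rcases h3' i.val i.isLt j.val j.isLt with h5 | h5
      · exact Fin.ext h5
      · exact absurd h4 h5
    refine ⟨(Equiv.ofBijective f (Finite.injective_iff_bijective.mp hf)).trans e, fun i => ?_⟩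
    have hent : ∀ k : Fin 4, ent (τ 0) (τ 1) (τ 2) (τ 3) k.val = τ k := by
      intro k; fin_cases k <;> rfl
    have h4 := h2' i.val i.isLt
    have h5 : ent (τ 0) (τ 1) (τ 2) (τ 3) (PE (code τ) / 16 / 4 ^ i.val % 4) = τ (f i) :=
      hent (f i)
    rw [h5] at h4
    exact Or.inr (Or.inr ⟨chF_lt _ hpr i, he (f i), h4⟩)
  P0 := fun n σ t => by
    unfold PR RR
    split_ifs
    · norm_num
    · norm_num
    · positivity
  X0 := fun n σ t => by
    unfold XR RR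
    split_ifs
    · norm_num
    · positivity
  Y0 := fun n σ t => by
    unfold YR RR
    split_ifs
    · norm_num
    · positivity
  W0 := fun n σ t => by
    unfold WR RR
    split_ifs
    · norm_num
    · positivity
  Pz := fun σ t => by unfold PR; rw [if_pos rfl]
  Xz := fun σ t => by unfold XR; rw [if_pos rfl]
  Yz := fun σ t => by unfold YR; rw [if_pos rfl]
  Wz := fun σ t => by unfold WR; rw [if_pos rfl]
  Ps := fun n σ hσ hn => RR_sum n σ hσ hn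
  sP := fun n σ e => by funext t; unfold PR; rw [prF_comp, RR_comp]
  sX := fun n σ e => by funext t; unfold XR; rw [RR_comp]
  sY := fun n σ e => by funext t; unfold YR; rw [RR_comp]
  sW := fun n σ e => by funext t; unfold WR; rw [RR_comp]
  iP := fun n σ hσ hm h1 h3 t ht => by
    obtain ⟨ht1, ht8⟩ := mem_I8.mp ht
    obtain ⟨j, rfl⟩ : ∃ t', t = t' + 1 := ⟨t - 1, by omega⟩
    have hj : j < 8 := by omega
    have hsp := (ck_spec (ckn_spec (ckn_mono n h1 h3 σ hσ hm))).2.2.2 j hj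
    have hb : bF σ < 9 ∧ bF σ ≠ 0 := by
      have h4 := mem_I8.mp (prF_mem σ hσ)
      have h5 := cko_spec.1 (prF σ) (by omega)
      unfold bF
      omega
    rcases hsp.1 with h | ⟨h, h'⟩
    · exact Or.inl h
    right
    rw [KS_congr hσ (F' := fun m τ => RR (n - 1 + m) τ j) (fun m τ hτ => PR_eq _ τ hτ j hj),
      acc_real n h1 h3 σ hσ j (by omega), PR_eq _ σ hσ j hj, PR_eq _ σ hσ j hj]
    set A := dg j (acc n (σ 0) (σ 1) (σ 2) (σ 3)) with hA
    have e1 : cod (σ 0) (σ 1) (σ 2) (σ 3) = code σ := rfl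
    rw [e1] at h h'
    unfold RR
    have hR : (5000000 : ℝ) * dg j (RW n (code σ)) ≤ A + 1000000 * dg j (RW (n - 1) (code σ)) := by
      have : 5 * DD * dg j (RW n (code σ)) ≤ A + DD * dg j (RW (n - 1) (code σ)) := h
      have h2 : 5000000 * dg j (RW n (code σ)) ≤ A + 1000000 * dg j (RW (n - 1) (code σ)) := this
      exact_mod_cast h2
    refine ⟨by linarith, ?_⟩
    rcases h' with h' | h'
    · left
      exact ⟨hb.2, Or.inr (Or.inr ⟨hb.1, by omega, h'⟩)⟩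
    · right
      have h2 : A + 1000000 * dg j (RW (n - 1) (code σ)) = 0 := h'
      have h3 : (A : ℝ) + 1000000 * dg j (RW (n - 1) (code σ)) = 0 := by exact_mod_cast h2
      have h4 : (0 : ℝ) ≤ dg j (RW n (code σ)) := Nat.cast_nonneg _
      have h5 : (dg j (RW n (code σ)) : ℝ) = 0 := by linarith
      rw [h5]
      linarith
  iX := fun n σ hσ hm h1 h3 t ht => by
    obtain ⟨ht1, ht8⟩ := mem_I8.mp ht
    obtain ⟨j, rfl⟩ : ∃ t', t = t' + 1 := ⟨t - 1, by omega⟩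
    have hj : j < 8 := by omega
    have hsp := ((ck_spec (ckn_spec (ckn_mono n h1 h3 σ hσ hm))).2.2.2 j hj).2.1
    rw [KS_congr hσ (F' := fun m τ => RR (n - 1 + m) τ (8 + j))
      (fun m τ hτ => XR_eq _ τ hτ j hj),
      acc_real n h1 h3 σ hσ (8 + j) (by omega), PR_eq _ σ hσ j hj, XR_eq _ σ hσ j hj,
      XR_eq _ σ hσ j hj]
    set A := dg (8 + j) (acc n (σ 0) (σ 1) (σ 2) (σ 3)) with hA
    unfold RR
    have hR : (A : ℝ) + 1000000 * (dg j (RW (n - 1) (code σ)) +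
        dg (8 + j) (RW (n - 1) (code σ))) ≤ 5000000 * dg (8 + j) (RW n (code σ)) := by
      have h2 : A + 1000000 * (dg j (RW (n - 1) (code σ)) +
        dg (8 + j) (RW (n - 1) (code σ))) ≤ 5000000 * dg (8 + j) (RW n (code σ)) := hsp
      exact_mod_cast h2
    linarith
  iY := fun n σ hσ hm h1 h3 t ht => by
    obtain ⟨ht1, ht8⟩ := mem_I8.mp ht
    obtain ⟨j, rfl⟩ : ∃ t', t = t' + 1 := ⟨t - 1, by omega⟩
    have hj : j < 8 := by omega
    have hsp := ((ck_spec (ckn_spec (ckn_mono n h1 h3 σ hσ hm))).2.2.2 j hj).2.2.1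
    rw [KS_congr hσ (F' := fun m τ => RR (n - 1 + m) τ (16 + j))
      (fun m τ hτ => YR_eq _ τ hτ j hj),
      acc_real n h1 h3 σ hσ (16 + j) (by omega), PR_eq _ σ hσ j hj, YR_eq _ σ hσ j hj]
    set A := dg (16 + j) (acc n (σ 0) (σ 1) (σ 2) (σ 3)) with hA
    unfold RR
    have hR : (A : ℝ) + 1000000 * dg j (RW (n - 1) (code σ)) ≤
        5000000 * dg (16 + j) (RW n (code σ)) := by
      have h2 : A + 1000000 * dg j (RW (n - 1) (code σ)) ≤
        5000000 * dg (16 + j) (RW n (code σ)) := hsp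
      exact_mod_cast h2
    linarith
  iW := fun n σ hσ hm h1 h3 t ht => by
    obtain ⟨ht1, ht8⟩ := mem_I8.mp ht
    obtain ⟨j, rfl⟩ : ∃ t', t = t' + 1 := ⟨t - 1, by omega⟩
    have hj : j < 8 := by omega
    have hsp := ((ck_spec (ckn_spec (ckn_mono n h1 h3 σ hσ hm))).2.2.2 j hj).2.2.2
    rw [KS_congr hσ (F' := fun m τ => RR (n - 1 + m) τ (24 + j))
      (fun m τ hτ => WR_eq _ τ hτ j hj),
      acc_real n h1 h3 σ hσ (24 + j) (by omega), XR_eq _ σ hσ j hj, WR_eq _ σ hσ j hj]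
    set A := dg (24 + j) (acc n (σ 0) (σ 1) (σ 2) (σ 3)) with hA
    unfold RR
    have hR : (A : ℝ) + 1000000 * dg (8 + j) (RW (n - 1) (code σ)) ≤
        5000000 * dg (24 + j) (RW n (code σ)) := by
      have h2 : A + 1000000 * dg (8 + j) (RW (n - 1) (code σ)) ≤
        5000000 * dg (24 + j) (RW n (code σ)) := hsp
      exact_mod_cast h2
    linarith
  fP := fun s hs t ht => by
    obtain ⟨ht1, ht8⟩ := mem_I8.mp ht
    obtain ⟨j, rfl⟩ : ∃ t', t = t' + 1 := ⟨t - 1, by omega⟩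
    have hj : j < 8 := by omega
    have hb := (cko_spec.1 s hs).2.2
    rcases (cks_spec s hs j hj).1 with h | ⟨h, h'⟩
    · exact Or.inl h
    right
    rw [PR_eq _ _ (chF_lt s hs) j hj, Kq_eq _ _ _ _ hs (by norm_num) hj,
      Kq_eq _ _ _ _ hs (by norm_num) hj, Kq_eq _ _ _ _ hs (by norm_num) hj]
    set r := dg j (RW (if s = 0 then 2 else 1) (code (chF s))) with hr
    have hrr : RR (if s = 0 then 2 else 1) (chF s) j = (r : ℝ) / 1000000000 := rfl
    rw [hrr]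
    have hR : (1000000000 : ℝ) * (Kd 1 s 0 (j + 1) + (Kd 1 s 1 (j + 1) + Kd 1 s 2 (j + 1))) ≤
        1000000 * r := by
      have h2 : 1000000000 * (Kd 1 s 0 (j + 1) + (Kd 1 s 1 (j + 1) + Kd 1 s 2 (j + 1))) ≤
        1000000 * r := h
      exact_mod_cast h2
    refine ⟨by linarith, ?_⟩
    rcases h' with h' | h'
    · left
      exact ⟨by omega, Or.inr (Or.inr ⟨by omega, by omega, h'⟩)⟩
    · right
      have h0 : (r : ℝ) = 0 := by exact_mod_cast h'
      rw [h0] at hR ⊢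
      have a0 : (0 : ℝ) ≤ Kd 1 s 0 (j + 1) := Nat.cast_nonneg _
      have a1 : (0 : ℝ) ≤ Kd 1 s 1 (j + 1) := Nat.cast_nonneg _
      have a2 : (0 : ℝ) ≤ Kd 1 s 2 (j + 1) := Nat.cast_nonneg _
      linarith
  fY := fun s hs t ht => by
    obtain ⟨ht1, ht8⟩ := mem_I8.mp ht
    obtain ⟨j, rfl⟩ : ∃ t', t = t' + 1 := ⟨t - 1, by omega⟩
    have hj : j < 8 := by omega
    have h := (cks_spec s hs j hj).2.1
    rw [YR_eq _ _ (chF_lt s hs) j hj, Kq_eq _ _ _ _ hs (by norm_num) hj,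
      Kq_eq _ _ _ _ hs (by norm_num) hj]
    set r := dg (16 + j) (RW (if s = 0 then 2 else 1) (code (chF s))) with hr
    have hrr : RR (if s = 0 then 2 else 1) (chF s) (16 + j) = (r : ℝ) / 1000000000 := rfl
    rw [hrr]
    have hR : (1000000 : ℝ) * r ≤ 1000000000 * (Kd 1 s 1 (j + 1) + Kd 1 s 2 (j + 1)) := by
      have h2 : 1000000 * r ≤ 1000000000 * (Kd 1 s 1 (j + 1) + Kd 1 s 2 (j + 1)) := h
      exact_mod_cast h2
    linarith
  fW := fun s hs t ht => by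
    obtain ⟨ht1, ht8⟩ := mem_I8.mp ht
    obtain ⟨j, rfl⟩ : ∃ t', t = t' + 1 := ⟨t - 1, by omega⟩
    have hj : j < 8 := by omega
    have h := (cks_spec s hs j hj).2.2
    rw [WR_eq _ _ (chF_lt s hs) j hj, Kq_eq _ _ _ _ hs (by norm_num) hj]
    set r := dg (24 + j) (RW (if s = 0 then 2 else 1) (code (chF s))) with hr
    have hrr : RR (if s = 0 then 2 else 1) (chF s) (24 + j) = (r : ℝ) / 1000000000 := rfl
    rw [hrr]
    have hR : (1000000 : ℝ) * r ≤ 1000000000 * Kd 1 s 2 (j + 1) := by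
      have h2 : 1000000 * r ≤ 1000000000 * Kd 1 s 2 (j + 1) := h
      exact_mod_cast h2
    linarith

end Pool.Agent.U874.FT
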