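import Pool.Agent.U874.FT.A3
import Pool.Agent.U874.FT.A5

/-!
# Induction over the levels of the tree
-/

set_option autoImplicit false

open Finset

namespace Pool.Agent.U874.FT

variable {H L : ℕ}

/-- Nothing of `x` and `Z` is in the subtree of `v`. -/
def OutV (v : V) (x : Multiset V) (Z : Finset V) : Prop :=
  (∀ z ∈ x, ¬ v <:+ z) ∧ ∀ z ∈ Z, ¬ v <:+ z

/-- The inequality for the subtrees with `h` generations. -/
def Hyp (H L T : ℕ) (I : Finset ℕ) (ch : ℕ → Fin 4 → ℕ) (q : ℕ → ℕ → ℕ → ℝ) (h : ℕ) : Prop :=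
  ∀ (i : Fin 4) (u : V), (i :: u).length + h = H + 1 → ∀ s < T, ∀ (x : Multiset V) (Z : Finset V),
    OutV (i :: u) x Z → U H L ((i :: u) ::ₘ x) (Z ∪ pat ch h s (i :: u)) ≤
      ∑ t ∈ I, ∑ m ∈ range 3, q s m t *
        U H L (Multiset.replicate m u + x) (Z ∪ pat ch h t (i :: u))

theorem pc_split (ch : ℕ → Fin 4 → ℕ) (h : ℕ) (σ : Fin 4 → ℕ) (v : V) (Z : Finset V) (j : Fin 4)
    (τ : Fin 4 → ℕ) (hτ : ∀ i, i ≠ j → τ i = σ i) :
    Z ∪ pc ch h τ v = (Z ∪ (Finset.univ.erase j).biUnion fun i => pat ch h (σ i) (i :: v)) ∪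
      pat ch h (τ j) (j :: v) := by
  ext z
  simp only [Finset.mem_union, mem_pc, Finset.mem_biUnion, Finset.mem_erase, Finset.mem_univ,
    and_true]
  constructor
  · rintro (h1 | ⟨i, hi⟩)
    · exact Or.inl (Or.inl h1)
    · by_cases hij : i = j
      · subst hij; exact Or.inr hi
      · left; right; exact ⟨i, hij, by rwa [← hτ i hij]⟩
  · rintro ((h1 | ⟨i, hij, hi⟩) | h1)
    · exact Or.inl h1
    · right; exact ⟨i, by rwa [hτ i hij]⟩
    · right; exact ⟨j, h1⟩

theorem suffix_len {v z : V} (h : v <:+ z) : v.length ≤ z.length := h.length_le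

theorem not_mem_pc (ch : ℕ → Fin 4 → ℕ) (h : ℕ) (σ : Fin 4 → ℕ) (v : V) : v ∉ pc ch h σ v := by
  intro hv
  obtain ⟨i, hi⟩ := mem_pc.mp hv
  have := (pat_suffix hi).length_le
  simp at this

theorem OutV.out {v : V} {x : Multiset V} {Z : Finset V} (h : OutV v x Z) : Out v x Z := by
  refine ⟨fun z hz ⟨i, hi⟩ => h.1 z hz ((List.suffix_cons i v).trans hi),
    fun z hz ⟨i, hi⟩ => h.2 z hz ((List.suffix_cons i v).trans hi)⟩

section

variable {T : ℕ} {I : Finset ℕ} {ch : ℕ → Fin 4 → ℕ} {le : ℕ → ℕ → Prop} {q : ℕ → ℕ → ℕ → ℝ}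

theorem G_step {h : ℕ} (hH : Hyp H L T I ch q h) (i : Fin 4) (u : V)
    (hlen : (i :: u).length + (h + 1) = H + 1) (x : Multiset V) (Z : Finset V)
    (ho : OutV (i :: u) x Z) (n N : ℕ) (σ : Fin 4 → ℕ) (hσ : Val T σ) :
    U H L (Multiset.replicate (n + 1) (i :: u) + (Multiset.replicate N u + x))
      (Z ∪ pc ch h σ (i :: u)) ≤
    (1 / 5) * U H L (Multiset.replicate n (i :: u) + (Multiset.replicate (N + 1) u + x))
      (Z ∪ pc ch h σ (i :: u)) +
    (1 / 5) * KS I q σ (fun m τ =>
      U H L (Multiset.replicate (n + m) (i :: u) + (Multiset.replicate N u + x))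
        (Z ∪ pc ch h τ (i :: u))) := by
  set v : V := i :: u with hv
  set x' : Multiset V := Multiset.replicate n v + (Multiset.replicate N u + x) with hx'
  have hvZ : v ∉ Z ∪ pc ch h σ v := by
    rw [Finset.mem_union]
    rintro (h1 | h1)
    · exact ho.2 v h1 List.suffix_rfl
    · exact not_mem_pc ch h σ v h1
  have e0 : Multiset.replicate (n + 1) v + (Multiset.replicate N u + x) = v ::ₘ x' := by
    rw [Multiset.replicate_succ, Multiset.cons_add]
  rw [e0]
  refine (U_step_child i u x' _ hvZ).trans ?_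
  have e1 : Multiset.replicate n v + (Multiset.replicate (N + 1) u + x) = u ::ₘ x' := by
    rw [Multiset.replicate_succ, Multiset.cons_add, Multiset.add_cons]
  rw [e1]
  refine add_le_add_right ?_ _
  refine mul_le_mul_of_nonneg_left ?_ (by norm_num)
  unfold KS
  refine Finset.sum_le_sum fun j _ => ?_
  have h1 := hH j v (by simp only [List.length_cons, hv] at hlen ⊢; omega) (σ j) (hσ j) x'
    (Z ∪ (Finset.univ.erase j).biUnion fun i => pat ch h (σ i) (i :: v)) ?_
  · rw [← pc_split ch h σ v Z j σ (fun _ _ => rfl)] at h1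
    refine h1.trans (le_of_eq ?_)
    refine Finset.sum_congr rfl fun t _ => Finset.sum_congr rfl fun m _ => ?_
    have h2 := pc_split ch h σ v Z j (Function.update σ j t)
      (fun i hi => by rw [Function.update_of_ne hi])
    rw [Function.update_self] at h2
    beta_reduce
    rw [h2]
    have h3 : Multiset.replicate (n + m) v + (Multiset.replicate N u + x) =
        Multiset.replicate m v + x' := by
      rw [hx', ← add_assoc (Multiset.replicate m v), ← Multiset.replicate_add, add_comm m n]
    rw [h3]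
  · constructor
    · intro z hz
      rw [hx', Multiset.mem_add, Multiset.mem_add] at hz
      intro hs
      rcases hz with hz | hz | hz
      · rw [Multiset.eq_of_mem_replicate hz] at hs
        have := hs.length_le
        simp at this
      · rw [Multiset.eq_of_mem_replicate hz] at hs
        have := hs.length_le
        simp only [hv, List.length_cons] at this
        omega
      · exact ho.1 z hz ((List.suffix_cons j v).trans hs)
    · intro z hz hs
      rw [Finset.mem_union, Finset.mem_biUnion] at hz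
      rcases hz with hz | ⟨k, hk, hz⟩
      · exact ho.2 z hz ((List.suffix_cons j v).trans hs)
      · have h4 := pat_suffix hz
        have h5 : j :: v = k :: v := by
          rcases List.suffix_or_suffix_of_suffix hs h4 with h6 | h6
          · exact h6.eq_of_length (by simp)
          · exact (h6.eq_of_length (by simp)).symm
        have h6 : j = k := by
          have := congrArg List.head? h5
          simpa using this
        exact (Finset.mem_erase.mp hk).1 h6.symm

theorem G_Gp {h : ℕ} (hH : Hyp H L T I ch q h)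
    (hle : ∀ a b, le a b → a = 0 ∨ a = b ∨ (b ≠ 0 ∧ ∀ i, le (ch a i) (ch b i)))
    (hb : ∀ i, ch 0 i = 0) (h0 : ∀ b, le 0 b) (i : Fin 4) (u : V)
    (hlen : (i :: u).length + (h + 1) = H + 1) (x : Multiset V) (Z : Finset V)
    (ho : OutV (i :: u) x Z) :
    Gp T I ch le q (fun n N σ =>
      U H L (Multiset.replicate n (i :: u) + (Multiset.replicate N u + x))
        (Z ∪ pc ch h σ (i :: u))) := by
  have hge : ∀ n N (σ σ' : Fin 4 → ℕ), (∀ j, le (σ j) (σ' j)) →
      U H L (Multiset.replicate n (i :: u) + (Multiset.replicate N u + x))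
        (Z ∪ pc ch h σ' (i :: u)) ≤
      U H L (Multiset.replicate n (i :: u) + (Multiset.replicate N u + x))
        (Z ∪ pc ch h σ (i :: u)) := by
    intro n N σ σ' hj
    refine U_mono_right _ (Finset.union_subset_union (Finset.Subset.refl _) ?_)
    refine Finset.biUnion_subset.mpr fun j _ => ?_
    refine Finset.Subset.trans (Finset.map_subset_map.mpr
      (rel_sub le hle hb h0 h _ _ (hj j))) ?_
    exact Finset.subset_biUnion_of_mem (fun j => (rel ch h (σ j)).map (below (j :: i :: u)))
      (Finset.mem_univ j)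
  have houtn : ∀ n N, Out (i :: u) (Multiset.replicate n (i :: u) + (Multiset.replicate N u + x))
      Z := by
    intro n N
    refine ⟨fun z hz => ?_, ho.out.2⟩
    rintro ⟨j, hs⟩
    rw [Multiset.mem_add, Multiset.mem_add] at hz
    rcases hz with hz | hz | hz
    · rw [Multiset.eq_of_mem_replicate hz] at hs
      have := hs.length_le
      simp at this
    · rw [Multiset.eq_of_mem_replicate hz] at hs
      have := hs.length_le
      simp only [List.length_cons] at this
      omega
    · exact ho.out.1 z hz ⟨j, hs⟩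
  refine ⟨?_, ?_, ?_, ?_, ?_, ?_, ?_, ?_, ?_⟩
  · intro n N σ hσ
    exact G_step hH i u hlen x Z ho n N σ hσ
  · intro n N σ e
    exact U_pc_perm h σ (i :: u) e _ Z (houtn n N)
  · intro n N σ
    have := U_conc (H := H) (L := L) (i :: u)
      (Multiset.replicate n (i :: u) + (Multiset.replicate N u + x)) (Z ∪ pc ch h σ (i :: u))
    rw [Multiset.replicate_succ, Multiset.replicate_succ, Multiset.cons_add, Multiset.cons_add]
    linarith
  · intro N σ
    have := U_conc (H := H) (L := L) u
      (Multiset.replicate N u + x) (Z ∪ pc ch h σ (i :: u))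
    rw [Multiset.replicate_zero, zero_add, zero_add, zero_add, Multiset.replicate_succ,
      Multiset.replicate_succ, Multiset.cons_add, Multiset.cons_add]
    linarith
  · intro N σ
    rw [Multiset.replicate_zero, zero_add, zero_add, Multiset.replicate_succ, Multiset.cons_add]
    exact U_le_cons _ _ _
  · intro n N σ
    exact U_nonneg _ _
  · intro n N σ σ' hj
    exact hge n N σ σ' hj
  · intro N t t' ht htt
    rcases hle t t' htt with h1 | h1 | ⟨_, h1⟩
    · exact absurd h1 ht
    · subst h1; exact le_rfl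
    · exact hge 0 N _ _ h1
  · set K : ℕ := Multiset.card x + (Z ∪ pc ch h (fun _ => 0) (i :: u)).card with hK
    refine ⟨(10 + K) * (L + 1), by positivity, fun n N σ _ _ => ?_⟩
    have h1 := hge n N (fun _ => 0) σ fun j => h0 _
    have h2 := U_grow (H := H) (L := L)
      (Multiset.replicate n (i :: u) + (Multiset.replicate N u + x))
      (Z ∪ pc ch h (fun _ => 0) (i :: u))
    have h3 : Multiset.card (Multiset.replicate n (i :: u) + (Multiset.replicate N u + x)) +
        (Z ∪ pc ch h (fun _ => 0) (i :: u)).card = n + N + K := by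
      rw [Multiset.card_add, Multiset.card_add, Multiset.card_replicate, Multiset.card_replicate]
      omega
    rw [h3] at h2
    refine h1.trans (h2.trans ?_)
    have h4 : (1 : ℝ) + n * (1 / 5) ≤ (6 / 5 : ℝ) ^ n := by
      have := one_add_mul_le_pow (a := (1 / 5 : ℝ)) (by norm_num) n
      have e : (1 : ℝ) + 1 / 5 = 6 / 5 := by norm_num
      rwa [e] at this
    have h5 : (1 : ℝ) + N * (1 / 10) ≤ (11 / 10 : ℝ) ^ N := by
      have := one_add_mul_le_pow (a := (1 / 10 : ℝ)) (by norm_num) N
      have e : (1 : ℝ) + 1 / 10 = 11 / 10 := by norm_num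
      rwa [e] at this
    have h6 : (1 : ℝ) + n * (1 / 5) + N * (1 / 10) ≤ (6 / 5 : ℝ) ^ n * (11 / 10 : ℝ) ^ N := by
      have hn : (0 : ℝ) ≤ n := Nat.cast_nonneg n
      have hN : (0 : ℝ) ≤ N := Nat.cast_nonneg N
      calc (1 : ℝ) + n * (1 / 5) + N * (1 / 10) ≤ (1 + n * (1 / 5)) * (1 + N * (1 / 10)) := by
            nlinarith [mul_nonneg hn hN]
        _ ≤ _ := mul_le_mul h4 h5 (by positivity) (by positivity)
    have h7 : ((n + N + K : ℕ) : ℝ) ≤ (10 + K) * ((6 / 5 : ℝ) ^ n * (11 / 10 : ℝ) ^ N) := by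
      have hn : (0 : ℝ) ≤ n := Nat.cast_nonneg n
      have hN : (0 : ℝ) ≤ N := Nat.cast_nonneg N
      have hKK : (0 : ℝ) ≤ K := Nat.cast_nonneg K
      refine le_trans ?_ (mul_le_mul_of_nonneg_left h6 (by positivity))
      push_cast
      nlinarith [mul_nonneg hKK hn, mul_nonneg hKK hN]
    calc ((n + N + K : ℕ) : ℝ) * (L + 1) ≤
          ((10 + K) * ((6 / 5 : ℝ) ^ n * (11 / 10 : ℝ) ^ N)) * (L + 1) :=
            mul_le_mul_of_nonneg_right h7 (by positivity)
      _ = _ := by ring

/-- Induction. -/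
theorem Hyp_all {kc fl : ℕ → ℕ → ℕ → ℝ} {pr b : (Fin 4 → ℕ) → ℕ} {β : ℕ → ℕ}
    {P X Y W : ℕ → (Fin 4 → ℕ) → ℕ → ℝ} {E : ℝ}
    (hC : Cert T I ch le q kc fl pr b β P X Y W E) (hrefl : ∀ t, le t t)
    (hle : ∀ a b, le a b → a = 0 ∨ a = b ∨ (b ≠ 0 ∧ ∀ i, le (ch a i) (ch b i)))
    (hb : ∀ i, ch 0 i = 0) (h0 : ∀ b, le 0 b) : ∀ h, Hyp H L T I ch q h := by
  intro h
  induction h with
  | zero =>
    intro i u hlen s hs x Z ho
    have hp : ∀ t, pat ch 0 t (i :: u) = ∅ := fun t => by simp [pat, rel]
    simp only [hp, Finset.union_empty]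
    rw [U_dead (i :: u) (by omega) x Z fun hz => ho.2 _ hz List.suffix_rfl]
    calc U H L x Z = ∑ t ∈ I, ∑ m ∈ range 3, q s m t * U H L x Z := by
          simp only [← Finset.sum_mul]
          rw [hC.qs s hs, one_mul]
      _ ≤ _ := Finset.sum_le_sum fun t _ => Finset.sum_le_sum fun m _ =>
          mul_le_mul_of_nonneg_left (U_le_add _ _ _) (hC.q0 _ _ _)
  | succ h ih =>
    intro i u hlen s hs x Z ho
    have hGp := G_Gp (le := le) ih hle hb h0 i u hlen x Z ho
    have hcomp := comparison hC hGp hrefl s hs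
    have hvZ : (i :: u) ∉ Z ∪ pc ch h (ch s) (i :: u) := by
      rw [Finset.mem_union]
      rintro (h1 | h1)
      · exact ho.2 _ h1 List.suffix_rfl
      · exact not_mem_pc ch h _ _ h1
    have h1 : U H L ((i :: u) ::ₘ x) (Z ∪ pat ch (h + 1) s (i :: u)) ≤
        U H L (Multiset.replicate (if s = 0 then 2 else 1) (i :: u) +
          (Multiset.replicate 0 u + x)) (Z ∪ pc ch h (ch s) (i :: u)) := by
      rw [pat_succ, Multiset.replicate_zero, zero_add]
      by_cases hs0 : s = 0
      · rw [if_pos hs0, if_pos hs0]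
        have e : Z ∪ ({i :: u} ∪ pc ch h (ch s) (i :: u)) =
            insert (i :: u) (Z ∪ pc ch h (ch s) (i :: u)) := by
          ext z
          simp only [Finset.mem_union, Finset.mem_insert, Finset.mem_singleton]
          tauto
        rw [e]
        refine (U_wake _ _ _ hvZ).trans (le_of_eq ?_)
        rw [Multiset.replicate_succ, Multiset.replicate_one, Multiset.cons_add,
          Multiset.singleton_add]
      · rw [if_neg hs0, if_neg hs0, Finset.empty_union]
        refine le_of_eq ?_
        rw [Multiset.replicate_one, Multiset.singleton_add]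
    refine h1.trans (hcomp.trans (le_of_eq ?_))
    refine Finset.sum_congr rfl fun t ht => Finset.sum_congr rfl fun m _ => ?_
    rw [pat_succ, if_neg (hC.hI0 t ht), Finset.empty_union, Multiset.replicate_zero, zero_add]

end

end Pool.Agent.U874.FT
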