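import Pool.Agent.U874.FT.C1
import Pool.Agent.U874.FT.B8

/-!
# Bound at the root
-/

set_option autoImplicit false

open Finset Filter Topology

namespace Pool.Agent.U874.FT

variable {H L : ℕ}

theorem hyp_ok (h : ℕ) : Hyp H L 9 I8 chF (Kq 1) h :=
  Hyp_all cert_ok leP_refl leP_hle chF_zero leP_zero h

theorem root_step (n : ℕ) (σ : Fin 4 → ℕ) (hσ : Val 9 σ) :
    U H L (Multiset.replicate (n + 1) []) (pc chF H σ []) ≤ 1 + (1 / 4) *
      KS I8 (Kq 1) σ (fun m τ => U H L (Multiset.replicate (n + m) []) (pc chF H τ [])) := by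
  rw [Multiset.replicate_succ]
  refine (U_step_root _ _ (not_mem_pc chF H σ [])).trans ?_
  refine add_le_add_right ?_ _
  refine mul_le_mul_of_nonneg_left ?_ (by norm_num)
  unfold KS
  refine Finset.sum_le_sum fun j _ => ?_
  have h1 := hyp_ok (H := H) (L := L) H j [] (by simp; omega) (σ j) (hσ j)
    (Multiset.replicate n [])
    (∅ ∪ (Finset.univ.erase j).biUnion fun i => pat chF H (σ i) (i :: [])) ?_
  · have e1 := pc_split chF H σ [] ∅ j σ (fun _ _ => rfl)
    rw [← e1, Finset.empty_union] at h1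
    refine h1.trans (le_of_eq ?_)
    refine Finset.sum_congr rfl fun t _ => Finset.sum_congr rfl fun m _ => ?_
    have h2 := pc_split chF H σ [] ∅ j (Function.update σ j t)
      (fun i hi => by rw [Function.update_of_ne hi])
    rw [Function.update_self, Finset.empty_union] at h2
    beta_reduce
    rw [h2, ← Multiset.replicate_add, add_comm m n]
  · constructor
    · intro z hz hs
      rw [Multiset.eq_of_mem_replicate hz] at hs
      have := hs.length_le
      simp at this
    · intro z hz hs
      rw [Finset.empty_union, Finset.mem_biUnion] at hz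
      obtain ⟨k, hk, hz⟩ := hz
      have h4 := pat_suffix hz
      have h5 : j :: ([] : V) = k :: [] := by
        rcases List.suffix_or_suffix_of_suffix hs h4 with h6 | h6
        · exact h6.eq_of_length (by simp)
        · exact (h6.eq_of_length (by simp)).symm
      have h6 : j = k := by
        have := congrArg List.head? h5
        simpa using this
      exact (Finset.mem_erase.mp hk).1 h6.symm

theorem Kq_mean (s : ℕ) (hs : s < 9) :
    ∑ t ∈ I8, ∑ m ∈ range 3, Kq 1 s m t * (m : ℝ) ≤ 49 / 50 := by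
  rw [sum_I8]
  have e : ∑ t ∈ range 8, ∑ m ∈ range 3, Kq 1 s m (t + 1) * (m : ℝ) =
      ((∑ t ∈ range 8, (Kd 1 s 1 (t + 1) + 2 * Kd 1 s 2 (t + 1)) : ℕ) : ℝ) / 1000000 := by
    push_cast
    rw [Finset.sum_div]
    refine Finset.sum_congr rfl fun t ht => ?_
    rw [Finset.mem_range] at ht
    rw [Finset.sum_range_succ, Finset.sum_range_succ, Finset.sum_range_one,
      Kq_eq 1 s 0 t hs (by norm_num) ht, Kq_eq 1 s 1 t hs (by norm_num) ht,
      Kq_eq 1 s 2 t hs (by norm_num) ht]
    push_cast
    ring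
  rw [e, div_le_iff₀ (by norm_num)]
  have h' : ((∑ t ∈ range 8, (Kd 1 s 1 (t + 1) + 2 * Kd 1 s 2 (t + 1)) : ℕ) : ℝ) ≤ 980000 := by
    exact_mod_cast (cke_spec s hs).2.2
  linarith

theorem Kq_exp (s : ℕ) (hs : s < 9) :
    ∑ t ∈ I8, ∑ m ∈ range 3, Kq 1 s m t * (21 / 20 : ℝ) ^ m ≤ (4199 / 4200) * (21 / 20) := by
  rw [sum_I8]
  have e : ∑ t ∈ range 8, ∑ m ∈ range 3, Kq 1 s m (t + 1) * (21 / 20 : ℝ) ^ m =
      ((∑ t ∈ range 8, (400 * Kd 1 s 0 (t + 1) + (420 * Kd 1 s 1 (t + 1) +
      441 * Kd 1 s 2 (t + 1))) : ℕ) : ℝ) / 400000000 := by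
    push_cast
    rw [Finset.sum_div]
    refine Finset.sum_congr rfl fun t ht => ?_
    rw [Finset.mem_range] at ht
    rw [Finset.sum_range_succ, Finset.sum_range_succ, Finset.sum_range_one,
      Kq_eq 1 s 0 t hs (by norm_num) ht, Kq_eq 1 s 1 t hs (by norm_num) ht,
      Kq_eq 1 s 2 t hs (by norm_num) ht]
    ring
  rw [e, div_le_iff₀ (by norm_num)]
  have h' : ((∑ t ∈ range 8, (400 * Kd 1 s 0 (t + 1) + (420 * Kd 1 s 1 (t + 1) +
      441 * Kd 1 s 2 (t + 1))) : ℕ) : ℝ) ≤ 419900000 := by
    exact_mod_cast (cke_spec s hs).2.1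
  linarith

/-- The expected number of visits with `n` frogs at the root. -/
theorem root_all (n : ℕ) (σ : Fin 4 → ℕ) (hσ : Val 9 σ) :
    U H L (Multiset.replicate n []) (pc chF H σ []) ≤ 50 * n := by
  obtain ⟨C, hC0, hC⟩ : ∃ C : ℝ, 0 ≤ C ∧ ∀ n σ, Val 9 σ →
      U H L (Multiset.replicate n []) (pc chF H σ []) ≤ C * (21 / 20 : ℝ) ^ n := by
    set K : ℕ := (pc chF H (fun _ => 0) []).card with hK
    refine ⟨(20 + K) * (L + 1), by positivity, fun n σ _ => ?_⟩
    have h1 : U H L (Multiset.replicate n []) (pc chF H σ []) ≤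
        U H L (Multiset.replicate n []) (pc chF H (fun _ => 0) []) := by
      refine U_mono_right _ ?_
      refine Finset.biUnion_subset.mpr fun j _ => ?_
      refine Finset.Subset.trans (Finset.map_subset_map.mpr
        (rel_sub leP leP_hle chF_zero leP_zero H _ _ (leP_zero (σ j)))) ?_
      exact Finset.subset_biUnion_of_mem (fun j => (rel chF H 0).map (below (j :: [])))
        (Finset.mem_univ j)
    have h2 := U_grow (H := H) (L := L) (Multiset.replicate n []) (pc chF H (fun _ => 0) [])
    rw [Multiset.card_replicate, ← hK] at h2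
    refine h1.trans (h2.trans ?_)
    have h4 : (1 : ℝ) + n * (1 / 20) ≤ (21 / 20 : ℝ) ^ n := by
      have := one_add_mul_le_pow (a := (1 / 20 : ℝ)) (by norm_num) n
      have e : (1 : ℝ) + 1 / 20 = 21 / 20 := by norm_num
      rwa [e] at this
    have hn : (0 : ℝ) ≤ n := Nat.cast_nonneg n
    have hKK : (0 : ℝ) ≤ K := Nat.cast_nonneg K
    have h7 : ((n + K : ℕ) : ℝ) ≤ (20 + K) * (21 / 20 : ℝ) ^ n := by
      refine le_trans ?_ (mul_le_mul_of_nonneg_left h4 (by positivity))
      push_cast
      nlinarith [mul_nonneg hKK hn]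
    calc ((n + K : ℕ) : ℝ) * (L + 1) ≤ ((20 + K) * (21 / 20 : ℝ) ^ n) * (L + 1) :=
          mul_le_mul_of_nonneg_right h7 (by positivity)
      _ = _ := by ring
  have claim : ∀ k : ℕ, ∀ n σ, Val 9 σ →
      U H L (Multiset.replicate n []) (pc chF H σ []) - 50 * n ≤
        C * (4199 / 4200 : ℝ) ^ k * (21 / 20 : ℝ) ^ n := by
    intro k
    induction k with
    | zero =>
      intro n σ hσ
      have := hC n σ hσ
      have hn : (0 : ℝ) ≤ n := Nat.cast_nonneg n
      rw [pow_zero, mul_one]
      linarith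
    | succ k ih =>
      intro n σ hσ
      cases n with
      | zero =>
        rw [Multiset.replicate_zero, U_zero]
        have : 0 ≤ C * (4199 / 4200 : ℝ) ^ (k + 1) * (21 / 20 : ℝ) ^ 0 := by positivity
        push_cast
        linarith
      | succ n =>
        have h1 := root_step (H := H) (L := L) n σ hσ
        have h2 : KS I8 (Kq 1) σ
            (fun m τ => U H L (Multiset.replicate (n + m) []) (pc chF H τ [])) ≤
            KS I8 (Kq 1) σ (fun m _ => 50 * (n : ℝ) + 50 * m +
              (C * (4199 / 4200 : ℝ) ^ k * (21 / 20 : ℝ) ^ n) * (21 / 20 : ℝ) ^ m) := by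
          refine KS_mono (Kq_nonneg 1) σ fun m hm i t ht hne => ?_
          have h3 := ih (n + m) (Function.update σ i t)
            (hσ.upd i (by have := mem_I8.mp ht; omega))
          rw [pow_add] at h3
          push_cast at h3
          linarith
        have h3 : KS I8 (Kq 1) σ (fun m _ => 50 * (n : ℝ) + 50 * m +
              (C * (4199 / 4200 : ℝ) ^ k * (21 / 20 : ℝ) ^ n) * (21 / 20 : ℝ) ^ m) ≤
            4 * (50 * n + 49 + (C * (4199 / 4200 : ℝ) ^ k * (21 / 20 : ℝ) ^ n) *
              ((4199 / 4200) * (21 / 20))) := by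
          have h4 : ∀ i : Fin 4, ∑ t ∈ I8, ∑ m ∈ range 3, Kq 1 (σ i) m t *
              (50 * (n : ℝ) + 50 * m +
              (C * (4199 / 4200 : ℝ) ^ k * (21 / 20 : ℝ) ^ n) * (21 / 20 : ℝ) ^ m) ≤
              50 * n + 49 + (C * (4199 / 4200 : ℝ) ^ k * (21 / 20 : ℝ) ^ n) *
              ((4199 / 4200) * (21 / 20)) := by
            intro i
            have e : ∑ t ∈ I8, ∑ m ∈ range 3, Kq 1 (σ i) m t *
              (50 * (n : ℝ) + 50 * m +
              (C * (4199 / 4200 : ℝ) ^ k * (21 / 20 : ℝ) ^ n) * (21 / 20 : ℝ) ^ m) =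
              50 * n * (∑ t ∈ I8, ∑ m ∈ range 3, Kq 1 (σ i) m t) +
              50 * (∑ t ∈ I8, ∑ m ∈ range 3, Kq 1 (σ i) m t * (m : ℝ)) +
              (C * (4199 / 4200 : ℝ) ^ k * (21 / 20 : ℝ) ^ n) *
                (∑ t ∈ I8, ∑ m ∈ range 3, Kq 1 (σ i) m t * (21 / 20 : ℝ) ^ m) := by
              simp only [Finset.mul_sum]
              rw [← Finset.sum_add_distrib, ← Finset.sum_add_distrib]
              refine Finset.sum_congr rfl fun t _ => ?_
              rw [← Finset.sum_add_distrib, ← Finset.sum_add_distrib]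
              refine Finset.sum_congr rfl fun m _ => by ring
            rw [e, Kq_sum 1 (Or.inl rfl) (σ i) (hσ i)]
            have h5 := Kq_mean (σ i) (hσ i)
            have h6 := mul_le_mul_of_nonneg_left (Kq_exp (σ i) (hσ i))
              (by positivity : 0 ≤ C * (4199 / 4200 : ℝ) ^ k * (21 / 20 : ℝ) ^ n)
            linarith
          unfold KS
          refine (Finset.sum_le_sum fun i _ => h4 i).trans (le_of_eq ?_)
          rw [Finset.sum_const, Finset.card_univ, Fintype.card_fin, nsmul_eq_mul]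
          norm_num
        have h8 : C * (4199 / 4200 : ℝ) ^ (k + 1) * (21 / 20 : ℝ) ^ (n + 1) =
            (C * (4199 / 4200 : ℝ) ^ k * (21 / 20 : ℝ) ^ n) * ((4199 / 4200) * (21 / 20)) := by
          rw [pow_succ, pow_succ]; ring
        rw [h8]
        push_cast
        linarith [h1, h2.trans h3]
  have ht : Tendsto (fun k : ℕ => C * (4199 / 4200 : ℝ) ^ k * (21 / 20 : ℝ) ^ n) atTop
      (𝓝 (C * 0 * (21 / 20 : ℝ) ^ n)) :=
    ((tendsto_pow_atTop_nhds_zero_of_lt_one (by norm_num) (by norm_num)).const_mul C).mul_const _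
  have := ge_of_tendsto' ht fun k => claim k n σ hσ
  rw [mul_zero, zero_mul] at this
  linarith

/-- The expected number of visits, uniformly in the depth `H` and the lifetime `L`. -/
theorem root_bound (H L : ℕ) : U H L {[]} (pc chF H (fun _ => 0) []) ≤ 50 := by
  have h := root_all (H := H) (L := L) 1 (fun _ => 0) (fun _ => by norm_num)
  rw [Multiset.replicate_one] at h
  push_cast at h
  linarith

theorem mem_rel_zero : ∀ (h : ℕ) (w : V), w ∈ rel chF h 0 ↔ w.length < h := by
  intro h
  induction h with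
  | zero => intro w; simp [rel]
  | succ h ih =>
    intro w
    rw [rel, if_pos rfl, Finset.mem_union, Finset.mem_singleton, Finset.mem_biUnion]
    constructor
    · rintro (h1 | ⟨i, _, hi⟩)
      · subst h1; simp
      · rw [Finset.mem_map] at hi
        obtain ⟨w', hw', rfl⟩ := hi
        rw [chF_zero, ih] at hw'
        simp only [below_apply, List.length_append, List.length_cons, List.length_nil]
        omega
    · intro hw
      rcases List.eq_nil_or_concat w with h1 | ⟨w', i, rfl⟩
      · exact Or.inl h1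
      · right
        refine ⟨i, Finset.mem_univ _, Finset.mem_map.mpr ⟨w', ?_, ?_⟩⟩
        · rw [chF_zero, ih]
          simp only [List.length_append, List.length_cons, List.length_nil,
            List.concat_eq_append] at hw
          omega
        · simp [below_apply]

theorem mem_all (H : ℕ) (w : V) : w ∈ pc chF H (fun _ => 0) [] ↔ w ≠ [] ∧ w.length ≤ H := by
  rw [mem_pc]
  constructor
  · rintro ⟨i, hi⟩
    obtain ⟨w', hw', rfl⟩ := mem_pat.mp hi
    rw [mem_rel_zero] at hw'
    refine ⟨by simp, ?_⟩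
    simp only [List.length_append, List.length_cons, List.length_nil]
    omega
  · rintro ⟨h1, h2⟩
    rcases List.eq_nil_or_concat w with h3 | ⟨w', i, rfl⟩
    · exact absurd h3 h1
    · refine ⟨i, mem_pat.mpr ⟨w', ?_, by simp⟩⟩
      rw [mem_rel_zero]
      simp only [List.length_append, List.length_cons, List.length_nil,
        List.concat_eq_append] at h2
      omega

end Pool.Agent.U874.FT
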