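import Pool.Agent.U874.FT.A1

/-!
# Exploration of the true model: deterministic part
-/

set_option autoImplicit false

open Finset

namespace Pool.Agent.U874.FT

/-- Number of visits of the root found by the exploration with the paths `p`. -/
noncomputable def Ex (p : V → List V) : ℕ → List V → Finset V → ℕ
  | 0, _, _ => 0
  | _ + 1, [], _ => 0
  | n + 1, z :: l, Z => (p z).count [] +
      Ex p n ((Z.filter (· ∈ p z)).toList ++ l) (Z.filter (· ∉ p z))

/-- Frogs woken in the exploration. -/
inductive Rc (p : V → List V) (l : List V) (Z : Finset V) : V → Prop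
  | base {v : V} : v ∈ l → Rc p l Z v
  | step {u v : V} : Rc p l Z u → v ∈ p u → v ∈ Z → Rc p l Z v

theorem Rc_nil (p : V → List V) (Z : Finset V) (v : V) : ¬ Rc p [] Z v := by
  intro h
  induction h with
  | base h => simp at h
  | step _ _ _ ih => exact ih

theorem Rc_cons (p : V → List V) (z : V) (l : List V) (Z : Finset V) (v : V)
    (h : Rc p (z :: l) Z v) :
    v = z ∨ Rc p ((Z.filter (· ∈ p z)).toList ++ l) (Z.filter (· ∉ p z)) v := by
  induction h with
  | base h =>
    rcases List.mem_cons.mp h with h | h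
    · exact Or.inl h
    · exact Or.inr (Rc.base (List.mem_append_right _ h))
  | @step u v _ hv hZ ih =>
    right
    by_cases hz : v ∈ p z
    · exact Rc.base (List.mem_append_left _ (Finset.mem_toList.mpr (Finset.mem_filter.mpr ⟨hZ, hz⟩)))
    · rcases ih with ih | ih
      · subst ih; exact absurd hv hz
      · exact Rc.step ih hv (Finset.mem_filter.mpr ⟨hZ, hz⟩)

/-- The exploration counts the visits of all frogs woken. -/
theorem Ex_ge (p : V → List V) : ∀ (n : ℕ) (l : List V) (Z : Finset V), l.length + Z.card ≤ n →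
    ∀ W : Finset V, (∀ v ∈ W, Rc p l Z v) → ∑ v ∈ W, (p v).count [] ≤ Ex p n l Z := by
  intro n
  induction n with
  | zero =>
    intro l Z h W hW
    have hl : l = [] := List.length_eq_zero_iff.mp (by omega)
    subst hl
    have : W = ∅ := Finset.eq_empty_of_forall_notMem fun v hv => Rc_nil p Z v (hW v hv)
    rw [this]; simp
  | succ n ih =>
    intro l Z h W hW
    cases l with
    | nil =>
      have : W = ∅ := Finset.eq_empty_of_forall_notMem fun v hv => Rc_nil p Z v (hW v hv)
      rw [this]; simp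
    | cons z l =>
      have hc := card_split Z (p z)
      have h1 := ih ((Z.filter (· ∈ p z)).toList ++ l) (Z.filter (· ∉ p z))
        (by rw [List.length_append, Finset.length_toList]; simp only [List.length_cons] at h; omega)
        (W.erase z) fun v hv => by
          rcases Rc_cons p z l Z v (hW v (Finset.mem_of_mem_erase hv)) with h2 | h2
          · exact absurd h2 (Finset.ne_of_mem_erase hv)
          · exact h2
      have h2 : ∑ v ∈ W, (p v).count [] ≤ (p z).count [] + ∑ v ∈ W.erase z, (p v).count [] := by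
        by_cases hz : z ∈ W
        · rw [← Finset.add_sum_erase W _ hz]
        · rw [Finset.erase_eq_of_notMem hz]
          exact Nat.le_add_left _ _
      exact h2.trans (Nat.add_le_add_left h1 _)

/-- Path of length `L` from the position `y` at time `k`, driven by `c`, killed beyond `H`. -/
def pth (H : ℕ) (c : ℕ → Fin 4 × Fin 5) : ℕ → ℕ → V → List V
  | 0, _, y => [y]
  | L + 1, k, y => if H < y.length then [y] else y :: pth H c L (k + 1) (stp y (c k))

theorem stp_len (y : V) (c : Fin 4 × Fin 5) : (stp y c).length ≤ y.length + 1 := by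
  unfold stp
  split_ifs with h1 h2
  · simp
  · simp
    omega
  · simp

/-- Comparison with the trajectory `S`. -/
theorem pth_app (H : ℕ) (c : ℕ → Fin 4 × Fin 5) (S : ℕ → V)
    (hS : ∀ k, S (k + 1) = stp (S k) (c k)) : ∀ (K L k : ℕ), K ≤ L →
    (S k).length + K ≤ H + 1 →
    ∃ rest, pth H c L k (S k) = (List.range (K + 1)).map (fun i => S (k + i)) ++ rest := by
  intro K
  induction K with
  | zero =>
    intro L k _ hH
    cases L with
    | zero => exact ⟨[], by simp [pth]⟩
    | succ L =>
      simp only [pth]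
      split_ifs
      · exact ⟨[], by simp⟩
      · exact ⟨pth H c L (k + 1) (stp (S k) (c k)), by simp⟩
  | succ K ih =>
    intro L k hL hH
    obtain ⟨L, rfl⟩ : ∃ L', L = L' + 1 := ⟨L - 1, by omega⟩
    simp only [pth]
    rw [if_neg (by omega), ← hS k]
    have h1 := hS k
    have h2 := stp_len (S k) (c k)
    rw [← h1] at h2
    obtain ⟨rest, hr⟩ := ih L (k + 1) (by omega) (by omega)
    refine ⟨rest, ?_⟩
    rw [hr, List.range_succ_eq_map (n := K + 1), List.map_cons, List.map_map, List.cons_append]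
    congr 2
    refine List.map_congr_left fun i _ => ?_
    simp only [Function.comp_apply, Nat.succ_eq_add_one]
    congr 1
    omega

theorem pth_mem (H : ℕ) (c : ℕ → Fin 4 × Fin 5) (S : ℕ → V)
    (hS : ∀ k, S (k + 1) = stp (S k) (c k)) (L k : ℕ) (hL : k ≤ L)
    (hH : (S 0).length + k ≤ H + 1) : S k ∈ pth H c L 0 (S 0) := by
  obtain ⟨rest, hr⟩ := pth_app H c S hS k L 0 hL hH
  rw [hr]
  refine List.mem_append_left _ (List.mem_map.mpr ⟨k, List.mem_range.mpr (by omega), ?_⟩)
  rw [zero_add]

theorem count_range (S : ℕ → V) (n : ℕ) :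
    ((List.range n).map S).count [] = ((Finset.range n).filter (fun k => S k = [])).card := by
  induction n with
  | zero => simp
  | succ n ih =>
    rw [List.range_succ, List.map_append, List.count_append, ih, Finset.range_add_one,
      Finset.filter_insert]
    by_cases h : S n = []
    · rw [if_pos h, Finset.card_insert_of_notMem (by simp)]
      simp [h]
    · rw [if_neg h]
      simp [h]

theorem pth_count (H : ℕ) (c : ℕ → Fin 4 × Fin 5) (S : ℕ → V)
    (hS : ∀ k, S (k + 1) = stp (S k) (c k)) (L K : ℕ) (hL : K ≤ L)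
    (hH : (S 0).length + K ≤ H + 1) :
    ((Finset.range (K + 1)).filter (fun k => S k = [])).card ≤
      (pth H c L 0 (S 0)).count [] := by
  obtain ⟨rest, hr⟩ := pth_app H c S hS K L 0 hL hH
  rw [hr, List.count_append]
  have : (fun i => S (0 + i)) = S := by funext i; rw [zero_add]
  rw [this, count_range]
  exact Nat.le_add_right _ _

theorem traj_len (c : ℕ → Fin 4 × Fin 5) (S : ℕ → V)
    (hS : ∀ k, S (k + 1) = stp (S k) (c k)) (k : ℕ) : (S k).length ≤ (S 0).length + k := by
  induction k with
  | zero => simp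
  | succ k ih =>
    rw [hS]
    have := stp_len (S k) (c k)
    omega

/-- The frogs woken in the true model are woken in all large truncations. -/
theorem woken (c : V → ℕ → Fin 4 × Fin 5) (S : V → ℕ → V) (h0 : ∀ v, S v 0 = v)
    (hS : ∀ v k, S v (k + 1) = stp (S v k) (c v k)) (Z : ℕ → Finset V)
    (hZ : ∀ N w, w ∈ Z N ↔ w ≠ [] ∧ w.length ≤ N) (v : V)
    (hv : ∀ A : Set V, [] ∈ A → (∀ v ∈ A, ∀ k, S v k ∈ A) → v ∈ A) :
    ∃ N0, ∀ N, N0 ≤ N → Rc (fun u => pth N (c u) N 0 u) [[]] (Z N) v := by
  refine hv {v | ∃ N0, ∀ N, N0 ≤ N → Rc (fun u => pth N (c u) N 0 u) [[]] (Z N) v} ?_ ?_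
  · exact ⟨0, fun N _ => Rc.base (List.mem_singleton.mpr rfl)⟩
  · rintro u ⟨N0, hN⟩ k
    by_cases hw : S u k = []
    · rw [hw]
      exact ⟨0, fun N _ => Rc.base (List.mem_singleton.mpr rfl)⟩
    · refine ⟨max N0 (u.length + k), fun N hN' => ?_⟩
      have h1 : N0 ≤ N := (le_max_left _ _).trans hN'
      have h2 : u.length + k ≤ N := (le_max_right _ _).trans hN'
      refine Rc.step (hN N h1) ?_ ((hZ N _).mpr ⟨hw, ?_⟩)
      · have h3 := pth_mem N (c u) (S u) (hS u) N k (by omega) (by rw [h0]; omega)
        rw [h0] at h3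
        exact h3
      · have h3 := traj_len (c u) (S u) (hS u) k
        rw [h0] at h3
        omega

/-- Every finite set of visits is counted in all large truncations. -/
theorem visits (c : V → ℕ → Fin 4 × Fin 5) (S : V → ℕ → V) (h0 : ∀ v, S v 0 = v)
    (hS : ∀ v k, S v (k + 1) = stp (S v k) (c v k)) (Z : ℕ → Finset V)
    (hZ : ∀ N w, w ∈ Z N ↔ w ≠ [] ∧ w.length ≤ N) (F : Finset (V × ℕ))
    (hF : ∀ p ∈ F, (∀ A : Set V, [] ∈ A → (∀ v ∈ A, ∀ k, S v k ∈ A) → p.1 ∈ A) ∧
      S p.1 p.2 = []) :
    ∃ N0, ∀ N, N0 ≤ N → F.card ≤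
      Ex (fun u => pth N (c u) N 0 u) (1 + (Z N).card) [[]] (Z N) := by
  classical
  have h1 : ∀ p ∈ F, ∃ N0, ∀ N, N0 ≤ N → Rc (fun u => pth N (c u) N 0 u) [[]] (Z N) p.1 :=
    fun p hp => woken c S h0 hS Z hZ p.1 (hF p hp).1
  choose! N1 hN1 using h1
  refine ⟨F.sup N1 + F.sup (fun p => p.1.length + p.2) + F.sup (fun p => p.1.length) +
    F.sup (fun p => p.2), fun N hN => ?_⟩
  have h2 := Ex_ge (fun u => pth N (c u) N 0 u) (1 + (Z N).card) [[]] (Z N) (by simp)
    (F.image Prod.fst) fun v hv => by
      obtain ⟨p, hp, rfl⟩ := Finset.mem_image.mp hv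
      refine hN1 p hp N ?_
      have := Finset.le_sup (f := N1) hp
      omega
  refine le_trans ?_ h2
  rw [Finset.card_eq_sum_card_image Prod.fst F]
  refine Finset.sum_le_sum fun v hv => ?_
  have hvl : v.length ≤ F.sup (fun p => p.1.length) := by
    obtain ⟨p, hp, rfl⟩ := Finset.mem_image.mp hv
    exact Finset.le_sup (f := fun p : V × ℕ => p.1.length) hp
  have h3 := pth_count N (c v) (S v) (hS v) N (F.sup (fun p => p.2)) (by omega)
    (by rw [h0]; omega)
  rw [h0] at h3
  refine le_trans ?_ h3
  refine Finset.card_le_card_of_injOn Prod.snd ?_ ?_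
  · intro p hp
    have hp' := Finset.mem_filter.mp hp
    have h4 := Finset.le_sup (f := fun p : V × ℕ => p.2) hp'.1
    simp only [Finset.coe_filter, Finset.mem_range, Set.mem_setOf_eq]
    refine ⟨by omega, ?_⟩
    rw [← hp'.2]
    exact (hF p hp'.1).2
  · intro p hp p' hp' h
    have hp1 := Finset.mem_filter.mp hp
    have hp2 := Finset.mem_filter.mp hp'
    exact Prod.ext (hp1.2.trans hp2.2.symm) h

end Pool.Agent.U874.FT
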