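import Pool.Agent.U874.FT.C3

/-!
# Exploration of the true model: probability
-/

set_option autoImplicit false

open Finset MeasureTheory ProbabilityTheory
open scoped ENNReal

namespace Pool.Agent.U874.FT

variable {Ω : Type} [m0 : MeasurableSpace Ω] {P : Measure Ω} {ξ : V → ℕ → Ω → Fin 4 × Fin 5}

/-- The σ-algebra of the choices in `B`. -/
def sg (ξ : V → ℕ → Ω → Fin 4 × Fin 5) (B : Set (V × ℕ)) : MeasurableSpace Ω :=
  ⨆ p ∈ B, MeasurableSpace.comap (ξ p.1 p.2) inferInstance

omit m0 in
theorem sg_mono {B B' : Set (V × ℕ)} (h : B ⊆ B') : sg ξ B ≤ sg ξ B' :=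
  iSup₂_le fun p hp => le_iSup₂ (f := fun (p : V × ℕ) (_ : p ∈ B') =>
    MeasurableSpace.comap (ξ p.1 p.2) inferInstance) p (h hp)

theorem sg_le (hm : ∀ v k, Measurable (ξ v k)) (B : Set (V × ℕ)) : sg ξ B ≤ m0 :=
  iSup₂_le fun p _ => (hm p.1 p.2).comap_le

omit m0 in
theorem sg_ev {B : Set (V × ℕ)} (v : V) (k : ℕ) (h : (v, k) ∈ B) (c : Fin 4 × Fin 5) :
    MeasurableSet[sg ξ B] (ξ v k ⁻¹' {c}) := by
  have h1 : MeasurableSpace.comap (ξ v k) inferInstance ≤ sg ξ B :=
    le_iSup₂ (f := fun (p : V × ℕ) (_ : p ∈ B) =>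
      MeasurableSpace.comap (ξ p.1 p.2) inferInstance) (v, k) h
  exact h1 _ ⟨{c}, measurableSet_singleton c, rfl⟩

theorem sg_indep (hm : ∀ v k, Measurable (ξ v k))
    (hi : iIndepFun (fun p : V × ℕ => ξ p.1 p.2) P)
    (hu : ∀ v k (c : Fin 4 × Fin 5), P (ξ v k ⁻¹' {c}) = 1 / 20) {B : Set (V × ℕ)} {E : Set Ω}
    (hE : MeasurableSet[sg ξ B] E) (v : V) (k : ℕ) (h : (v, k) ∉ B) (c : Fin 4 × Fin 5) :
    P (E ∩ ξ v k ⁻¹' {c}) = P E * (1 / 20) := by
  have h1 : Indep (⨆ p ∈ B, MeasurableSpace.comap (ξ p.1 p.2) inferInstance)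
      (⨆ p ∈ ({(v, k)} : Set (V × ℕ)), MeasurableSpace.comap (ξ p.1 p.2) inferInstance) P :=
    indep_iSup_of_disjoint (m := fun p : V × ℕ => MeasurableSpace.comap (ξ p.1 p.2) inferInstance)
      (fun p => (hm p.1 p.2).comap_le) hi (Set.disjoint_singleton_right.mpr h)
  rw [Indep_iff] at h1
  rw [h1 E _ hE (sg_ev (B := {(v, k)}) v k rfl c), hu]

theorem EP_nonneg (H L : ℕ) (z : V) {φ : List V → ℝ} (h : ∀ p, 0 ≤ φ p) : 0 ≤ EP H L z φ := by
  rw [← EP_const (H := H) L z 0]
  exact EP_mono _ _ h

theorem one_frog (hm : ∀ v k, Measurable (ξ v k))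
    (hi : iIndepFun (fun p : V × ℕ => ξ p.1 p.2) P)
    (hu : ∀ v k (c : Fin 4 × Fin 5), P (ξ v k ⁻¹' {c}) = 1 / 20) (H : ℕ) (z : V) :
    ∀ (L k : ℕ) (y : V) (B : Set (V × ℕ)) (E : Set Ω) (Φ : List V → Ω → ℝ≥0∞) (φ : List V → ℝ),
      MeasurableSet[sg ξ B] E → (∀ k', k ≤ k' → (z, k') ∉ B) → (∀ p, 0 ≤ φ p) →
      (∀ p E', MeasurableSet[sg ξ (B ∪ {q | q.1 = z ∧ k ≤ q.2})] E' →
        ∫⁻ ω in E', Φ p ω ∂P = P E' * ENNReal.ofReal (φ p)) →
      ∫⁻ ω in E, Φ (pth H (fun i => ξ z i ω) L k y) ω ∂P =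
        P E * ENNReal.ofReal (EP H L y φ) := by
  intro L
  induction L with
  | zero =>
    intro k y B E Φ φ hE _ _ hΦ
    exact hΦ [y] E (sg_mono Set.subset_union_left E hE)
  | succ L ih =>
    intro k y B E Φ φ hE hk hφ hΦ
    simp only [pth, EP]
    split_ifs with hy
    · exact hΦ [y] E (sg_mono Set.subset_union_left E hE)
    · have hE' : ∀ c : Fin 4 × Fin 5,
          MeasurableSet[sg ξ (insert (z, k) B)] (E ∩ ξ z k ⁻¹' {c}) := by
        intro c
        exact MeasurableSet.inter (sg_mono (Set.subset_insert _ _) E hE)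
          (sg_ev z k (Set.mem_insert _ _) c)
      have cover : E = ⋃ c : Fin 4 × Fin 5, E ∩ ξ z k ⁻¹' {c} := by
        ext ω
        simp
      have e1 : ∫⁻ ω in E, Φ (y :: pth H (fun i => ξ z i ω) L (k + 1) (stp y (ξ z k ω))) ω ∂P =
          ∑ c : Fin 4 × Fin 5, ∫⁻ ω in E ∩ ξ z k ⁻¹' {c},
            Φ (y :: pth H (fun i => ξ z i ω) L (k + 1) (stp y c)) ω ∂P := by
        conv_lhs => rw [cover]
        rw [lintegral_iUnion (fun c => sg_le hm _ _ (hE' c)), tsum_fintype]
        · refine Finset.sum_congr rfl fun c _ => ?_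
          refine setLIntegral_congr_fun (sg_le hm _ _ (hE' c)) fun ω hω => ?_
          have : ξ z k ω = c := hω.2
          simp only [this]
        · intro c c' hcc
          rw [Function.onFun, Set.disjoint_left]
          intro ω hω hω'
          exact hcc (hω.2.symm.trans hω'.2)
      rw [e1]
      have e2 : ∀ c : Fin 4 × Fin 5, ∫⁻ ω in E ∩ ξ z k ⁻¹' {c},
            Φ (y :: pth H (fun i => ξ z i ω) L (k + 1) (stp y c)) ω ∂P =
          P E * (1 / 20) * ENNReal.ofReal (EP H L (stp y c) (fun p => φ (y :: p))) := by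
        intro c
        rw [ih (k + 1) (stp y c) (insert (z, k) B) (E ∩ ξ z k ⁻¹' {c}) (fun p => Φ (y :: p))
          (fun p => φ (y :: p)) (hE' c) ?_ (fun p => hφ _) ?_,
          sg_indep hm hi hu hE z k (hk k le_rfl) c]
        · intro k' hk' hmem
          rcases Set.mem_insert_iff.mp hmem with h | h
          · have := congrArg Prod.snd h
            simp only at this
            omega
          · exact hk k' (by omega) h
        · intro p E'' hE''
          refine hΦ (y :: p) E'' (sg_mono ?_ E'' hE'')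
          intro q hq
          rcases hq with hq | hq
          · rcases Set.mem_insert_iff.mp hq with h | h
            · right; rw [h]; exact ⟨rfl, le_rfl⟩
            · left; exact h
          · right; exact ⟨hq.1, by have := hq.2; omega⟩
      rw [Finset.sum_congr rfl fun c _ => e2 c, ← Finset.mul_sum,
        ENNReal.ofReal_mul (by norm_num),
        ENNReal.ofReal_sum_of_nonneg fun c _ => EP_nonneg H L _ fun p => hφ _, mul_assoc]
      congr 2
      rw [ENNReal.ofReal_div_of_pos (by norm_num)]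
      simp

theorem Wf_nonneg (H L : ℕ) : ∀ (n : ℕ) (l : List V) (Z : Finset V), 0 ≤ Wf H L n l Z := by
  intro n
  induction n with
  | zero => intro l Z; exact le_rfl
  | succ n ih =>
    intro l Z
    cases l with
    | nil => exact le_rfl
    | cons z l =>
      simp only [Wf]
      exact EP_nonneg H L z fun p => add_nonneg (rt_nonneg p) (ih _ _)

/-- The paths. -/
def pts (H L : ℕ) (ξ : V → ℕ → Ω → Fin 4 × Fin 5) (ω : Ω) (u : V) : List V :=
  pth H (fun i => ξ u i ω) L 0 u

theorem expl (hm : ∀ v k, Measurable (ξ v k))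
    (hi : iIndepFun (fun p : V × ℕ => ξ p.1 p.2) P)
    (hu : ∀ v k (c : Fin 4 × Fin 5), P (ξ v k ⁻¹' {c}) = 1 / 20) (H L : ℕ) :
    ∀ (n : ℕ) (l : List V) (Z : Finset V) (B : Set (V × ℕ)) (E : Set Ω),
      MeasurableSet[sg ξ B] E → (∀ v ∈ l, ∀ k, (v, k) ∉ B) → (∀ v ∈ Z, ∀ k, (v, k) ∉ B) →
      l.Nodup → (∀ v ∈ l, v ∉ Z) →
      ∫⁻ ω in E, (Ex (pts H L ξ ω) n l Z : ℝ≥0∞) ∂P = P E * ENNReal.ofReal (Wf H L n l Z) := by
  intro n
  induction n with
  | zero =>
    intro l Z B E _ _ _ _ _
    simp [Ex, Wf]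
  | succ n ih =>
    intro l Z B E hE hl hZ hnd hdis
    cases l with
    | nil => simp [Ex, Wf]
    | cons z l =>
      have hz : z ∉ l := (List.nodup_cons.mp hnd).1
      have hzZ : z ∉ Z := hdis z (List.mem_cons_self)
      have key := one_frog hm hi hu H z L 0 z B E
        (fun p ω => (p.count [] : ℝ≥0∞) +
          (Ex (pts H L ξ ω) n ((Z.filter (· ∈ p)).toList ++ l) (Z.filter (· ∉ p)) : ℝ≥0∞))
        (fun p => rt p + Wf H L n ((Z.filter (· ∈ p)).toList ++ l) (Z.filter (· ∉ p)))
        hE (fun k' _ => hl z List.mem_cons_self k')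
        (fun p => add_nonneg (rt_nonneg p) (Wf_nonneg _ _ _ _ _)) ?_
      · have e : ∀ ω, (Ex (pts H L ξ ω) (n + 1) (z :: l) Z : ℝ≥0∞) =
            ((pth H (fun i => ξ z i ω) L 0 z).count [] : ℝ≥0∞) +
            (Ex (pts H L ξ ω) n ((Z.filter (· ∈ pth H (fun i => ξ z i ω) L 0 z)).toList ++ l)
              (Z.filter (· ∉ pth H (fun i => ξ z i ω) L 0 z)) : ℝ≥0∞) := by
          intro ω
          simp only [Ex, Nat.cast_add]
          rfl
        simp only [e]
        rw [key]
        simp only [Wf]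
      · intro p E' hE'
        rw [lintegral_add_left measurable_const, lintegral_const, Measure.restrict_apply_univ,
          ih _ _ (B ∪ {q | q.1 = z ∧ 0 ≤ q.2}) E' hE' ?_ ?_ ?_ ?_]
        · rw [ENNReal.ofReal_add (rt_nonneg p) (Wf_nonneg _ _ _ _ _), mul_add, mul_comm]
          congr 2
          unfold rt
          rw [ENNReal.ofReal_natCast]
        · intro v hv k hmem
          rcases List.mem_append.mp hv with hv | hv
          · have hvZ := (Finset.mem_filter.mp (Finset.mem_toList.mp hv)).1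
            rcases hmem with h | h
            · exact hZ v hvZ k h
            · have h1 : v = z := h.1
              exact hzZ (h1 ▸ hvZ)
          · rcases hmem with h | h
            · exact hl v (List.mem_cons_of_mem _ hv) k h
            · have h1 : v = z := h.1
              exact hz (h1 ▸ hv)
        · intro v hv k hmem
          have hvZ := (Finset.mem_filter.mp hv).1
          rcases hmem with h | h
          · exact hZ v hvZ k h
          · have h1 : v = z := h.1
            exact hzZ (h1 ▸ hvZ)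
        · refine List.Nodup.append (Finset.nodup_toList _) (List.nodup_cons.mp hnd).2 ?_
          intro v hv hv'
          exact hdis v (List.mem_cons_of_mem _ hv')
            (Finset.mem_filter.mp (Finset.mem_toList.mp hv)).1
        · intro v hv hv'
          rcases List.mem_append.mp hv with h | h
          · exact (Finset.mem_filter.mp hv').2 (Finset.mem_filter.mp (Finset.mem_toList.mp h)).2
          · exact hdis v (List.mem_cons_of_mem _ h) (Finset.mem_filter.mp hv').1

theorem pth_meas (hm : ∀ v k, Measurable (ξ v k)) (H : ℕ) (z : V) :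
    ∀ (L k : ℕ) (y : V) (A : Set (List V)),
      MeasurableSet {ω | pth H (fun i => ξ z i ω) L k y ∈ A} := by
  intro L
  induction L with
  | zero =>
    intro k y A
    simp only [pth]
    exact MeasurableSet.const _
  | succ L ih =>
    intro k y A
    simp only [pth]
    by_cases hy : H < y.length
    · simp only [if_pos hy]
      exact MeasurableSet.const _
    · simp only [if_neg hy]
      have e : {ω | (y :: pth H (fun i => ξ z i ω) L (k + 1) (stp y (ξ z k ω))) ∈ A} =
          ⋃ c : Fin 4 × Fin 5, (ξ z k ⁻¹' {c}) ∩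
            {ω | pth H (fun i => ξ z i ω) L (k + 1) (stp y c) ∈ {p | y :: p ∈ A}} := by
        ext ω
        simp
      rw [e]
      exact MeasurableSet.iUnion fun c =>
        ((hm z k) (measurableSet_singleton c)).inter (ih _ _ _)

theorem Ex_meas (hm : ∀ v k, Measurable (ξ v k)) (H L : ℕ) :
    ∀ (n : ℕ) (l : List V) (Z : Finset V) (m : ℕ),
      MeasurableSet {ω | Ex (pts H L ξ ω) n l Z = m} := by
  intro n
  induction n with
  | zero => intro l Z m; simp only [Ex]; exact MeasurableSet.const _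
  | succ n ih =>
    intro l Z m
    cases l with
    | nil => simp only [Ex]; exact MeasurableSet.const _
    | cons z l =>
      have e : {ω | Ex (pts H L ξ ω) (n + 1) (z :: l) Z = m} =
          ⋃ p : List V, {ω | pth H (fun i => ξ z i ω) L 0 z ∈ ({p} : Set (List V))} ∩
            ⋃ a : ℕ, {ω | Ex (pts H L ξ ω) n ((Z.filter (· ∈ p)).toList ++ l)
              (Z.filter (· ∉ p)) = a} ∩ {_ω | p.count [] + a = m} := by
        ext ω
        simp only [Set.mem_iUnion, Set.mem_inter_iff, Set.mem_singleton_iff]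
        constructor
        · intro h
          exact ⟨_, rfl, _, rfl, h⟩
        · rintro ⟨p, hp, a, ha, h⟩
          have hp' : pts H L ξ ω z = p := hp
          change Ex (pts H L ξ ω) (n + 1) (z :: l) Z = m
          simp only [Ex]
          rw [hp']
          have ha' : Ex (pts H L ξ ω) n ((Z.filter (· ∈ p)).toList ++ l)
              (Z.filter (· ∉ p)) = a := ha
          rw [ha']
          exact h
      rw [e]
      exact MeasurableSet.iUnion fun p => (pth_meas hm H z L 0 z {p}).inter
        (MeasurableSet.iUnion fun a => (ih _ _ a).inter (MeasurableSet.const _))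

end Pool.Agent.U874.FT
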