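import Pool.Agent.U874.FT.C2
import Pool.Agent.U874.FT.C4

/-!
# Transience
-/

set_option autoImplicit false

open Finset MeasureTheory ProbabilityTheory Filter
open scoped ENNReal

namespace Pool.Agent.U874.FT

variable {Ω : Type} [m0 : MeasurableSpace Ω] {P : Measure Ω} {ξ : V → ℕ → Ω → Fin 4 × Fin 5}

/-- All vertices of depth `1, …, N`. -/
noncomputable def Zn (N : ℕ) : Finset V := pc chF N (fun _ => 0) []

/-- Number of visits in the truncated model. -/
noncomputable def fN (ξ : V → ℕ → Ω → Fin 4 × Fin 5) (N : ℕ) (ω : Ω) : ℝ≥0∞ :=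
  (Ex (pts N N ξ ω) (1 + (Zn N).card) [[]] (Zn N) : ℝ≥0∞)

theorem fN_meas (hm : ∀ v k, Measurable (ξ v k)) (N : ℕ) : Measurable (fN ξ N) := by
  have h : Measurable (fun ω => Ex (pts N N ξ ω) (1 + (Zn N).card) [[]] (Zn N)) :=
    measurable_to_countable' fun m => Ex_meas hm N N _ _ _ m
  exact (measurable_from_top (f := fun n : ℕ => (n : ℝ≥0∞))).comp h

theorem fN_int [IsProbabilityMeasure P] (hm : ∀ v k, Measurable (ξ v k))
    (hi : iIndepFun (fun p : V × ℕ => ξ p.1 p.2) P)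
    (hu : ∀ v k (c : Fin 4 × Fin 5), P (ξ v k ⁻¹' {c}) = 1 / 20) (N : ℕ) :
    ∫⁻ ω, fN ξ N ω ∂P ≤ 50 := by
  have h := expl hm hi hu N N (1 + (Zn N).card) [[]] (Zn N) ∅ Set.univ MeasurableSet.univ
    (fun v _ k h => h.elim) (fun v _ k h => h.elim) (List.nodup_singleton _)
    (fun v hv hv' => by
      rw [List.mem_singleton] at hv
      subst hv
      exact ((mem_all N []).mp hv').1 rfl)
  rw [Measure.restrict_univ, measure_univ, one_mul] at h
  unfold fN
  rw [h]
  have h1 := U_coe N N [[]] (Zn N) (1 + (Zn N).card) (by simp)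
  have h2 : U N N (([[]] : List V) : Multiset V) (Zn N) ≤ 50 := root_bound N N
  rw [h1] at h2
  calc ENNReal.ofReal (Wf N N (1 + (Zn N).card) [[]] (Zn N)) ≤ ENNReal.ofReal 50 :=
        ENNReal.ofReal_le_ofReal h2
    _ = 50 := by norm_num

/-- Transience of the frog model on the rooted 4-ary tree. -/
theorem transient [IsProbabilityMeasure P] (hm : ∀ v k, Measurable (ξ v k))
    (hi : iIndepFun (fun p : V × ℕ => ξ p.1 p.2) P)
    (hu : ∀ v k (c : Fin 4 × Fin 5), P (ξ v k ⁻¹' {c}) = 1 / 20)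
    (S : V → ℕ → Ω → V) (h0 : ∀ v ω, S v 0 ω = v)
    (hS : ∀ v k ω, S v (k + 1) ω = stp (S v k ω) (ξ v k ω)) :
    ∫⁻ ω, ((Set.encard {p : V × ℕ | (∀ A : Set V, [] ∈ A → (∀ v ∈ A, ∀ k, S v k ω ∈ A) →
      p.1 ∈ A) ∧ S p.1 p.2 ω = []} : ℕ∞) : ℝ≥0∞) ∂P ≤ 50 ∧
    ∀ᵐ ω ∂P, Set.Finite {p : V × ℕ | (∀ A : Set V, [] ∈ A → (∀ v ∈ A, ∀ k, S v k ω ∈ A) →
      p.1 ∈ A) ∧ S p.1 p.2 ω = []} := by
  set T : Ω → Set (V × ℕ) := fun ω => {p : V × ℕ | (∀ A : Set V, [] ∈ A →
    (∀ v ∈ A, ∀ k, S v k ω ∈ A) → p.1 ∈ A) ∧ S p.1 p.2 ω = []} with hT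
  have hmle : ∀ ω (m : ℕ), (m : ℕ∞) ≤ (T ω).encard → (m : ℝ≥0∞) ≤ liminf (fun N => fN ξ N ω) atTop := by
    intro ω m hmT
    obtain ⟨t, ht, htm⟩ := Set.exists_subset_encard_eq hmT
    have hfin : t.Finite := Set.finite_of_encard_eq_coe htm
    obtain ⟨N0, hN0⟩ := visits (fun v k => ξ v k ω) (fun v k => S v k ω) (fun v => h0 v ω)
      (fun v k => hS v k ω) Zn mem_all hfin.toFinset (fun p hp => ht ((Set.Finite.mem_toFinset _).mp hp))
    have hcard : hfin.toFinset.card = m := by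
      rw [hfin.encard_eq_coe_toFinset_card] at htm
      exact_mod_cast htm
    refine le_liminf_of_le (by isBoundedDefault) ?_
    filter_upwards [eventually_ge_atTop N0] with N hN
    have := hN0 N hN
    rw [hcard] at this
    unfold fN
    exact_mod_cast this
  have hle : ∀ ω, (((T ω).encard : ℕ∞) : ℝ≥0∞) ≤ liminf (fun N => fN ξ N ω) atTop := by
    intro ω
    by_cases hfin : (T ω).Finite
    · have h1 := hfin.encard_eq_coe_toFinset_card
      have h2 := hmle ω hfin.toFinset.card (by rw [h1])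
      rw [h1]
      simpa using h2
    · have h1 : (T ω).encard = ⊤ := Set.encard_eq_top hfin
      have h2 : liminf (fun N => fN ξ N ω) atTop = ⊤ := by
        refine ENNReal.eq_top_of_forall_nnreal_le fun r => ?_
        obtain ⟨m, hm'⟩ := exists_nat_ge r
        refine le_trans ?_ (hmle ω m (by rw [h1]; exact le_top))
        exact_mod_cast hm'
      rw [h2]; exact le_top
  have hint : ∫⁻ ω, liminf (fun N => fN ξ N ω) atTop ∂P ≤ 50 := by
    refine (lintegral_liminf_le (fN_meas hm)).trans ?_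
    refine (liminf_le_liminf (Eventually.of_forall fun N => fN_int hm hi hu N)).trans ?_
    rw [liminf_const]
  refine ⟨(lintegral_mono hle).trans hint, ?_⟩
  have hmeas : Measurable fun ω => liminf (fun N => fN ξ N ω) atTop :=
    Measurable.liminf (fN_meas hm)
  have hae := ae_lt_top hmeas (ne_top_of_le_ne_top (by norm_num) hint)
  filter_upwards [hae] with ω hω
  by_contra hinf
  have h1 : (T ω).encard = ⊤ := Set.encard_eq_top hinf
  have h2 := hle ω
  rw [h1] at h2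
  exact absurd (lt_of_le_of_lt h2 hω) (by simp)

end Pool.Agent.U874.FT
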